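import Pool.Agent.H98.ABCR.Stmts

/-! ABCR, assembly part A: asymptotic inequalities and elementary facts -/

set_option autoImplicit false

namespace Pool.Agent.H98.ABCR

open Finset Filter Topology

/-- `log ℓ` is small compared with `ℓ` -/
theorem mn_log_small (a b : ℝ) (hb : 0 < b) : ∀ᶠ l : ℝ in atTop, a * Real.log l ≤ b * l := by
  have h := Real.isLittleO_log_id_atTop
  have h2 := h.def (c := b / (|a| + 1)) (by positivity)
  filter_upwards [h2, eventually_ge_atTop (1 : ℝ)] with l hl hl1
  simp only [id] at hl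
  rw [Real.norm_eq_abs, Real.norm_eq_abs, abs_of_nonneg (Real.log_nonneg hl1),
    abs_of_nonneg (show (0 : ℝ) ≤ l by linarith)] at hl
  have ha : a ≤ |a| + 1 := by linarith [le_abs_self a]
  have hlog := Real.log_nonneg hl1
  calc a * Real.log l ≤ (|a| + 1) * Real.log l := mul_le_mul_of_nonneg_right ha hlog
    _ ≤ (|a| + 1) * (b / (|a| + 1) * l) := mul_le_mul_of_nonneg_left hl (by positivity)
    _ = b * l := by field_simp

theorem mn_log_large (a : ℝ) : ∀ᶠ l : ℝ in atTop, a ≤ Real.log l :=
  Real.tendsto_log_atTop.eventually_ge_atTop a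

/-- all the inequalities between parameters that are used; `l = log Z` -/
structure Par (C y0 l : ℝ) : Prop where
  l1 : 2 ≤ l
  ly0 : y0 ≤ l ^ (10 : ℕ)
  a1 : 4 * C ≤ l
  /-- `λ = log l` is large -/
  b1 : 1 ≤ Real.log l
  b2 : Real.log 8 ≤ 1 / 20 * Real.log l
  b3 : Real.log (24 * C) ≤ 1 / 100 * Real.log l
  b4 : Real.log 2 ≤ 1 / 10 * Real.log l
  /-- `log l` is small compared with `l` -/
  c1 : 100 * Real.log l + 100 * Real.log (24 * C) + 100 ≤ 1 / 10000 * l

theorem par_eventually (C y0 : ℝ) : ∀ᶠ l : ℝ in atTop, Par C y0 l := by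
  have h1 := eventually_ge_atTop (2 : ℝ)
  have h2 : ∀ᶠ l : ℝ in atTop, y0 ≤ l ^ (10 : ℕ) :=
    (tendsto_pow_atTop (by norm_num)).eventually_ge_atTop y0
  have h3 := eventually_ge_atTop (4 * C)
  have h4 := mn_log_large 1
  have h5 := mn_log_large (20 * Real.log 8)
  have h6 := mn_log_large (100 * Real.log (24 * C))
  have h7 := mn_log_large (10 * Real.log 2)
  have h8 := mn_log_small 100 (1 / 20000) (by norm_num)
  have h9 := eventually_ge_atTop (20000 * (100 * Real.log (24 * C) + 100))
  filter_upwards [h1, h2, h3, h4, h5, h6, h7, h8, h9] with l k1 k2 k3 k4 k5 k6 k7 k8 k9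
  exact ⟨k1, k2, k3, k4, by linarith, by linarith, by linarith, by linarith⟩

/-! ### radicals -/

theorem rad_pos (n : ℕ) : 0 < rad n := Finset.prod_pos fun _ hp => (Nat.prime_of_mem_primeFactors hp).pos

theorem primeFactors_rad (n : ℕ) : (rad n).primeFactors = n.primeFactors := by
  unfold rad
  exact Nat.primeFactors_prod fun p hp => Nat.prime_of_mem_primeFactors hp

theorem om_rad (n : ℕ) : om (rad n) = om n := by
  unfold om; rw [primeFactors_rad]

theorem squarefree_rad (n : ℕ) : Squarefree (rad n) := by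
  unfold rad
  refine Finset.squarefree_prod_of_pairwise_isCoprime ?_ ?_
  · intro p hp q hq hpq
    have h1 := Nat.prime_of_mem_primeFactors (Finset.mem_coe.mp hp)
    have h2 := Nat.prime_of_mem_primeFactors (Finset.mem_coe.mp hq)
    exact Nat.coprime_iff_isRelPrime.mp ((Nat.coprime_primes h1 h2).mpr hpq)
  · intro p hp
    exact (Nat.prime_of_mem_primeFactors hp).prime.squarefree

end Pool.Agent.H98.ABCR
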