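import Pool.Agent.H98.ABCR.Main
import Pool.Agent.H14.ABCR.TOT
import Pool.Agent.H14.ABCR.TRE
import Pool.Agent.H15.ABCR.UENG
import Pool.Agent.H20.ABCR.SHI
import Pool.Agent.H27.ABCR.CRT
import Pool.Agent.H27.ABCR.LOC
import Pool.Agent.H31.ABCR.AUXM
import Pool.Agent.H31.ABCR.GCO
import Pool.Agent.H31.ABCR.WSP
import Pool.Agent.H32.ABCR.TSI
import Pool.Agent.H34.ABCR.ARC
import Pool.Agent.H34.ABCR.CSP
import Pool.Agent.H34.ABCR.ENG
import Pool.Agent.H34.ABCR.GCL
import Pool.Agent.H57.ABCR.UPR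
import Pool.Agent.H65.ABCR.GEO
import Pool.Agent.H67.ABCR.RNK
import Pool.Agent.H69.ABCR.ARB
import Pool.Agent.H70.ABCR.MUL
import Pool.Agent.H79.ABCR.RAD
import Pool.Agent.H81.ABCR.CNT
import Pool.Agent.H81.ABCR.GAP
import Pool.Agent.H81.ABCR.KNA
import Pool.Agent.H83.ABCR.PAD
import Pool.Agent.H83.ABCR.TRV
import Pool.Agent.H87.ABCR.SIEG
import Pool.Agent.H87.ABCR.SMO
import Pool.Agent.H87.ABCR.TRU
import Pool.Agent.H87.ABCR.WNZ
import Pool.Agent.H92.ABCR.NV
import Pool.Agent.H92.ABCR.SIV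

/-! ABCR: everything together -/

set_option autoImplicit false

namespace Pool.Agent.H98.ABCR

theorem all_NV : S_NV := nv_thm wnz_thm wsp_thm mul_thm
theorem all_AUX : S_AUX := aux_thm sieg_thm all_NV
theorem all_ARC : S_ARC := arc_thm trv_thm arb_thm
theorem all_TSI : S_TSI := tsi_thm pad_thm all_ARC
theorem all_GAP : S_GAP := gap_thm all_TSI
theorem all_UPR : S_UPR := upr_thm all_TSI all_AUX
theorem all_UENG : S_UENG := ueng_thm all_GAP all_UPR gco_thm geo_thm
theorem all_ENG : S_ENG := eng_thm all_UENG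
theorem all_TRE : S_TRE := tre_thm all_ENG
theorem all_TRU : S_TRU := tru_thm all_UENG
theorem all_CNT : S_CNT := cnt_thm all_TRE rad_thm
theorem all_SMO : S_SMO := smo_thm all_CNT kna_thm
theorem all_TOT : S_TOT := tot_thm all_TRE
theorem all_RNK : S_RNK := rnk_thm rad_thm
theorem all_SIV : S_SIV := siv_thm loc_thm crt_thm
theorem all_CSP : S_CSP := csp_thm all_TRU

theorem all_MAIN : S_MAIN :=
  main_thm all_TOT all_RNK rad_thm all_SMO shi_thm all_SIV all_CSP gcl_thm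

end Pool.Agent.H98.ABCR
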