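import Pool.Agent.H98.ABCR.MainA

/-! ABCR, assembly part B: facts on triples -/

set_option autoImplicit false

namespace Pool.Agent.H98.ABCR

open Finset Filter Topology

theorem mn_nn_pos {v : ℕ × ℕ} (h : IsTri v) : 0 < nn v := by
  unfold nn
  have := h.1
  have := h.2.1
  positivity

theorem mn_RR_pos (v : ℕ × ℕ) : 0 < RR v := rad_pos _

theorem mn_primeFactors_RR (v : ℕ × ℕ) : (RR v).primeFactors = (nn v).primeFactors := primeFactors_rad _

/-- coprimality of the three members -/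
theorem mn_cop {v : ℕ × ℕ} (h : IsTri v) : v.1.Coprime v.2 ∧ v.1.Coprime (v.1 + v.2) ∧
    v.2.Coprime (v.1 + v.2) := by
  refine ⟨h.2.2, ?_, ?_⟩
  · exact (Nat.coprime_add_self_right).mpr h.2.2 |> fun h' => by
      simpa [Nat.coprime_self_add_right] using h.2.2
  · simpa [Nat.coprime_add_self_right] using h.2.2.symm

/-- a prime power exactly dividing the product is at most `c` -/
theorem mn_pow_le {v : ℕ × ℕ} (h : IsTri v) {p : ℕ} (hp : p.Prime) :
    p ^ (nn v).factorization p ≤ v.1 + v.2 := by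
  obtain ⟨h12, h13, h23⟩ := mn_cop h
  have ha := h.1
  have hb := h.2.1
  have hc : 0 < v.1 + v.2 := by omega
  have hf : (nn v).factorization p = v.1.factorization p + v.2.factorization p +
      (v.1 + v.2).factorization p := by
    unfold nn
    rw [Nat.factorization_mul (by positivity) hc.ne', Nat.factorization_mul ha.ne' hb.ne']
    rfl
  have key : ∀ x y : ℕ, x.Coprime y → p ∣ x → y.factorization p = 0 := by
    intro x y hxy hpx
    apply Nat.factorization_eq_zero_of_not_dvd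
    intro hpy
    exact hp.one_lt.ne' (Nat.eq_one_of_dvd_coprimes hxy hpx hpy)
  have z : ∀ x : ℕ, ¬ p ∣ x → x.factorization p = 0 := fun x => Nat.factorization_eq_zero_of_not_dvd
  have le : ∀ x : ℕ, 0 < x → x ≤ v.1 + v.2 → p ^ x.factorization p ≤ v.1 + v.2 := by
    intro x hx hx2
    exact (Nat.le_of_dvd hx (Nat.ordProj_dvd x p)).trans hx2
  by_cases h1 : p ∣ v.1
  · rw [hf, key _ _ h12 h1, key _ _ h13 h1]
    exact le _ ha (by omega)
  · by_cases h2 : p ∣ v.2
    · rw [hf, z _ h1, key _ _ h23 h2]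
      simpa using le _ hb (by omega)
    · rw [hf, z _ h1, z _ h2]
      simpa using le _ hc (by omega)

/-- splitting off one prime of the radical -/
theorem mn_split {v : ℕ × ℕ} {p : ℕ} (hp : p ∈ (RR v).primeFactors) :
    RR v = RR v / p * p ∧ Squarefree (RR v / p) ∧ om (RR v / p) + 1 = om (RR v) ∧
      ¬ p ∣ RR v / p ∧ 0 < RR v / p := by
  have hpp := Nat.prime_of_mem_primeFactors hp
  have hd := Nat.dvd_of_mem_primeFactors hp
  have hsq : Squarefree (RR v) := squarefree_rad _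
  obtain ⟨u, hu⟩ := hd
  have hR := mn_RR_pos v
  have hu0 : 0 < u := by
    rcases Nat.eq_zero_or_pos u with h | h
    · rw [h] at hu; omega
    · exact h
  have e : RR v / p = u := by rw [hu]; exact Nat.mul_div_cancel_left _ hpp.pos
  rw [e]
  have hus : Squarefree u := hsq.squarefree_of_dvd ⟨p, by rw [hu]; ring⟩
  have hnd : ¬ p ∣ u := by
    intro hdu
    have : p * p ∣ RR v := by rw [hu]; exact mul_dvd_mul_left p hdu
    exact hpp.one_lt.ne' (Nat.isUnit_iff.mp (hsq p this))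
  refine ⟨by rw [hu]; ring, hus, ?_, hnd, hu0⟩
  have : (RR v).primeFactors = insert p u.primeFactors := by
    rw [hu, Nat.primeFactors_mul hpp.ne_zero hu0.ne', hpp.primeFactors]
    rfl
  unfold om
  rw [this, Finset.card_insert_of_notMem]
  intro h
  exact hnd (Nat.dvd_of_mem_primeFactors h)

theorem mn_vp_pos {v : ℕ × ℕ} (h : IsTri v) {p : ℕ} (hp : p ∈ (RR v).primeFactors) :
    0 < (nn v).factorization p := by
  rw [mn_primeFactors_RR] at hp
  exact (Nat.prime_of_mem_primeFactors hp).factorization_pos_of_dvd (mn_nn_pos h).ne'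
    (Nat.dvd_of_mem_primeFactors hp)

/-- counting through the radical -/
theorem mn_count {C : ℝ} (hC : 1 ≤ C) (hT : ∀ (R : ℕ) (F : Finset (ℕ × ℕ)),
    (∀ v ∈ F, IsTri v ∧ RR v = R) → (F.card : ℝ) ≤ C ^ (om R + 1))
    (F : Finset (ℕ × ℕ)) (T : Finset ℕ) (hF : ∀ v ∈ F, IsTri v ∧ RR v ∈ T) :
    (F.card : ℝ) ≤ ∑ R ∈ T, C ^ (om R + 1) := by
  classical
  rw [Finset.card_eq_sum_card_fiberwise (f := RR) (t := T) (fun v hv => (hF v hv).2)]
  push_cast
  refine Finset.sum_le_sum fun R _ => hT R _ ?_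
  intro v hv
  rw [Finset.mem_filter] at hv
  exact ⟨(hF v hv.1).1, hv.2⟩

/-- few large primes -/
theorem mn_few {R : ℕ} {Z : ℝ} (hZ : 1 < Z) (hR : 0 < R) (hRZ : (R : ℝ) ≤ Z) :
    (R.primeFactors.filter (fun p : ℕ => Z ^ (1 / 4 : ℝ) < (p : ℝ))).card ≤ 3 := by
  by_contra hcon
  push Not at hcon
  obtain ⟨J, hJ, hJc⟩ := Finset.exists_subset_card_eq (n := 4) (by omega :
    4 ≤ (R.primeFactors.filter (fun p : ℕ => Z ^ (1 / 4 : ℝ) < (p : ℝ))).card)
  have h1 : ∏ p ∈ J, p ∣ R := by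
    have : ∏ p ∈ J, p ∣ ∏ p ∈ R.primeFactors, p :=
      Finset.prod_dvd_prod_of_subset _ _ _ (hJ.trans (Finset.filter_subset _ _))
    exact this.trans (Nat.prod_primeFactors_dvd R)
  have h2 : (((∏ p ∈ J, p : ℕ)) : ℝ) ≤ Z :=
    le_trans (by exact_mod_cast Nat.le_of_dvd hR h1) hRZ
  have h3 : Z < ((∏ p ∈ J, p : ℕ) : ℝ) := by
    push_cast
    calc Z = ∏ _p ∈ J, Z ^ (1 / 4 : ℝ) := by
          rw [Finset.prod_const, hJc, ← Real.rpow_natCast, ← Real.rpow_mul (by linarith)]
          norm_num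
      _ < ∏ p ∈ J, (p : ℝ) := by
          refine Finset.prod_lt_prod_of_nonempty (fun p _ => by positivity) (fun p hp => ?_)
            (Finset.card_pos.mp (by omega))
          exact (Finset.mem_filter.mp (hJ hp)).2
  linarith

end Pool.Agent.H98.ABCR
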