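import Pool.Agent.H98.ABCR.Gen3

/-! ABCR: one large prime, general form; sharper main theorem; few prime factors -/

set_option autoImplicit false

namespace Pool.Agent.H98.ABCR

open Finset Filter Topology

/-- triples with few primes and one large prime -/
theorem gn_GEN (h1 : S_TOT) (h3 : S_RAD) (h5 : S_SHG) (h6 : S_SIV) (h7 : S_CS2)
    {a b κ θ η β E : ℝ} (hN : NumG a b κ θ η β)
    (hE1 : 1 - θ * (1 - 2 * b - 4 * κ) + η * (β * (1 - a + κ) - 1 + κ) + κ ≤ E)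
    (hE2 : 1 - θ + η * (3 / 2 * (β * (1 - a + κ)) - 1 + κ) + κ ≤ E) (hE0 : 0 ≤ E) :
    ∃ C : ℝ, 1 ≤ C ∧ ∀ (Z : ℝ) (F : Finset (ℕ × ℕ)), 1 ≤ Z →
      (∀ v ∈ F, IsTri v ∧ (RR v : ℝ) ≤ Z ∧
        (om (RR v) : ℝ) ≤ η * Real.log Z / Real.log (Real.log Z) ∧
        ∃ p ∈ (RR v).primeFactors, Z ^ θ < (p : ℝ)) → (F.card : ℝ) ≤ C * Z ^ E := by
  classical
  obtain ⟨C1, hC1, hT1⟩ := h1
  obtain ⟨k0, C2, hC2, hP2⟩ := h7
  set C : ℝ := max C1 C2 with hC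
  have hCC : 1 ≤ C := hC1.trans (le_max_left _ _)
  have hCpos : 0 < C := by linarith
  have hT : ∀ (R : ℕ) (F : Finset (ℕ × ℕ)),
      (∀ v ∈ F, IsTri v ∧ RR v = R) → (F.card : ℝ) ≤ C ^ (om R + 1) := by
    intro R F hF
    exact (hT1 R F hF).trans (pow_le_pow_left₀ (by linarith) (le_max_left _ _) _)
  set k1 : ℕ := max k0 3 with hk1
  have hP : ∀ (k u : ℕ) (F : Finset (ℕ × ℕ)), k.Prime → Odd k → k1 ≤ k → Squarefree u →
      (∀ v ∈ F, IsTri v ∧ C * k ≤ Real.log ((v.1 : ℝ) + v.2) ∧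
        ∃ p : ℕ, p.Prime ∧ RR v = u * p ∧ k ∣ (nn v).factorization p) →
      (F.card : ℝ) ≤ (C * k) ^ (3 / 2 * (om u : ℝ) + 3) := by
    intro k u F hk hko hkk hu hF
    have hk0 : (0 : ℝ) ≤ k := Nat.cast_nonneg k
    have := hP2 k u F hk hko (le_trans (le_max_left _ _) hkk) hu (fun v hv => by
      obtain ⟨a, b, c⟩ := hF v hv
      exact ⟨a, le_trans (mul_le_mul_of_nonneg_right (le_max_right _ _) hk0) b, c⟩)
    refine this.trans (Real.rpow_le_rpow (by positivity) ?_ (by positivity))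
    exact mul_le_mul_of_nonneg_right (le_max_right _ _) hk0
  obtain ⟨y0, hy0⟩ := h5 a b κ hN.a0 hN.ab hN.b5 hN.κ0 k1
  set A : ℝ := 8 * β + 10 + 5 * Real.log C with hA
  set B : ℝ := η * (2 * Real.log C + 2) with hB
  obtain ⟨l0, hl0⟩ := (gn_ev a b κ θ η β C y0 A B hN.κ0 hN.θ0 hN.β0).exists_forall_of_atTop
  set l1 : ℝ := max l0 1 with hl1
  set Cs : ℝ := ∑ R ∈ Icc 1 ⌊Real.exp l1⌋₊, C ^ (om R + 1) with hCs
  have hCs0 : 0 ≤ Cs := Finset.sum_nonneg fun R _ => by positivity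
  refine ⟨Cs + 2, by linarith, ?_⟩
  intro Z F hZ hF
  have hZ0 : 0 < Z := by linarith
  have hZe1 : 1 ≤ Z ^ E := Real.one_le_rpow hZ hE0
  rcases le_or_gt Z (Real.exp l1) with hsmall | hlarge
  · -- small Z
    have hb := mn_count hCC hT F (Icc 1 ⌊Real.exp l1⌋₊) (fun v hv => by
      refine ⟨(hF v hv).1, Finset.mem_Icc.mpr ⟨mn_RR_pos v, Nat.le_floor ((hF v hv).2.1.trans hsmall)⟩⟩)
    calc (F.card : ℝ) ≤ Cs := hb
      _ ≤ (Cs + 2) * 1 := by linarith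
      _ ≤ _ := mul_le_mul_of_nonneg_left hZe1 (by linarith)
  · set l : ℝ := Real.log Z with hl
    have hZl : Real.exp l = Z := Real.exp_log hZ0
    have hll1 : l1 < l := by
      rw [hl, Real.lt_log_iff_exp_lt hZ0]; exact hlarge
    have hpar : ParG a b κ θ η β C y0 A B l := hl0 l ((le_max_left _ _).trans hll1.le)
    obtain ⟨e, hek, he1, he2, L, hLc, hL⟩ := hy0 (Real.exp (β * Real.log l)) hpar.g5
    have hD : DatG a b κ (Real.exp (β * Real.log l)) e L := ⟨he1, he2, hLc, hL⟩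
    set F3 := F.filter (fun v => ∃ p ∈ (RR v).primeFactors,
      Real.exp l ^ θ < (p : ℝ) ∧ Nat.gcd ((nn v).factorization p) e = 1) with hF3
    set F4 := F.filter (fun v => ∃ p ∈ (RR v).primeFactors,
      Real.exp l ^ θ < (p : ℝ) ∧ Nat.gcd ((nn v).factorization p) e ≠ 1) with hF4
    have hcov : F ⊆ F3 ∪ F4 := by
      intro v hv
      obtain ⟨h1, h2, h3, p, hp, hpZ⟩ := hF v hv
      rw [Finset.mem_union, hF3, hF4, Finset.mem_filter, Finset.mem_filter]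
      by_cases c : Nat.gcd ((nn v).factorization p) e = 1
      · exact Or.inl ⟨hv, p, hp, by rw [hZl]; exact hpZ, c⟩
      · exact Or.inr ⟨hv, p, hp, by rw [hZl]; exact hpZ, c⟩
    have hcard : (F.card : ℝ) ≤ F3.card + F4.card := by
      have : F.card ≤ F3.card + F4.card := (Finset.card_le_card hcov).trans (Finset.card_union_le _ _)
      exact_mod_cast this
    have hexp : Real.exp (E * l) = Z ^ E := by
      rw [Real.rpow_def_of_pos hZ0, ← hl]; congr 1; ring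
    have b3 : (F3.card : ℝ) ≤ Z ^ E := by
      rw [← hexp]
      refine gn_F3 h6 h3 hCC hN hpar le_rfl le_rfl hE1 hT rfl hD F3 (fun v hv => ?_)
      rw [hF3, Finset.mem_filter] at hv
      obtain ⟨h1, h2, h3, h4⟩ := hF v hv.1
      exact ⟨h1, by rw [hZl]; exact h2, h3, hv.2⟩
    have b4 : (F4.card : ℝ) ≤ Z ^ E := by
      rw [← hexp]
      refine gn_F4 h3 hCC hN hpar le_rfl le_rfl hE2 (le_max_right _ _) hP rfl hek hD F4 (fun v hv => ?_)
      rw [hF4, Finset.mem_filter] at hv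
      obtain ⟨h1, h2, h3, h4⟩ := hF v hv.1
      exact ⟨h1, by rw [hZl]; exact h2, h3, hv.2⟩
    have : 0 ≤ Cs * Z ^ E := by positivity
    calc (F.card : ℝ) ≤ F3.card + F4.card := hcard
      _ ≤ (Cs + 2) * Z ^ E := by linarith

/-- MAIN THEOREM with exponent `24 / 25` -/
def S_MAIN2 : Prop := ∃ C : ℝ, 1 ≤ C ∧ ∀ (Z : ℝ) (F : Finset (ℕ × ℕ)), 1 ≤ Z →
  (∀ v ∈ F, IsTri v ∧ (RR v : ℝ) ≤ Z) → (F.card : ℝ) ≤ C * Z ^ (24 / 25 : ℝ)

theorem main2_thm (h1 : S_TOT) (h2 : S_RNK) (h3 : S_RAD) (h4 : S_SMO) (h5 : S_SHG) (h6 : S_SIV)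
    (h7 : S_CS2) : S_MAIN2 := by
  classical
  have hN : NumG (198 / 1000) (200 / 1000) (5 / 10000) (290 / 1000) (405 / 10000) (51 / 10) :=
    ⟨by norm_num, by norm_num, by norm_num, by norm_num, by norm_num, by norm_num, by norm_num,
      by norm_num, by norm_num, by norm_num⟩
  obtain ⟨Cg, hCg, hG⟩ := gn_GEN h1 h3 h5 h6 h7 hN (E := 24 / 25) (by norm_num) (by norm_num)
    (by norm_num)
  obtain ⟨C, hCC, hT⟩ := h1
  obtain ⟨K, hK⟩ : ∃ K : ℕ, C ≤ K := exists_nat_ge C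
  have hK1 : 1 ≤ K := by
    have : (1 : ℝ) ≤ K := hCC.trans hK
    exact_mod_cast this
  obtain ⟨C3, hC3, hR3⟩ := h2 K (405 / 10000) (1 / 100) hK1 (by norm_num) (by norm_num) (by norm_num)
  obtain ⟨C4, hC4, hS4⟩ := h4 (3 / 1000) (by norm_num)
  set Cs : ℝ := ∑ R ∈ Icc 1 ⌊(16 : ℝ)⌋₊, C ^ (om R + 1) with hCs
  have hCpos : 0 < C := by linarith
  have hCs0 : 0 ≤ Cs := Finset.sum_nonneg fun R _ => by positivity
  have hKpos : (0 : ℝ) < K := by linarith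
  refine ⟨Cs + K * C3 + C4 + Cg, by
    have : 0 ≤ K * C3 := by positivity
    linarith, ?_⟩
  intro Z F hZ hF
  have hZ0 : 0 < Z := by linarith
  have hZe1 : 1 ≤ Z ^ (24 / 25 : ℝ) := Real.one_le_rpow hZ (by norm_num)
  rcases le_or_gt Z 16 with hsmall | hlarge
  · have hb := mn_count hCC hT F (Icc 1 ⌊(16 : ℝ)⌋₊) (fun v hv => by
      refine ⟨(hF v hv).1, Finset.mem_Icc.mpr ⟨mn_RR_pos v, Nat.le_floor ((hF v hv).2.trans hsmall)⟩⟩)
    calc (F.card : ℝ) ≤ Cs := hb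
      _ ≤ (Cs + K * C3 + C4 + Cg) * 1 := by
          have : 0 ≤ K * C3 := by positivity
          linarith
      _ ≤ _ := mul_le_mul_of_nonneg_left hZe1 (by positivity)
  · set w : ℝ := 405 / 10000 * Real.log Z / Real.log (Real.log Z) with hw
    set F1 := F.filter (fun v => w < (om (RR v) : ℝ)) with hF1
    set F2 := F.filter (fun v => ∀ p ∈ (RR v).primeFactors, (p : ℝ) ≤ Z ^ (290 / 1000 : ℝ)) with hF2
    set F3 := F.filter (fun v => (om (RR v) : ℝ) ≤ w ∧ ∃ p ∈ (RR v).primeFactors,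
      Z ^ (290 / 1000 : ℝ) < (p : ℝ)) with hF3
    have hcov : F ⊆ F1 ∪ F2 ∪ F3 := by
      intro v hv
      simp only [Finset.mem_union]
      by_cases c1 : w < (om (RR v) : ℝ)
      · exact Or.inl (Or.inl (Finset.mem_filter.mpr ⟨hv, c1⟩))
      push Not at c1
      by_cases c2 : ∀ p ∈ (RR v).primeFactors, (p : ℝ) ≤ Z ^ (290 / 1000 : ℝ)
      · exact Or.inl (Or.inr (Finset.mem_filter.mpr ⟨hv, c2⟩))
      push Not at c2
      exact Or.inr (Finset.mem_filter.mpr ⟨hv, c1, c2⟩)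
    have hcard : (F.card : ℝ) ≤ F1.card + F2.card + F3.card := by
      have g1 := Finset.card_le_card hcov
      have g2 := Finset.card_union_le (F1 ∪ F2) F3
      have g3 := Finset.card_union_le F1 F2
      have : F.card ≤ F1.card + F2.card + F3.card := by omega
      exact_mod_cast this
    have b1 : (F1.card : ℝ) ≤ K * C3 * Z ^ (24 / 25 : ℝ) := by
      have g1 := mn_count hCC hT F1 ((Icc 1 ⌊Z⌋₊).filter
        (fun n => 405 / 10000 * Real.log Z / Real.log (Real.log Z) < (om n : ℝ))) (fun v hv => by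
          rw [hF1, Finset.mem_filter] at hv
          exact ⟨(hF v hv.1).1, Finset.mem_filter.mpr ⟨Finset.mem_Icc.mpr
            ⟨mn_RR_pos v, Nat.le_floor (hF v hv.1).2⟩, hv.2⟩⟩)
      have g2 := hR3 Z hlarge.le
      calc (F1.card : ℝ) ≤ _ := g1
        _ ≤ K * ∑ n ∈ (Icc 1 ⌊Z⌋₊).filter
            (fun n => 405 / 10000 * Real.log Z / Real.log (Real.log Z) < (om n : ℝ)), (K : ℝ) ^ om n := by
            rw [Finset.mul_sum]
            refine Finset.sum_le_sum fun R _ => ?_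
            calc C ^ (om R + 1) ≤ (K : ℝ) ^ (om R + 1) := pow_le_pow_left₀ (by linarith) hK _
              _ = K * (K : ℝ) ^ om R := by ring
        _ ≤ K * (C3 * Z ^ (1 - (1 - 1 / 100) * (405 / 10000) : ℝ)) :=
            mul_le_mul_of_nonneg_left g2 hKpos.le
        _ ≤ K * (C3 * Z ^ (24 / 25 : ℝ)) := by
            apply mul_le_mul_of_nonneg_left _ hKpos.le
            apply mul_le_mul_of_nonneg_left _ (by linarith)
            exact Real.rpow_le_rpow_of_exponent_le hZ (by norm_num)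
        _ = _ := by ring
    have b2 : (F2.card : ℝ) ≤ C4 * Z ^ (24 / 25 : ℝ) := by
      have g1 := hS4 Z (Z ^ (290 / 1000 : ℝ)) F2 hZ (Real.one_le_rpow hZ (by norm_num)) (fun v hv => by
        rw [hF2, Finset.mem_filter] at hv
        exact ⟨(hF v hv.1).1, (hF v hv.1).2, hv.2⟩)
      calc (F2.card : ℝ) ≤ _ := g1
        _ = C4 * Z ^ ((2 / 3 + 3 / 1000) + 290 / 1000 : ℝ) := by
            rw [mul_assoc, ← Real.rpow_add hZ0]
        _ ≤ _ := by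
            apply mul_le_mul_of_nonneg_left _ (by linarith)
            exact Real.rpow_le_rpow_of_exponent_le hZ (by norm_num)
    have b3 : (F3.card : ℝ) ≤ Cg * Z ^ (24 / 25 : ℝ) := by
      refine hG Z F3 hZ (fun v hv => ?_)
      rw [hF3, Finset.mem_filter] at hv
      exact ⟨(hF v hv.1).1, (hF v hv.1).2, hv.2.1, hv.2.2⟩
    have : 0 ≤ Cs * Z ^ (24 / 25 : ℝ) := by positivity
    calc (F.card : ℝ) ≤ F1.card + F2.card + F3.card := hcard
      _ ≤ (Cs + K * C3 + C4 + Cg) * Z ^ (24 / 25 : ℝ) := by linarith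

/-- few prime factors -/
def S_FEW : Prop := ∀ ε : ℝ, 0 < ε → ∃ δ : ℝ, 0 < δ ∧ ∃ C : ℝ, 1 ≤ C ∧
  ∀ (Z : ℝ) (F : Finset (ℕ × ℕ)), 1 ≤ Z →
  (∀ v ∈ F, IsTri v ∧ (RR v : ℝ) ≤ Z ∧ (om (RR v) : ℝ) ≤ δ * Real.log Z / Real.log (Real.log Z)) →
  (F.card : ℝ) ≤ C * Z ^ (5 / 6 + ε)

theorem few_thm (h1 : S_TOT) (h3 : S_RAD) (h4 : S_SMO) (h5 : S_SHG) (h6 : S_SIV)
    (h7 : S_CS2) : S_FEW := by
  classical
  -- small ε first
  suffices H : ∀ ε : ℝ, 0 < ε → ε ≤ 1 / 10 → ∃ δ : ℝ, 0 < δ ∧ ∃ C : ℝ, 1 ≤ C ∧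
      ∀ (Z : ℝ) (F : Finset (ℕ × ℕ)), 1 ≤ Z →
      (∀ v ∈ F, IsTri v ∧ (RR v : ℝ) ≤ Z ∧ (om (RR v) : ℝ) ≤ δ * Real.log Z / Real.log (Real.log Z)) →
      (F.card : ℝ) ≤ C * Z ^ (5 / 6 + ε) by
    intro ε hε
    obtain ⟨δ, hδ, C, hC, h⟩ := H (min ε (1 / 10)) (lt_min hε (by norm_num)) (min_le_right _ _)
    refine ⟨δ, hδ, C, hC, fun Z F hZ hF => (h Z F hZ hF).trans ?_⟩
    apply mul_le_mul_of_nonneg_left _ (by linarith)
    exact Real.rpow_le_rpow_of_exponent_le hZ (by linarith [min_le_left ε (1 / 10)])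
  intro ε hε hε1
  -- parameters: b = ε, a = ε / 2, κ = ε / 16, β = 4 / ε, η = ε ^ 2 / 100
  have hβ : 1 + ε / 16 ≤ 4 / ε * (ε / 2 - ε / 16) := by
    have : 4 / ε * (ε / 2 - ε / 16) = 7 / 4 := by field_simp; ring
    rw [this]; linarith
  have hN : NumG (ε / 2) ε (ε / 16) (1 / 6) (ε ^ 2 / 100) (4 / ε) :=
    ⟨by positivity, by linarith, by linarith, by positivity, by linarith, by norm_num, by norm_num,
      by positivity, by positivity, hβ⟩
  have e1 : ε ^ 2 / 100 * (4 / ε * (1 - ε / 2 + ε / 16) - 1 + ε / 16) ≤ ε / 10 := by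
    have : ε ^ 2 / 100 * (4 / ε * (1 - ε / 2 + ε / 16) - 1 + ε / 16) =
      ε * (4 * (1 - ε / 2 + ε / 16)) / 100 + ε ^ 2 / 100 * (-1 + ε / 16) := by field_simp; ring
    rw [this]
    nlinarith [mul_pos hε hε]
  have e2 : ε ^ 2 / 100 * (3 / 2 * (4 / ε * (1 - ε / 2 + ε / 16)) - 1 + ε / 16) ≤ ε / 10 := by
    have : ε ^ 2 / 100 * (3 / 2 * (4 / ε * (1 - ε / 2 + ε / 16)) - 1 + ε / 16) =
      ε * (6 * (1 - ε / 2 + ε / 16)) / 100 + ε ^ 2 / 100 * (-1 + ε / 16) := by field_simp; ring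
    rw [this]
    nlinarith [mul_pos hε hε]
  obtain ⟨Cg, hCg, hG⟩ := gn_GEN h1 h3 h5 h6 h7 hN (E := 5 / 6 + ε) (by nlinarith) (by nlinarith)
    (by positivity)
  obtain ⟨C4, hC4, hS4⟩ := h4 ε hε
  refine ⟨ε ^ 2 / 100, by positivity, C4 + Cg, by linarith, ?_⟩
  intro Z F hZ hF
  have hZ0 : 0 < Z := by linarith
  set F2 := F.filter (fun v => ∀ p ∈ (RR v).primeFactors, (p : ℝ) ≤ Z ^ (1 / 6 : ℝ)) with hF2
  set F3 := F.filter (fun v => ∃ p ∈ (RR v).primeFactors, Z ^ (1 / 6 : ℝ) < (p : ℝ)) with hF3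
  have hcov : F ⊆ F2 ∪ F3 := by
    intro v hv
    simp only [Finset.mem_union]
    by_cases c2 : ∀ p ∈ (RR v).primeFactors, (p : ℝ) ≤ Z ^ (1 / 6 : ℝ)
    · exact Or.inl (Finset.mem_filter.mpr ⟨hv, c2⟩)
    push Not at c2
    exact Or.inr (Finset.mem_filter.mpr ⟨hv, c2⟩)
  have hcard : (F.card : ℝ) ≤ F2.card + F3.card := by
    have : F.card ≤ F2.card + F3.card := (Finset.card_le_card hcov).trans (Finset.card_union_le _ _)
    exact_mod_cast this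
  have b2 : (F2.card : ℝ) ≤ C4 * Z ^ (5 / 6 + ε) := by
    have g1 := hS4 Z (Z ^ (1 / 6 : ℝ)) F2 hZ (Real.one_le_rpow hZ (by norm_num)) (fun v hv => by
      rw [hF2, Finset.mem_filter] at hv
      exact ⟨(hF v hv.1).1, (hF v hv.1).2.1, hv.2⟩)
    calc (F2.card : ℝ) ≤ _ := g1
      _ = C4 * Z ^ ((2 / 3 + ε) + 1 / 6 : ℝ) := by
          rw [mul_assoc, ← Real.rpow_add hZ0]
      _ = _ := by congr 2; ring
  have b3 : (F3.card : ℝ) ≤ Cg * Z ^ (5 / 6 + ε) := by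
    refine hG Z F3 hZ (fun v hv => ?_)
    rw [hF3, Finset.mem_filter] at hv
    exact ⟨(hF v hv.1).1, (hF v hv.1).2.1, (hF v hv.1).2.2, hv.2⟩
  calc (F.card : ℝ) ≤ F2.card + F3.card := hcard
    _ ≤ (C4 + Cg) * Z ^ (5 / 6 + ε) := by linarith

end Pool.Agent.H98.ABCR
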