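import Pool.Agent.H98.ABCR.All
import Pool.Agent.H98.ABCR.Gen4
import Pool.Agent.H33.ABCR.CS2
import Pool.Agent.H47.ABCR.SHG

/-! ABCR: everything together, exponent `24 / 25` -/

set_option autoImplicit false

namespace Pool.Agent.H98.ABCR

theorem all_CS2 : S_CS2 := cs2_thm all_TRU

theorem all_MAIN2 : S_MAIN2 :=
  main2_thm all_TOT all_RNK rad_thm all_SMO shg_thm all_SIV all_CS2

theorem all_FEW : S_FEW :=
  few_thm all_TOT rad_thm all_SMO shg_thm all_SIV all_CS2

end Pool.Agent.H98.ABCR
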