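import Pool.Agent.H98.ABCR.FcB

/-! ABCR: bases of solutions of `x^p + y^q = z^r`, part C -/

set_option autoImplicit false

namespace Pool.Agent.H98.ABCR

open Finset Filter Topology

/-- the triples whose base `t` is the largest and is large -/
theorem fc_Ft {C l : ℝ} (hC : 1 ≤ C) (hl : 0 ≤ l) (t : Fin 3) (F : Finset (ℕ × ℕ × ℕ))
    (hF : ∀ u ∈ F, 1 ≤ u.1 ∧ 1 ≤ u.2.1 ∧ 1 ≤ u.2.2 ∧ u.1.Coprime u.2.1 ∧
      ((u.1 * u.2.1 * u.2.2 : ℕ) : ℝ) ≤ Real.exp l ∧
      (∃ p q r : ℕ, 1 ≤ p ∧ 1 ≤ q ∧ 1 ≤ r ∧ u.1 ^ p + u.2.1 ^ q = u.2.2 ^ r) ∧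
      (∀ s, bs u s ≤ bs u t) ∧ C ≤ Real.log (bs u t)) (g : ℕ → ℝ) (hg : ∀ m, 0 ≤ g m)
    (hW : ∀ (m n : ℕ), 1 ≤ m → 1 ≤ n → (m : ℝ) * n ≤ Real.exp (2 / 3 * l) → ∀ W : Finset ℕ,
      (∀ w ∈ W, C ≤ Real.log w ∧ (w : ℝ) ≤ Real.exp l / (m * n) ∧
      ∃ (v : ℕ × ℕ) (i j r : ℕ), IsTri v ∧ 1 ≤ i ∧
        coord v t = w ^ i ∧ coord v (t + 1) = m ^ j ∧ coord v (t + 2) = n ^ r) →
      (W.card : ℝ) ≤ g m) :
    (F.card : ℝ) ≤ Real.exp (2 / 3 * l) * ∑ m ∈ Icc 1 ⌊Real.exp (2 / 3 * l)⌋₊, g m / m := by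
  classical
  have hpos : ∀ u ∈ F, ∀ s, 1 ≤ bs u s := by
    intro u hu s
    obtain ⟨h1, h2, h3, _⟩ := hF u hu
    fin_cases s
    · exact h1
    · exact h2
    · exact h3
  set P : Finset (ℕ × ℕ) := F.image (fun u => (bs u (t + 1), bs u (t + 2))) with hP
  have hprod : ∀ u ∈ F, (bs u t : ℝ) * bs u (t + 1) * bs u (t + 2) ≤ Real.exp l := by
    intro u hu
    have h := (hF u hu).2.2.2.2.1
    rw [← bs_rot u t] at h
    push_cast at h
    exact h
  have hPm : ∀ q ∈ P, 1 ≤ q.1 ∧ 1 ≤ q.2 ∧ (q.1 : ℝ) * q.2 ≤ Real.exp (2 / 3 * l) := by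
    intro q hq
    rw [hP, Finset.mem_image] at hq
    obtain ⟨u, hu, rfl⟩ := hq
    refine ⟨hpos u hu (t + 1), hpos u hu (t + 2), ?_⟩
    show (bs u (t + 1) : ℝ) * bs u (t + 2) ≤ _
    have h1 := hprod u hu
    have hmax := (hF u hu).2.2.2.2.2.2.1
    have m1 : (bs u (t + 1) : ℝ) ≤ bs u t := by exact_mod_cast hmax _
    have m2 : (bs u (t + 2) : ℝ) ≤ bs u t := by exact_mod_cast hmax _
    have p1 : (0 : ℝ) < bs u (t + 1) := by exact_mod_cast hpos u hu _
    have p2 : (0 : ℝ) < bs u (t + 2) := by exact_mod_cast hpos u hu _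
    have p0 : (0 : ℝ) < bs u t := by exact_mod_cast hpos u hu _
    set m : ℝ := ((bs u (t + 1) : ℕ) : ℝ)
    set n : ℝ := ((bs u (t + 2) : ℕ) : ℝ)
    set w : ℝ := ((bs u t : ℕ) : ℝ)
    have h2 : m * n ≤ w * w := mul_le_mul m1 m2 p2.le p0.le
    have h3 : Real.log (m * n) ≤ 2 / 3 * l := by
      have e1 : Real.log (m * n) ≤ Real.log (w * w) := Real.log_le_log (by positivity) h2
      have e2 : Real.log (w * m * n) ≤ l := by
        rw [Real.log_le_iff_le_exp (by positivity)]; exact h1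
      rw [Real.log_mul p0.ne' p0.ne'] at e1
      rw [show w * m * n = w * (m * n) by ring, Real.log_mul p0.ne' (by positivity)] at e2
      linarith
    rwa [Real.log_le_iff_le_exp (by positivity)] at h3
  -- fibres
  have hfib : ∀ q ∈ P, ((F.filter (fun u => (bs u (t + 1), bs u (t + 2)) = q)).card : ℝ) ≤ g q.1 := by
    intro q hq
    obtain ⟨q1, q2, q3⟩ := hPm q hq
    have hq1 : (0 : ℝ) < q.1 := by exact_mod_cast q1
    have hq2 : (0 : ℝ) < q.2 := by exact_mod_cast q2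
    set G := F.filter (fun u => (bs u (t + 1), bs u (t + 2)) = q) with hG
    have hGm : ∀ u ∈ G, u ∈ F ∧ bs u (t + 1) = q.1 ∧ bs u (t + 2) = q.2 := by
      intro u hu
      rw [hG, Finset.mem_filter] at hu
      exact ⟨hu.1, congrArg Prod.fst hu.2, congrArg Prod.snd hu.2⟩
    have hc : (G.image (fun u => bs u t)).card = G.card := by
      refine Finset.card_image_of_injOn ?_
      intro u hu u' hu' h
      obtain ⟨_, a1, a2⟩ := hGm u hu
      obtain ⟨_, b1, b2⟩ := hGm u' hu'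
      exact bs_inj t h (a1.trans b1.symm) (a2.trans b2.symm)
    rw [← hc]
    refine hW q.1 q.2 q1 q2 q3 _ (fun w hw => ?_)
    rw [Finset.mem_image] at hw
    obtain ⟨u, hu, rfl⟩ := hw
    obtain ⟨hu1, a1, a2⟩ := hGm u hu
    obtain ⟨h1, h2, h3, h4, h5, ⟨p, q', r, hp, hq', hr, h6⟩, h7, h8⟩ := hF u hu1
    refine ⟨h8, ?_, ?_⟩
    · rw [le_div_iff₀ (by positivity)]
      have := hprod u hu1
      rw [a1, a2] at this
      linarith
    · obtain ⟨v, ex, hv, hex, hcv⟩ := fc_sol h1 h2 h4 hp hq' hr h6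
      refine ⟨v, ex t, ex (t + 1), ex (t + 2), hv, hex t, hcv t, ?_, ?_⟩
      · rw [hcv, a1]
      · rw [hcv, a2]
  have hmaps : ∀ u ∈ F, (bs u (t + 1), bs u (t + 2)) ∈ P := fun u hu =>
    Finset.mem_image_of_mem _ hu
  rw [Finset.card_eq_sum_card_fiberwise (f := fun u => (bs u (t + 1), bs u (t + 2))) (t := P) hmaps]
  push_cast
  refine (Finset.sum_le_sum hfib).trans ?_
  exact fc_pairs (Real.exp (2 / 3 * l)) (Real.one_le_exp (by linarith)) g hg P hPm

theorem fc_ev (β κ ε y0 D : ℝ) (hβ : 0 < β) (hκ : 0 < κ) (hε : 0 < ε) : ∀ᶠ l : ℝ in atTop,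
    3 ≤ l ∧ 1 ≤ Real.log l ∧ Real.log 576 ≤ κ * (β * Real.log l) ∧ Real.log 2 ≤ κ * Real.log l ∧
    y0 ≤ Real.exp (β * Real.log l) ∧ (4 * β + 4) * Real.log l + D ≤ ε / 2 * l := by
  have t1 := eventually_ge_atTop (3 : ℝ)
  have t2 := mn_log_large 1
  have t3 := mn_log_large (Real.log 576 / (κ * β))
  have t4 := mn_log_large (Real.log 2 / κ)
  have t6 : ∀ᶠ l : ℝ in atTop, y0 ≤ Real.exp (β * Real.log l) := by
    have : Tendsto (fun l : ℝ => Real.exp (β * Real.log l)) atTop atTop :=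
      Real.tendsto_exp_atTop.comp (Real.tendsto_log_atTop.const_mul_atTop hβ)
    exact this.eventually_ge_atTop y0
  have t7 := mn_log_small (4 * β + 4) (ε / 4) (by positivity)
  have t8 := eventually_ge_atTop (D / (ε / 4))
  filter_upwards [t1, t2, t3, t4, t6, t7, t8] with l k1 k2 k3 k4 k6 k7 k8
  refine ⟨k1, k2, ?_, ?_, k6, ?_⟩
  · rw [div_le_iff₀ (by positivity)] at k3; linarith
  · rw [div_le_iff₀ hκ] at k4; linarith
  · rw [div_le_iff₀ (by positivity)] at k8; linarith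

theorem fcb_thm (hR : S_RAD) (hS : S_FSV) (h2 : S_FPW) (h3 : S_SHG) (h4 : S_LAB) : S_FCB := by
  classical
  suffices H : ∀ ε : ℝ, 0 < ε → ε ≤ 1 / 10 → ∃ C : ℝ, 1 ≤ C ∧
      ∀ (X : ℝ) (F : Finset (ℕ × ℕ × ℕ)), 1 ≤ X →
      (∀ u ∈ F, 1 ≤ u.1 ∧ 1 ≤ u.2.1 ∧ 1 ≤ u.2.2 ∧ u.1.Coprime u.2.1 ∧
        ((u.1 * u.2.1 * u.2.2 : ℕ) : ℝ) ≤ X ∧
        ∃ p q r : ℕ, 1 ≤ p ∧ 1 ≤ q ∧ 1 ≤ r ∧ u.1 ^ p + u.2.1 ^ q = u.2.2 ^ r) →
      (F.card : ℝ) ≤ C * X ^ (2 / 3 + ε) by
    intro ε hε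
    obtain ⟨C, hC, h⟩ := H (min ε (1 / 10)) (lt_min hε (by norm_num)) (min_le_right _ _)
    refine ⟨C, hC, fun X F hX hF => (h X F hX hF).trans ?_⟩
    apply mul_le_mul_of_nonneg_left _ (by linarith)
    exact Real.rpow_le_rpow_of_exponent_le hX (by linarith [min_le_left ε (1 / 10)])
  intro ε hε hε1
  obtain ⟨k0', C, hC, hP'⟩ := h2
  set k0 := max k0' 3 with hk0
  have hP : ∀ (k m n : ℕ) (t : Fin 3) (X : ℝ) (W : Finset ℕ),
      k.Prime → Odd k → k0 ≤ k → 1 ≤ m → 1 ≤ n → 1 ≤ X →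
      (∀ w ∈ W, C ≤ Real.log w ∧ (w : ℝ) ≤ X ∧ ∃ (v : ℕ × ℕ) (i j r : ℕ), IsTri v ∧ 1 ≤ i ∧ k ∣ i ∧
        coord v t = w ^ i ∧ coord v (t + 1) = m ^ j ∧ coord v (t + 2) = n ^ r) →
      (W.card : ℝ) ≤ k * (C ^ (om m + 1) * (k : ℝ) ^ omk k m) * (1 + 2 * Real.log X) := by
    intro k m n t X W hk hko hkk
    exact hP' k m n t X W hk hko (le_trans (le_max_left _ _) hkk)
  have hC0 : 0 < C := by linarith
  -- parameters
  set b : ℝ := ε / 8 with hb
  set a : ℝ := ε / 16 with ha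
  set κ : ℝ := ε / 160 with hκ
  set β : ℝ := 20 / ε with hβ
  have na0 : 0 < a := by positivity
  have nab : a < b := by rw [ha, hb]; linarith
  have nb5 : b ≤ 1 / 5 := by rw [hb]; linarith
  have nκ0 : 0 < κ := by positivity
  have nκ1 : 10 * κ ≤ 1 := by rw [hκ]; linarith
  have nβ0 : 0 < β := by positivity
  have nβa : 1 + κ ≤ β * (a - κ) := by
    have : β * (a - κ) = 9 / 8 := by rw [hβ, ha, hκ]; field_simp; ring
    rw [this, hκ]; linarith
  obtain ⟨y0, hy0⟩ := h3 a b κ na0 nab nb5 nκ0 k0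
  obtain ⟨K, hK⟩ : ∃ K : ℕ, C ≤ K := exists_nat_ge C
  have hK1 : 1 ≤ K := by
    have : (1 : ℝ) ≤ K := hC.trans hK
    exact_mod_cast this
  obtain ⟨CL, hCL, hLab⟩ := h4 K (ε / 4) hK1 (by positivity)
  set D : ℝ := 2 + Real.log C + Real.log CL with hD
  have hlC : 0 ≤ Real.log C := Real.log_nonneg hC
  have hlCL : 0 ≤ Real.log CL := Real.log_nonneg hCL
  obtain ⟨l0, hl0⟩ := (fc_ev β κ ε y0 D nβ0 nκ0 hε).exists_forall_of_atTop
  set l1 : ℝ := max l0 C with hl1
  have hl1C : C ≤ l1 := le_max_right _ _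
  set Cs : ℝ := (Real.exp l1) ^ 3 with hCs
  have hCs0 : 0 < Cs := by positivity
  -- counting triples in a box
  have hbox : ∀ F : Finset (ℕ × ℕ × ℕ), (∀ u ∈ F, ∀ s, 1 ≤ bs u s ∧ (bs u s : ℝ) ≤ Real.exp l1) →
      (F.card : ℝ) ≤ Cs := by
    intro F hF
    have h1 : F ⊆ (Icc 1 ⌊Real.exp l1⌋₊) ×ˢ ((Icc 1 ⌊Real.exp l1⌋₊) ×ˢ (Icc 1 ⌊Real.exp l1⌋₊)) := by
      intro u hu
      have h := hF u hu
      rw [Finset.mem_product, Finset.mem_product]
      exact ⟨Finset.mem_Icc.mpr ⟨(h 0).1, Nat.le_floor (h 0).2⟩,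
        Finset.mem_Icc.mpr ⟨(h 1).1, Nat.le_floor (h 1).2⟩,
        Finset.mem_Icc.mpr ⟨(h 2).1, Nat.le_floor (h 2).2⟩⟩
    have h2 := Finset.card_le_card h1
    rw [Finset.card_product, Finset.card_product, Nat.card_Icc, Nat.add_sub_cancel] at h2
    have h3 : (⌊Real.exp l1⌋₊ : ℝ) ≤ Real.exp l1 := Nat.floor_le (Real.exp_pos _).le
    calc (F.card : ℝ) ≤ ((⌊Real.exp l1⌋₊ * (⌊Real.exp l1⌋₊ * ⌊Real.exp l1⌋₊) : ℕ) : ℝ) := by
          exact_mod_cast h2
      _ = (⌊Real.exp l1⌋₊ : ℝ) ^ 3 := by push_cast; ring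
      _ ≤ Cs := pow_le_pow_left₀ (Nat.cast_nonneg _) h3 3
  refine ⟨Cs + 6, by linarith, ?_⟩
  intro X F hX hF
  have hX0 : 0 < X := by linarith
  have hXe1 : 1 ≤ X ^ (2 / 3 + ε) := Real.one_le_rpow hX (by linarith)
  have hpos : ∀ u ∈ F, ∀ s, 1 ≤ bs u s := by
    intro u hu s
    obtain ⟨h1, h2, h3, _⟩ := hF u hu
    fin_cases s
    · exact h1
    · exact h2
    · exact h3
  rcases le_or_gt X (Real.exp l1) with hsmall | hlarge
  · -- small X
    have hb' := hbox F (fun u hu s => by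
      refine ⟨hpos u hu s, ?_⟩
      have h := (hF u hu).2.2.2.2.1
      rw [← bs_rot u s] at h
      refine le_trans ?_ (h.trans hsmall)
      have p1 := hpos u hu (s + 1)
      have p2 := hpos u hu (s + 2)
      have : bs u s ≤ bs u s * bs u (s + 1) * bs u (s + 2) := by
        calc bs u s = bs u s * 1 * 1 := by ring
          _ ≤ _ := Nat.mul_le_mul (Nat.mul_le_mul le_rfl p1) p2
      exact_mod_cast this)
    calc (F.card : ℝ) ≤ Cs := hb'
      _ ≤ (Cs + 6) * 1 := by linarith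
      _ ≤ _ := mul_le_mul_of_nonneg_left hXe1 (by linarith)
  · set l : ℝ := Real.log X with hl
    have hXl : Real.exp l = X := Real.exp_log hX0
    have hll1 : l1 < l := by
      rw [hl, Real.lt_log_iff_exp_lt hX0]; exact hlarge
    obtain ⟨p1, p2, p3, p4, p5, p6⟩ := hl0 l ((le_max_left _ _).trans hll1.le)
    have hlpos : 0 < l := by linarith
    set lg := Real.log l with hlg
    obtain ⟨e, hek, he1, he2, L, hLc, hL⟩ := hy0 (Real.exp (β * lg)) p5
    have hDat : DatG a b κ (Real.exp (β * lg)) e L := ⟨he1, he2, hLc, hL⟩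
    have hbl : 0 < β * lg := by
      have : 0 < lg := by linarith
      positivity
    have haκ : 0 < a - κ := by rw [ha, hκ]; linarith
    have hee : (e : ℝ) ≤ Real.exp (β * lg) := by
      refine he2.trans ?_
      rw [← Real.exp_mul]
      apply Real.exp_le_exp.mpr
      have : β * lg * (1 - a + κ) ≤ β * lg * 1 := mul_le_mul_of_nonneg_left (by linarith) hbl.le
      linarith
    set Sx : ℝ := Real.exp ((2 * b + 5 * κ) * l + 4 * (β * lg) + 1) with hSx
    set g : ℕ → ℝ := fun m => Sx + ∑ k ∈ (Icc 3 e).filter (fun k => k.Prime),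
      k * (C ^ (om m + 1) * (k : ℝ) ^ omk k m) * (1 + 2 * l) with hg
    have hg0 : ∀ m, 0 ≤ g m := fun m => by
      simp only [hg]
      have : 0 ≤ ∑ k ∈ (Icc 3 e).filter (fun k => k.Prime),
        (k : ℝ) * (C ^ (om m + 1) * (k : ℝ) ^ omk k m) * (1 + 2 * l) :=
        Finset.sum_nonneg fun k _ => by positivity
      have h2 : 0 < Sx := Real.exp_pos _
      linarith
    set Y : ℝ := Real.exp (2 / 3 * l) with hY
    have hY1 : 1 ≤ Y := Real.one_le_exp (by linarith)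
    have hlY : Real.log Y = 2 / 3 * l := by rw [hY, Real.log_exp]
    -- the sum
    have hsum : Y * ∑ m ∈ Icc 1 ⌊Y⌋₊, g m / m ≤ 2 * X ^ (2 / 3 + ε) := by
      have e1 : ∑ m ∈ Icc 1 ⌊Y⌋₊, g m / m = Sx * (∑ m ∈ Icc 1 ⌊Y⌋₊, (1 : ℝ) / m) +
          ∑ k ∈ (Icc 3 e).filter (fun k => k.Prime), (k * C * (1 + 2 * l)) *
            ∑ m ∈ Icc 1 ⌊Y⌋₊, C ^ om m * (k : ℝ) ^ omk k m / m := by
        rw [Finset.mul_sum]
        have e2 : ∀ k ∈ (Icc 3 e).filter (fun k => k.Prime), (k * C * (1 + 2 * l)) *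
            ∑ m ∈ Icc 1 ⌊Y⌋₊, C ^ om m * (k : ℝ) ^ omk k m / m =
            ∑ m ∈ Icc 1 ⌊Y⌋₊, k * (C ^ (om m + 1) * (k : ℝ) ^ omk k m) * (1 + 2 * l) / m := by
          intro k _
          rw [Finset.mul_sum]
          refine Finset.sum_congr rfl fun m _ => ?_
          rw [pow_succ]; ring
        rw [Finset.sum_congr rfl e2, Finset.sum_comm, ← Finset.sum_add_distrib]
        refine Finset.sum_congr rfl fun m _ => ?_
        simp only [hg]
        rw [add_div, Finset.sum_div]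
        ring
      have e3 : ∑ m ∈ Icc 1 ⌊Y⌋₊, (1 : ℝ) / m ≤ 1 + l := by
        have := (hR 1 Y le_rfl hY1).2
        simp only [Nat.cast_one, one_pow, pow_one] at this
        rw [hlY] at this
        linarith
      have e4 : ∀ k ∈ (Icc 3 e).filter (fun k => k.Prime),
          ∑ m ∈ Icc 1 ⌊Y⌋₊, C ^ om m * (k : ℝ) ^ omk k m / m ≤ CL * Y ^ (ε / 4) := by
        intro k hk
        rw [Finset.mem_filter, Finset.mem_Icc] at hk
        refine le_trans ?_ (hLab k Y hk.1.1 hY1)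
        refine Finset.sum_le_sum fun m _ => ?_
        gcongr
      have e5 : ∑ k ∈ (Icc 3 e).filter (fun k => k.Prime), ((k : ℝ) * C * (1 + 2 * l)) *
            ∑ m ∈ Icc 1 ⌊Y⌋₊, C ^ om m * (k : ℝ) ^ omk k m / m ≤
          e * (e * C * (1 + 2 * l) * (CL * Y ^ (ε / 4))) := by
        calc _ ≤ ∑ _k ∈ (Icc 3 e).filter (fun k => k.Prime), e * C * (1 + 2 * l) * (CL * Y ^ (ε / 4)) := by
              refine Finset.sum_le_sum fun k hk => ?_
              have hk' := hk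
              rw [Finset.mem_filter, Finset.mem_Icc] at hk'
              have hke : (k : ℝ) ≤ e := by exact_mod_cast hk'.1.2
              apply mul_le_mul _ (e4 k hk) (Finset.sum_nonneg fun m _ => by positivity) (by positivity)
              gcongr
          _ ≤ _ := by
              rw [Finset.sum_const, nsmul_eq_mul]
              apply mul_le_mul_of_nonneg_right _ (by positivity)
              have h1 : ((Icc 3 e).filter (fun k => k.Prime)).card ≤ e := by
                refine (Finset.card_filter_le _ _).trans ?_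
                rw [Nat.card_Icc]; omega
              exact_mod_cast h1
      have hlX : 1 + 2 * l ≤ Real.exp (2 * lg) := by
        have : Real.exp (2 * lg) = l * l := by
          rw [two_mul, Real.exp_add, hlg, Real.exp_log hlpos]
        rw [this]
        nlinarith only [p1]
      have hlX' : 1 + l ≤ Real.exp (2 * lg) := by linarith only [hlX, hlpos]
      have f1 : Y * (Sx * (1 + l)) ≤ X ^ (2 / 3 + ε) := by
        calc Y * (Sx * (1 + l)) ≤ Y * (Sx * Real.exp (2 * lg)) := by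
              gcongr
          _ = Real.exp (2 / 3 * l + (((2 * b + 5 * κ) * l + 4 * (β * lg) + 1) + 2 * lg)) := by
              rw [Real.exp_add (2 / 3 * l), Real.exp_add (_ + 1) (2 * lg)]
          _ ≤ Real.exp ((2 / 3 + ε) * l) := by
              apply Real.exp_le_exp.mpr
              have h1 : (2 * b + 5 * κ) * l = 9 / 32 * ε * l := by rw [hb, hκ]; ring
              have h2 : 0 < ε * l := by positivity
              have h3 : 0 ≤ lg := by linarith only [p2]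
              rw [hD] at p6
              nlinarith only [h1, h2, h3, p6, hlC, hlCL]
          _ = X ^ (2 / 3 + ε) := by
              rw [Real.rpow_def_of_pos hX0, ← hl]; congr 1; ring
      have f2 : Y * (e * (e * C * (1 + 2 * l) * (CL * Y ^ (ε / 4)))) ≤ X ^ (2 / 3 + ε) := by
        have hYe : Y ^ (ε / 4) = Real.exp (ε / 6 * l) := by
          rw [hY, ← Real.exp_mul]; congr 1; ring
        calc Y * (e * (e * C * (1 + 2 * l) * (CL * Y ^ (ε / 4))))
            ≤ Y * (Real.exp (β * lg) * (Real.exp (β * lg) * C * Real.exp (2 * lg) * (CL * Y ^ (ε / 4)))) := by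
              gcongr
          _ = Real.exp (2 / 3 * l + (β * lg + (β * lg + Real.log C + 2 * lg + (Real.log CL + ε / 6 * l)))) := by
              rw [Real.exp_add (2 / 3 * l), Real.exp_add (β * lg) (_ + _), Real.exp_add _ (Real.log CL + _),
                Real.exp_add _ (2 * lg), Real.exp_add (β * lg) (Real.log C), Real.exp_add (Real.log CL),
                Real.exp_log hC0, Real.exp_log (by linarith only [hCL]), hYe]
          _ ≤ Real.exp ((2 / 3 + ε) * l) := by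
              apply Real.exp_le_exp.mpr
              have h2 : 0 < ε * l := by positivity
              have h3 : 0 ≤ lg := by linarith only [p2]
              rw [hD] at p6
              nlinarith only [h2, h3, p6, hlC, hlCL, hbl]
          _ = X ^ (2 / 3 + ε) := by
              rw [Real.rpow_def_of_pos hX0, ← hl]; congr 1; ring
      rw [e1, mul_add]
      have f3 : Y * (Sx * ∑ m ∈ Icc 1 ⌊Y⌋₊, (1 : ℝ) / m) ≤ Y * (Sx * (1 + l)) := by
        have : 0 < Sx := Real.exp_pos _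
        gcongr
      have f4 := mul_le_mul_of_nonneg_left e5 (show 0 ≤ Y by linarith only [hY1])
      linarith only [f1, f2, f3, f4]
    -- parts
    set Ft : Fin 3 → Finset (ℕ × ℕ × ℕ) := fun t => F.filter (fun u => (∀ s, bs u s ≤ bs u t) ∧
      C ≤ Real.log (bs u t)) with hFt
    set Fs := F.filter (fun u => ∀ s, Real.log (bs u s) < C) with hFs
    have hcov : F ⊆ Fs ∪ univ.biUnion Ft := by
      intro u hu
      rw [Finset.mem_union]
      obtain ⟨t, ht⟩ := Finite.exists_max (bs u)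
      by_cases hc : C ≤ Real.log (bs u t)
      · right
        rw [Finset.mem_biUnion]
        exact ⟨t, Finset.mem_univ _, Finset.mem_filter.mpr ⟨hu, ht, hc⟩⟩
      · left
        push Not at hc
        refine Finset.mem_filter.mpr ⟨hu, fun s => lt_of_le_of_lt ?_ hc⟩
        apply Real.log_le_log
        · exact_mod_cast hpos u hu s
        · exact_mod_cast ht s
    have hcard : (F.card : ℝ) ≤ Fs.card + ∑ t : Fin 3, ((Ft t).card : ℝ) := by
      have h1 : F.card ≤ Fs.card + ∑ t : Fin 3, (Ft t).card :=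
        (Finset.card_le_card hcov).trans ((Finset.card_union_le _ _).trans
          (Nat.add_le_add_left Finset.card_biUnion_le _))
      exact_mod_cast h1
    have bs1 : (Fs.card : ℝ) ≤ Cs := by
      refine hbox Fs (fun u hu s => ?_)
      rw [hFs, Finset.mem_filter] at hu
      refine ⟨hpos u hu.1 s, ?_⟩
      have h1 := hu.2 s
      have h2 : (0 : ℝ) < bs u s := by exact_mod_cast hpos u hu.1 s
      rw [← Real.exp_log h2]
      exact Real.exp_le_exp.mpr (by linarith)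
    have bt : ∀ t : Fin 3, ((Ft t).card : ℝ) ≤ 2 * X ^ (2 / 3 + ε) := by
      intro t
      refine le_trans ?_ hsum
      refine fc_Ft hC hlpos.le t (Ft t) (fun u hu => ?_) g hg0 (fun m n hm hn hmn W hW => ?_)
      · rw [hFt, Finset.mem_filter] at hu
        obtain ⟨h1, h2, h3, h4, h5, h6⟩ := hF u hu.1
        exact ⟨h1, h2, h3, h4, by rw [hXl]; exact h5, h6, hu.2.1, hu.2.2⟩
      · exact fc_W hS (le_max_right _ _) hC hP na0 nab nb5 nκ0 nκ1 nβ0 nβa (by linarith) p2 p3 p4 rfl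
          hDat hek t m n hm hn hmn W hW
    calc (F.card : ℝ) ≤ Fs.card + ∑ t : Fin 3, ((Ft t).card : ℝ) := hcard
      _ ≤ Cs + ∑ _t : Fin 3, 2 * X ^ (2 / 3 + ε) := add_le_add bs1 (Finset.sum_le_sum fun t _ => bt t)
      _ = Cs * 1 + 6 * X ^ (2 / 3 + ε) := by
          rw [Finset.sum_const, Finset.card_univ, Fintype.card_fin, nsmul_eq_mul]; push_cast; ring
      _ ≤ Cs * X ^ (2 / 3 + ε) + 6 * X ^ (2 / 3 + ε) := by
          gcongr
      _ = _ := by ring

end Pool.Agent.H98.ABCR
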