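import Pool.Agent.H98.ABCR.FcC

/-! ABCR: solutions of `x^p + y^q = z^r`, counted with their values -/

set_option autoImplicit false

namespace Pool.Agent.H98.ABCR

open Finset Filter Topology

/-- THEOREM: solutions of `x^p + y^q = z^r`, exponents free -/
def S_FCV : Prop := ∀ ε : ℝ, 0 < ε → ∃ C : ℝ, 1 ≤ C ∧
  ∀ (X : ℝ) (F : Finset ((ℕ × ℕ × ℕ) × (ℕ × ℕ))), 1 ≤ X →
  (∀ s ∈ F, 1 ≤ s.1.1 ∧ 1 ≤ s.1.2.1 ∧ 1 ≤ s.1.2.2 ∧ s.1.1.Coprime s.1.2.1 ∧
    ((s.1.1 * s.1.2.1 * s.1.2.2 : ℕ) : ℝ) ≤ X ∧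
    ∃ p q r : ℕ, 1 ≤ p ∧ 1 ≤ q ∧ 1 ≤ r ∧ s.2.1 = s.1.1 ^ p ∧ s.2.2 = s.1.2.1 ^ q ∧
      s.2.1 + s.2.2 = s.1.2.2 ^ r) →
  (F.card : ℝ) ≤ C * X ^ (2 / 3 + ε)

theorem rad_eq_of_primeFactors {a b : ℕ} (h : a.primeFactors = b.primeFactors) : rad a = rad b := by
  unfold rad; rw [h]

theorem fc_RR {x y z u w p q r : ℕ} (hx : 1 ≤ x) (hy : 1 ≤ y) (hz : 1 ≤ z) (hp : 1 ≤ p) (hq : 1 ≤ q)
    (hr : 1 ≤ r) (hu : u = x ^ p) (hw : w = y ^ q) (h : u + w = z ^ r) :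
    RR (u, w) = rad (x * y * z) := by
  unfold RR nn
  apply rad_eq_of_primeFactors
  show (u * w * (u + w)).primeFactors = _
  rw [h, hu, hw]
  have a1 : x ^ p ≠ 0 := by positivity
  have a2 : y ^ q ≠ 0 := by positivity
  have a3 : z ^ r ≠ 0 := by positivity
  rw [Nat.primeFactors_mul (mul_ne_zero a1 a2) a3, Nat.primeFactors_mul a1 a2,
    Nat.primeFactors_mul (by positivity) (by omega), Nat.primeFactors_mul (by omega) (by omega),
    Nat.primeFactors_pow _ (by omega), Nat.primeFactors_pow _ (by omega),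
    Nat.primeFactors_pow _ (by omega)]

theorem fcv_thm (h1 : S_FCB) (h2 : S_TOT) (h3 : S_COB) : S_FCV := by
  classical
  intro ε hε
  obtain ⟨C1, hC1, hB⟩ := h1 (ε / 2) (by positivity)
  obtain ⟨C2, hC2, hT⟩ := h2
  obtain ⟨C3, hC3, hO⟩ := h3 C2 (ε / 2) hC2 (by positivity)
  refine ⟨C1 * (C2 * C3), by
    have : 1 ≤ C2 * C3 := by nlinarith
    nlinarith, ?_⟩
  intro X F hX hF
  have hX0 : 0 < X := by linarith
  have hmaps : ∀ s ∈ F, s.1 ∈ F.image Prod.fst := fun s hs => Finset.mem_image_of_mem _ hs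
  have hbase := hB X (F.image Prod.fst) hX (fun u hu => by
    rw [Finset.mem_image] at hu
    obtain ⟨s, hs, rfl⟩ := hu
    obtain ⟨a1, a2, a3, a4, a5, p, q, r, hp, hq, hr, e1, e2, e3⟩ := hF s hs
    exact ⟨a1, a2, a3, a4, a5, p, q, r, hp, hq, hr, by rw [← e1, ← e2]; exact e3⟩)
  have hfib : ∀ u ∈ F.image Prod.fst, ((F.filter (fun s => s.1 = u)).card : ℝ) ≤
      C2 * C3 * X ^ (ε / 2) := by
    intro u hu
    rw [Finset.mem_image] at hu
    obtain ⟨s0, hs0, rfl⟩ := hu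
    obtain ⟨a1, a2, a3, a4, a5, _⟩ := hF s0 hs0
    set N := s0.1.1 * s0.1.2.1 * s0.1.2.2 with hN
    have hN1 : 1 ≤ N := by
      have : 0 < N := by positivity
      exact this
    have hc : ((F.filter (fun s => s.1 = s0.1)).image Prod.snd).card =
        (F.filter (fun s => s.1 = s0.1)).card := by
      refine Finset.card_image_of_injOn ?_
      intro s hs s' hs' h
      rw [Finset.mem_coe, Finset.mem_filter] at hs hs'
      exact Prod.ext (hs.2.trans hs'.2.symm) h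
    have ht := hT (rad N) ((F.filter (fun s => s.1 = s0.1)).image Prod.snd) (fun v hv => by
      rw [Finset.mem_image] at hv
      obtain ⟨s, hs, rfl⟩ := hv
      rw [Finset.mem_filter] at hs
      obtain ⟨b1, b2, b3, b4, b5, p, q, r, hp, hq, hr, e1, e2, e3⟩ := hF s hs.1
      refine ⟨⟨?_, ?_, ?_⟩, ?_⟩
      · rw [e1]; positivity
      · rw [e2]; positivity
      · rw [e1, e2]; exact b4.pow p q
      · have := fc_RR b1 b2 b3 hp hq hr e1 e2 e3
        rw [hN, ← hs.2]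
        exact this)
    rw [hc] at ht
    refine ht.trans ?_
    rw [pow_succ, om_rad]
    have h5 := hO N hN1
    have h6 : (N : ℝ) ^ (ε / 2) ≤ X ^ (ε / 2) :=
      Real.rpow_le_rpow (Nat.cast_nonneg _) a5 (by positivity)
    calc C2 ^ om N * C2 ≤ (C3 * (N : ℝ) ^ (ε / 2)) * C2 :=
          mul_le_mul_of_nonneg_right h5 (by linarith)
      _ ≤ (C3 * X ^ (ε / 2)) * C2 := by gcongr
      _ = _ := by ring
  rw [Finset.card_eq_sum_card_fiberwise (f := Prod.fst) (t := F.image Prod.fst) hmaps]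
  push_cast
  calc ∑ u ∈ F.image Prod.fst, ((F.filter (fun s => s.1 = u)).card : ℝ)
      ≤ ∑ _u ∈ F.image Prod.fst, C2 * C3 * X ^ (ε / 2) := Finset.sum_le_sum hfib
    _ = (F.image Prod.fst).card * (C2 * C3 * X ^ (ε / 2)) := by
        rw [Finset.sum_const, nsmul_eq_mul]
    _ ≤ (C1 * X ^ (2 / 3 + ε / 2)) * (C2 * C3 * X ^ (ε / 2)) :=
        mul_le_mul_of_nonneg_right hbase (by positivity)
    _ = C1 * (C2 * C3) * (X ^ (2 / 3 + ε / 2) * X ^ (ε / 2)) := by ring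
    _ = C1 * (C2 * C3) * X ^ (2 / 3 + ε) := by
        rw [← Real.rpow_add hX0]; congr 2; ring

end Pool.Agent.H98.ABCR
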