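import Pool.Agent.H98.ABCR.All2
import Pool.Agent.H98.ABCR.FcC
import Pool.Agent.H98.ABCR.FcD
import Pool.Agent.H14.ABCR.TRR
import Pool.Agent.H14.ABCR.FPW
import Pool.Agent.H15.ABCR.UENR
import Pool.Agent.H24.ABCR.LAB
import Pool.Agent.H24.ABCR.FSV
import Pool.Agent.H33.ABCR.COB

/-! ABCR: the sharp count of the solutions of `x ^ p + y ^ q = z ^ r` by the product `x y z` -/

set_option autoImplicit false

namespace Pool.Agent.H98.ABCR

theorem all_UENR : S_UENR := uenr_thm all_GAP all_UPR gco_thm geo_thm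
theorem all_TRR : S_TRR := trr_thm all_UENR
theorem all_FPW : S_FPW := fpw_thm all_TRR
theorem all_FSV : S_FSV := fsv_thm loc_thm crt_thm
theorem all_FCB : S_FCB := fcb_thm rad_thm all_FSV all_FPW shg_thm lab_thm
theorem all_FCV : S_FCV := fcv_thm all_FCB all_TOT cob_thm

end Pool.Agent.H98.ABCR
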