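import Pool.Agent.H98.ABCR.Stmts2

/-!
# ABCR, third series: the equation `x^p + y^q = z^r` with all exponents free
-/

set_option autoImplicit false

namespace Pool.Agent.H98.ABCR

open Finset Polynomial

/-- sieving the base `w` in `± w^i ± m^j ± n^k = 0`, `gcd (i, e) = 1`, all exponents free -/
def S_FSV : Prop := ∀ (e m n : ℕ) (s1 s2 s3 : ℤ) (Y : ℝ) (L W : Finset ℕ), 0 < e →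
  IsUnit s1 → IsUnit s2 → IsUnit s3 →
  (∀ l ∈ L, l.Prime ∧ e ∣ l - 1 ∧ ¬ l ∣ m ∧ ¬ l ∣ n) → (∏ l ∈ L, (l : ℝ)) ≤ Y →
  (∀ w ∈ W, 1 ≤ w ∧ (w : ℝ) ≤ Y ∧ ∃ i j k : ℕ, Nat.gcd i e = 1 ∧
    s1 * (w : ℤ) ^ i + s2 * (m : ℤ) ^ j + s3 * (n : ℤ) ^ k = 0) →
  (W.card : ℝ) ≤ (e : ℝ) ^ 3 * (2 * Y * ∏ l ∈ L, 2 * (((l - 1) / e : ℕ) : ℝ) ^ 2 / l)

/-- the base `w` when its exponent is divisible by `k` -/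
def S_FPW : Prop := ∃ (k0 : ℕ) (C : ℝ), 1 ≤ C ∧ ∀ (k m n : ℕ) (t : Fin 3) (X : ℝ) (W : Finset ℕ),
  k.Prime → Odd k → k0 ≤ k → 1 ≤ m → 1 ≤ n → 1 ≤ X →
  (∀ w ∈ W, C ≤ Real.log w ∧ (w : ℝ) ≤ X ∧ ∃ (v : ℕ × ℕ) (i j r : ℕ), IsTri v ∧ 1 ≤ i ∧ k ∣ i ∧
    coord v t = w ^ i ∧ coord v (t + 1) = m ^ j ∧ coord v (t + 2) = n ^ r) →
  (W.card : ℝ) ≤ k * (C ^ (om m + 1) * (k : ℝ) ^ omk k m) * (1 + 2 * Real.log X)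

/-- `K^ω(n)` is at most `C n^ε` -/
def S_COB : Prop := ∀ K ε : ℝ, 1 ≤ K → 0 < ε → ∃ C : ℝ, 1 ≤ C ∧ ∀ n : ℕ, 1 ≤ n →
  K ^ om n ≤ C * (n : ℝ) ^ ε

/-- THEOREM: bases of solutions of `x^p + y^q = z^r` -/
def S_FCB : Prop := ∀ ε : ℝ, 0 < ε → ∃ C : ℝ, 1 ≤ C ∧ ∀ (X : ℝ) (F : Finset (ℕ × ℕ × ℕ)), 1 ≤ X →
  (∀ u ∈ F, 1 ≤ u.1 ∧ 1 ≤ u.2.1 ∧ 1 ≤ u.2.2 ∧ u.1.Coprime u.2.1 ∧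
    ((u.1 * u.2.1 * u.2.2 : ℕ) : ℝ) ≤ X ∧
    ∃ p q r : ℕ, 1 ≤ p ∧ 1 ≤ q ∧ 1 ≤ r ∧ u.1 ^ p + u.2.1 ^ q = u.2.2 ^ r) →
  (F.card : ℝ) ≤ C * X ^ (2 / 3 + ε)

end Pool.Agent.H98.ABCR
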