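import Pool.Agent.H98.ABCR.Gen4
import Pool.Agent.H98.ABCR.Stmts3

/-! ABCR: bases of solutions of `x^p + y^q = z^r`, part A -/

set_option autoImplicit false

namespace Pool.Agent.H98.ABCR

open Finset Filter Topology

/-- sums over pairs with bounded product -/
theorem fc_pairs (Y : ℝ) (hY : 1 ≤ Y) (f : ℕ → ℝ) (hf : ∀ m, 0 ≤ f m) (P : Finset (ℕ × ℕ))
    (hP : ∀ q ∈ P, 1 ≤ q.1 ∧ 1 ≤ q.2 ∧ (q.1 : ℝ) * q.2 ≤ Y) :
    ∑ q ∈ P, f q.1 ≤ Y * ∑ m ∈ Icc 1 ⌊Y⌋₊, f m / m := by
  classical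
  have hmaps : ∀ q ∈ P, q.1 ∈ Icc 1 ⌊Y⌋₊ := by
    intro q hq
    obtain ⟨h1, h2, h3⟩ := hP q hq
    refine Finset.mem_Icc.mpr ⟨h1, Nat.le_floor ?_⟩
    have h1' : (0 : ℝ) ≤ q.1 := Nat.cast_nonneg _
    have h2' : (1 : ℝ) ≤ q.2 := by exact_mod_cast h2
    nlinarith
  rw [← Finset.sum_fiberwise_of_maps_to hmaps, Finset.mul_sum]
  refine Finset.sum_le_sum fun m hm => ?_
  rw [Finset.mem_Icc] at hm
  have hm0 : (0 : ℝ) < m := by exact_mod_cast hm.1
  have e1 : ∑ q ∈ P.filter (fun q => q.1 = m), f q.1 = ((P.filter (fun q => q.1 = m)).card : ℝ) * f m := by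
    rw [← nsmul_eq_mul, ← Finset.sum_const]
    refine Finset.sum_congr rfl fun q hq => ?_
    rw [(Finset.mem_filter.mp hq).2]
  have e2 : ((P.filter (fun q => q.1 = m)).card : ℝ) ≤ Y / m := by
    have h1 : (P.filter (fun q => q.1 = m)).card ≤ (Icc 1 ⌊Y / m⌋₊).card := by
      refine Finset.card_le_card_of_injOn (fun q => q.2) ?_ ?_
      · intro q hq
        rw [Finset.mem_coe, Finset.mem_filter] at hq
        obtain ⟨h1, h2, h3⟩ := hP q hq.1
        rw [Finset.mem_coe, Finset.mem_Icc]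
        refine ⟨h2, Nat.le_floor ?_⟩
        rw [le_div_iff₀ hm0]
        rw [hq.2] at h3
        linarith
      · intro q hq q' hq' h
        rw [Finset.mem_coe, Finset.mem_filter] at hq hq'
        exact Prod.ext (hq.2.trans hq'.2.symm) h
    rw [Nat.card_Icc, Nat.add_sub_cancel] at h1
    exact le_trans (by exact_mod_cast h1) (Nat.floor_le (by positivity))
  rw [e1]
  calc _ ≤ Y / m * f m := mul_le_mul_of_nonneg_right e2 (hf m)
    _ = _ := by ring

theorem fc_om {m : ℕ} (hm : 1 ≤ m) : (om m : ℝ) * Real.log 2 ≤ Real.log m := by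
  have h1 : 2 ^ om m ≤ m := by
    calc 2 ^ om m = ∏ _p ∈ m.primeFactors, 2 := by rw [Finset.prod_const]; rfl
      _ ≤ ∏ p ∈ m.primeFactors, p :=
        Finset.prod_le_prod' fun p hp => (Nat.prime_of_mem_primeFactors hp).two_le
      _ ≤ m := Nat.le_of_dvd hm (Nat.prod_primeFactors_dvd m)
  rw [← Real.log_pow]
  exact Real.log_le_log (by positivity) (by exact_mod_cast h1)

/-- the sieve case for one pair of bases -/
theorem fc_S (hS : S_FSV) {a b κ β l : ℝ} (na0 : 0 < a) (nab : a < b) (nb5 : b ≤ 1 / 5) (nκ0 : 0 < κ)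
    (nκ1 : 10 * κ ≤ 1) (nβ0 : 0 < β) (nβa : 1 + κ ≤ β * (a - κ)) (l1 : 2 ≤ l) (g1 : 1 ≤ Real.log l)
    (g2 : Real.log 576 ≤ κ * (β * Real.log l)) (g3 : Real.log 2 ≤ κ * Real.log l) {y : ℝ}
    (hy : y = Real.exp (β * Real.log l)) {e : ℕ} {L : Finset ℕ} (hD : DatG a b κ y e L)
    (m n : ℕ) (hm : 1 ≤ m) (hn : 1 ≤ n) (hmn : (m : ℝ) * n ≤ Real.exp (2 / 3 * l))
    (s1 s2 s3 : ℤ) (hs1 : IsUnit s1) (hs2 : IsUnit s2) (hs3 : IsUnit s3) (W : Finset ℕ)
    (hW : ∀ w ∈ W, 1 ≤ w ∧ (w : ℝ) ≤ Real.exp l / (m * n) ∧ ∃ i j k : ℕ, Nat.gcd i e = 1 ∧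
      s1 * (w : ℤ) ^ i + s2 * (m : ℤ) ^ j + s3 * (n : ℤ) ^ k = 0) :
    (W.card : ℝ) ≤ Real.exp ((2 * b + 5 * κ) * l + 4 * (β * Real.log l) + 1) := by
  classical
  obtain ⟨he, he2, hLc, hL⟩ := hD
  have hl0 : 0 < l := by linarith
  set lg := Real.log l with hlg
  have hy0 : 0 < y := by rw [hy]; exact Real.exp_pos _
  have hlogy : Real.log y = β * lg := by rw [hy, Real.log_exp]
  have he0 : (0 : ℝ) < e := lt_of_lt_of_le (Real.rpow_pos_of_pos hy0 _) he
  have heN : 0 < e := by exact_mod_cast he0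
  have hm0 : (0 : ℝ) < m := by exact_mod_cast hm
  have hn0 : (0 : ℝ) < n := by exact_mod_cast hn
  have hlg0 : 0 < lg := by linarith
  have hβlg : 0 < β * lg := by positivity
  have hlog8 : Real.log 8 ≤ Real.log 576 := Real.log_le_log (by norm_num) (by norm_num)
  have hlog2 : Real.log 2 ≤ Real.log 576 := Real.log_le_log (by norm_num) (by norm_num)
  have haκ : 0 < a - κ := by
    by_contra hcon
    push Not at hcon
    have := mul_nonneg nβ0.le (sub_nonneg.mpr hcon)
    linarith only [this, nβa, nκ0]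
  have hβ5 : 1 ≤ β := by
    have h1 : β * (a - κ) ≤ β * 1 := mul_le_mul_of_nonneg_left (by linarith) nβ0.le
    linarith only [h1, nβa, nκ0]
  have hc1 : 1 ≤ β * lg := by
    calc (1 : ℝ) = 1 * 1 := by ring
      _ ≤ β * lg := mul_le_mul hβ5 g1 zero_le_one nβ0.le
  have hey : (e : ℝ) ≤ Real.exp (β * lg) := by
    refine he2.trans ?_
    rw [hy, ← Real.exp_mul]
    apply Real.exp_le_exp.mpr
    have : β * lg * (1 - a + κ) ≤ β * lg * 1 := mul_le_mul_of_nonneg_left (by linarith) hβlg.le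
    linarith
  set c : ℝ := β * lg with hc
  set γ : ℝ := 1 - 2 * b - 4 * κ with hγ
  have hγ0 : 0 ≤ γ := by rw [hγ]; linarith
  have hγ1 : γ ≤ 1 := by rw [hγ]; linarith
  set N : ℝ := Real.exp l / (m * n) with hN
  have hN0 : 0 < N := by positivity
  have hlogmn0 : 0 ≤ Real.log ((m : ℝ) * n) := by
    apply Real.log_nonneg
    have h1 : (1 : ℝ) ≤ m := by exact_mod_cast hm
    have h2 : (1 : ℝ) ≤ n := by exact_mod_cast hn
    nlinarith
  have hlogmn : Real.log ((m : ℝ) * n) ≤ 2 / 3 * l := by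
    rw [Real.log_le_iff_le_exp (by positivity)]; exact hmn
  have hlogN : Real.log N = l - Real.log ((m : ℝ) * n) := by
    rw [hN, Real.log_div (Real.exp_pos _).ne' (by positivity), Real.log_exp]
  have hlN1 : Real.log N ≤ l := by linarith
  have hlN2 : l / 3 ≤ Real.log N := by linarith
  have hlN0 : 0 < Real.log N := by linarith
  obtain ⟨M, hm1, hm2, hm3⟩ := gn_m (c := c) (l := Real.log N) (θ := 1) (κ := κ) (γ := γ) hlN0 hβlg
    one_pos le_rfl (hlog8.trans g2) hc1 hγ0 hγ1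
  -- the primes of L not dividing m n
  have hcard : M ≤ (L.filter (fun q => ¬ q ∣ m ∧ ¬ q ∣ n)).card := by
    have h1 : (L.filter (fun q => q ∣ m)).card ≤ om m := by
      unfold om
      refine Finset.card_le_card fun q hq => ?_
      rw [Finset.mem_filter] at hq
      exact Nat.mem_primeFactors.mpr ⟨(hL q hq.1).1, hq.2, by omega⟩
    have h2 : (L.filter (fun q => q ∣ n)).card ≤ om n := by
      unfold om
      refine Finset.card_le_card fun q hq => ?_
      rw [Finset.mem_filter] at hq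
      exact Nat.mem_primeFactors.mpr ⟨(hL q hq.1).1, hq.2, by omega⟩
    have h3 : L ⊆ L.filter (fun q => q ∣ m) ∪ L.filter (fun q => q ∣ n) ∪
        L.filter (fun q => ¬ q ∣ m ∧ ¬ q ∣ n) := by
      intro q hq
      simp only [Finset.mem_union, Finset.mem_filter]
      tauto
    have h4 : L.card ≤ om m + om n + (L.filter (fun q => ¬ q ∣ m ∧ ¬ q ∣ n)).card := by
      have g1' := Finset.card_le_card h3
      have g2' := Finset.card_union_le (L.filter (fun q => q ∣ m) ∪ L.filter (fun q => q ∣ n))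
        (L.filter (fun q => ¬ q ∣ m ∧ ¬ q ∣ n))
      have g3' := Finset.card_union_le (L.filter (fun q => q ∣ m)) (L.filter (fun q => q ∣ n))
      omega
    have h5 : (om m : ℝ) + om n ≤ l := by
      have h6 := fc_om hm
      have h7 := fc_om hn
      rw [Real.log_mul hm0.ne' hn0.ne'] at hlogmn
      have h8 : (0.69 : ℝ) ≤ Real.log 2 := by linarith [Real.log_two_gt_d9]
      have h9 : ((om m : ℝ) + om n) * 0.69 ≤ ((om m : ℝ) + om n) * Real.log 2 :=
        mul_le_mul_of_nonneg_left h8 (by positivity)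
      nlinarith only [h6, h7, h9, hlogmn, hl0]
    have h6 : 2 * l ≤ (L.card : ℝ) := by
      refine le_trans ?_ hLc
      have : y ^ (a - κ) = Real.exp (β * (a - κ) * lg) := by
        rw [hy, ← Real.exp_mul]; congr 1; rw [hc]; ring
      rw [this]
      have h5 : (2 : ℝ) * l = Real.exp (Real.log 2 + lg) := by
        rw [Real.exp_add, Real.exp_log (by norm_num), hlg, Real.exp_log hl0]
      rw [h5]
      apply Real.exp_le_exp.mpr
      have h6 : (1 + κ) * lg ≤ β * (a - κ) * lg := mul_le_mul_of_nonneg_right nβa hlg0.le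
      linarith only [h6, g3]
    have h7 : (L.card : ℝ) ≤ om m + om n + ((L.filter (fun q => ¬ q ∣ m ∧ ¬ q ∣ n)).card : ℝ) := by
      exact_mod_cast h4
    have h8 : (M : ℝ) ≤ ((L.filter (fun q => ¬ q ∣ m ∧ ¬ q ∣ n)).card : ℝ) := by
      linarith only [h5, h6, h7, hm1, hlN1]
    exact_mod_cast h8
  obtain ⟨Lu, hLu, hLuc⟩ := Finset.exists_subset_card_eq hcard
  have hLu' : ∀ q ∈ Lu, (q.Prime ∧ e ∣ q - 1 ∧ y ≤ 9 * (q : ℝ) ∧ (q : ℝ) ≤ 8 * y) ∧ ¬ q ∣ m ∧
      ¬ q ∣ n := by
    intro q hq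
    have := Finset.mem_filter.mp (hLu hq)
    exact ⟨hL q this.1, this.2⟩
  have h8y : Real.log (8 * y) = Real.log 8 + c := by
    rw [Real.log_mul (by norm_num) hy0.ne', hlogy]
  have hprod : ∏ q ∈ Lu, (q : ℝ) ≤ N := by
    calc ∏ q ∈ Lu, (q : ℝ) ≤ ∏ _q ∈ Lu, (8 * y) :=
          Finset.prod_le_prod (fun q _ => by positivity) (fun q hq => (hLu' q hq).1.2.2.2)
      _ = (8 * y) ^ M := by rw [Finset.prod_const, hLuc]
      _ = Real.exp (M * (Real.log 8 + c)) := by
          rw [← h8y, Real.exp_nat_mul, Real.exp_log (by positivity)]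
      _ ≤ Real.exp (Real.log N) := by
          apply Real.exp_le_exp.mpr
          linarith only [hm2]
      _ = N := Real.exp_log hN0
  have hmain := hS e m n s1 s2 s3 N Lu W heN hs1 hs2 hs3
    (fun q hq => ⟨(hLu' q hq).1.1, (hLu' q hq).1.2.1, (hLu' q hq).2.1, (hLu' q hq).2.2⟩) hprod hW
  have hG : ∏ q ∈ Lu, 2 * (((q - 1) / e : ℕ) : ℝ) ^ 2 / q ≤
      Real.exp (-((γ - κ) * Real.log N) + c) := by
    calc ∏ q ∈ Lu, 2 * (((q - 1) / e : ℕ) : ℝ) ^ 2 / q
        ≤ ∏ _q ∈ Lu, Real.exp (-(γ * c)) := by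
          refine Finset.prod_le_prod (fun q _ => by positivity) (fun q hq => ?_)
          have h1 := gn_loc (L := c) (β := c) (hy.trans rfl) rfl g2 he (hLu' q hq).1.1
              (hLu' q hq).1.2.1 (hLu' q hq).1.2.2.1 (hLu' q hq).1.2.2.2
          calc 2 * (((q - 1) / e : ℕ) : ℝ) ^ 2 / q = 2 * ((((q - 1) / e : ℕ) : ℝ) ^ 2 * 1 / q) := by ring
            _ ≤ 2 * Real.exp (-(c * (1 - 2 * b - 3 * κ))) :=
              mul_le_mul_of_nonneg_left h1 (by norm_num)
            _ = Real.exp (Real.log 2 + -(c * (1 - 2 * b - 3 * κ))) := by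
              rw [Real.exp_add, Real.exp_log (by norm_num)]
            _ ≤ _ := by
              apply Real.exp_le_exp.mpr
              have : γ * c = c * (1 - 2 * b - 3 * κ) - κ * c := by rw [hγ]; ring
              linarith only [this, hlog2, g2]
      _ = Real.exp (M * (-(γ * c))) := by
          rw [Finset.prod_const, hLuc, Real.exp_nat_mul]
      _ ≤ _ := by
          apply Real.exp_le_exp.mpr
          have e1 : γ * c ≤ c := by
            calc γ * c ≤ 1 * c := mul_le_mul_of_nonneg_right hγ1 hβlg.le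
              _ = c := one_mul _
          have e2 : (M : ℝ) * (-(γ * c)) = -(M * (γ * c)) := by ring
          rw [e2]
          have e3 : 1 * (γ - κ) * Real.log N = (γ - κ) * Real.log N := by ring
          linarith only [e1, e3, hm3]
  calc (W.card : ℝ) ≤ _ := hmain
    _ ≤ Real.exp c ^ 3 * (2 * N * Real.exp (-((γ - κ) * Real.log N) + c)) := by
        apply mul_le_mul (pow_le_pow_left₀ he0.le hey 3) _ (by positivity) (by positivity)
        exact mul_le_mul_of_nonneg_left hG (by positivity)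
    _ = Real.exp ((3 : ℕ) * c + (Real.log 2 + (Real.log N + (-((γ - κ) * Real.log N) + c)))) := by
        rw [Real.exp_add ((3 : ℕ) * c), Real.exp_add (Real.log 2), Real.exp_add (Real.log N),
          Real.exp_log (by norm_num), Real.exp_log hN0, Real.exp_nat_mul]
        ring
    _ ≤ _ := by
        apply Real.exp_le_exp.mpr
        push_cast
        have hl2 : Real.log 2 ≤ 2 - 1 := Real.log_le_sub_one_of_pos (by norm_num)
        have h1 : Real.log N - (γ - κ) * Real.log N = (2 * b + 5 * κ) * Real.log N := by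
          rw [hγ]; ring
        have h2 : (2 * b + 5 * κ) * Real.log N ≤ (2 * b + 5 * κ) * l :=
          mul_le_mul_of_nonneg_left hlN1 (by linarith)
        linarith only [h1, h2, hl2]

end Pool.Agent.H98.ABCR
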