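import Pool.Agent.H98.ABCR.FcA

/-! ABCR: bases of solutions of `x^p + y^q = z^r`, part B -/

set_option autoImplicit false

namespace Pool.Agent.H98.ABCR

open Finset Filter Topology

/-- the three bases -/
def bs (u : ℕ × ℕ × ℕ) : Fin 3 → ℕ := ![u.1, u.2.1, u.2.2]

theorem bs_rot (u : ℕ × ℕ × ℕ) (t : Fin 3) :
    bs u t * bs u (t + 1) * bs u (t + 2) = u.1 * u.2.1 * u.2.2 := by
  have e1 : (1 : Fin 3) + 1 = 2 := rfl
  have e2 : (2 : Fin 3) + 1 = 0 := rfl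
  have e3 : (1 : Fin 3) + 2 = 0 := rfl
  have e4 : (2 : Fin 3) + 2 = 1 := rfl
  fin_cases t
  · simp [bs]
  · simp [bs, e1, e3]; ring
  · simp [bs, e2, e4]; ring

theorem fin3_cover (t s : Fin 3) : s = t ∨ s = t + 1 ∨ s = t + 2 := by
  revert t s; decide

theorem bs_inj {u u' : ℕ × ℕ × ℕ} (t : Fin 3) (h0 : bs u t = bs u' t)
    (h1 : bs u (t + 1) = bs u' (t + 1)) (h2 : bs u (t + 2) = bs u' (t + 2)) : u = u' := by
  have h : ∀ s, bs u s = bs u' s := by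
    intro s
    rcases fin3_cover t s with rfl | rfl | rfl
    · exact h0
    · exact h1
    · exact h2
  have a := h 0
  have b := h 1
  have c := h 2
  simp only [bs, Matrix.cons_val_zero, Matrix.cons_val_one, Matrix.cons_val_two, Matrix.head_cons,
    Matrix.tail_cons] at a b c
  exact Prod.ext a (Prod.ext b c)

/-- signs -/
def sgz (s : Fin 3) : ℤ := if s = 2 then -1 else 1

theorem sgz_unit (s : Fin 3) : IsUnit (sgz s) := by
  unfold sgz; split_ifs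
  · exact isUnit_one.neg
  · exact isUnit_one

theorem sgz_rel (v : ℕ × ℕ) (t : Fin 3) :
    sgz t * (coord v t : ℤ) + sgz (t + 1) * (coord v (t + 1) : ℤ) +
      sgz (t + 2) * (coord v (t + 2) : ℤ) = 0 := by
  have e1 : (1 : Fin 3) + 1 = 2 := rfl
  have e2 : (2 : Fin 3) + 1 = 0 := rfl
  have e3 : (1 : Fin 3) + 2 = 0 := rfl
  have e4 : (2 : Fin 3) + 2 = 1 := rfl
  fin_cases t
  · simp [sgz, coord]
  · simp [sgz, coord, e1, e3]
  · simp [sgz, coord, e2, e4]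

/-- a solution in terms of `bs` -/
theorem fc_sol {u : ℕ × ℕ × ℕ} (h1 : 1 ≤ u.1) (h2 : 1 ≤ u.2.1) (hc : u.1.Coprime u.2.1)
    {p q r : ℕ} (hp : 1 ≤ p) (hq : 1 ≤ q) (hr : 1 ≤ r) (h : u.1 ^ p + u.2.1 ^ q = u.2.2 ^ r) :
    ∃ (v : ℕ × ℕ) (ex : Fin 3 → ℕ), IsTri v ∧ (∀ s, 1 ≤ ex s) ∧ ∀ s, coord v s = bs u s ^ ex s := by
  refine ⟨(u.1 ^ p, u.2.1 ^ q), ![p, q, r], ⟨by positivity, by positivity, hc.pow p q⟩, ?_, ?_⟩
  · intro s; fin_cases s
    · exact hp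
    · exact hq
    · exact hr
  · intro s; fin_cases s
    · simp [coord, bs]
    · simp [coord, bs]
    · simpa [coord, bs] using h

/-- the largest base for one pair of the other bases -/
theorem fc_W (hS : S_FSV) {k0 : ℕ} (hk0 : 3 ≤ k0) {C : ℝ} (hC : 1 ≤ C)
    (hP : ∀ (k m n : ℕ) (t : Fin 3) (X : ℝ) (W : Finset ℕ),
      k.Prime → Odd k → k0 ≤ k → 1 ≤ m → 1 ≤ n → 1 ≤ X →
      (∀ w ∈ W, C ≤ Real.log w ∧ (w : ℝ) ≤ X ∧ ∃ (v : ℕ × ℕ) (i j r : ℕ), IsTri v ∧ 1 ≤ i ∧ k ∣ i ∧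
        coord v t = w ^ i ∧ coord v (t + 1) = m ^ j ∧ coord v (t + 2) = n ^ r) →
      (W.card : ℝ) ≤ k * (C ^ (om m + 1) * (k : ℝ) ^ omk k m) * (1 + 2 * Real.log X))
    {a b κ β l : ℝ} (na0 : 0 < a) (nab : a < b) (nb5 : b ≤ 1 / 5) (nκ0 : 0 < κ)
    (nκ1 : 10 * κ ≤ 1) (nβ0 : 0 < β) (nβa : 1 + κ ≤ β * (a - κ)) (l1 : 2 ≤ l) (g1 : 1 ≤ Real.log l)
    (g2 : Real.log 576 ≤ κ * (β * Real.log l)) (g3 : Real.log 2 ≤ κ * Real.log l) {y : ℝ}
    (hy : y = Real.exp (β * Real.log l)) {e : ℕ} {L : Finset ℕ} (hD : DatG a b κ y e L)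
    (hek : ∀ q : ℕ, q.Prime → q ∣ e → k0 ≤ q)
    (t : Fin 3) (m n : ℕ) (hm : 1 ≤ m) (hn : 1 ≤ n) (hmn : (m : ℝ) * n ≤ Real.exp (2 / 3 * l))
    (W : Finset ℕ)
    (hW : ∀ w ∈ W, C ≤ Real.log w ∧ (w : ℝ) ≤ Real.exp l / (m * n) ∧
      ∃ (v : ℕ × ℕ) (i j r : ℕ), IsTri v ∧ 1 ≤ i ∧
        coord v t = w ^ i ∧ coord v (t + 1) = m ^ j ∧ coord v (t + 2) = n ^ r) :
    (W.card : ℝ) ≤ Real.exp ((2 * b + 5 * κ) * l + 4 * (β * Real.log l) + 1) +
      ∑ k ∈ (Icc 3 e).filter (fun k => k.Prime), k * (C ^ (om m + 1) * (k : ℝ) ^ omk k m) * (1 + 2 * l) := by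
  classical
  have hm0 : (0 : ℝ) < m := by exact_mod_cast hm
  have hn0 : (0 : ℝ) < n := by exact_mod_cast hn
  have hm1 : (1 : ℝ) ≤ m := by exact_mod_cast hm
  have hn1 : (1 : ℝ) ≤ n := by exact_mod_cast hn
  have hy0 : 0 < y := by rw [hy]; exact Real.exp_pos _
  have he0 : (0 : ℝ) < e := lt_of_lt_of_le (Real.rpow_pos_of_pos hy0 _) hD.e1
  have heN : 0 < e := by exact_mod_cast he0
  set K : Finset ℕ := (Icc 3 e).filter (fun k => k.Prime) with hK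
  set W1 : Finset ℕ := W.filter (fun w : ℕ => ∃ i j k : ℕ, Nat.gcd i e = 1 ∧
      sgz t * (w : ℤ) ^ i + sgz (t + 1) * (m : ℤ) ^ j + sgz (t + 2) * (n : ℤ) ^ k = 0) with hW1
  set Wk : ℕ → Finset ℕ := fun k => W.filter (fun w : ℕ => ∃ (v : ℕ × ℕ) (i j r : ℕ), IsTri v ∧ 1 ≤ i ∧ k ∣ i ∧
        coord v t = w ^ i ∧ coord v (t + 1) = m ^ j ∧ coord v (t + 2) = n ^ r) with hWk
  have hcov : W ⊆ W1 ∪ (K.filter (fun k => k0 ≤ k)).biUnion Wk := by
    intro w hw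
    obtain ⟨h1, h2, v, i, j, r, h3, h4, h5, h6, h7⟩ := hW w hw
    rw [Finset.mem_union]
    by_cases hg : Nat.gcd i e = 1
    · left
      rw [hW1, Finset.mem_filter]
      refine ⟨hw, i, j, r, hg, ?_⟩
      have := sgz_rel v t
      rw [h5, h6, h7] at this
      push_cast at this
      exact this
    · right
      obtain ⟨k, hkp, hkd⟩ := Nat.exists_prime_and_dvd hg
      have hke : k ∣ e := hkd.trans (Nat.gcd_dvd_right _ _)
      have hki : k ∣ i := hkd.trans (Nat.gcd_dvd_left _ _)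
      have hk0' := hek k hkp hke
      rw [Finset.mem_biUnion]
      refine ⟨k, ?_, ?_⟩
      · rw [Finset.mem_filter, hK, Finset.mem_filter, Finset.mem_Icc]
        exact ⟨⟨⟨by omega, Nat.le_of_dvd heN hke⟩, hkp⟩, hk0'⟩
      · rw [hWk, Finset.mem_filter]
        exact ⟨hw, v, i, j, r, h3, h4, hki, h5, h6, h7⟩
  have hcard : W.card ≤ W1.card + ∑ k ∈ K.filter (fun k => k0 ≤ k), (Wk k).card :=
    (Finset.card_le_card hcov).trans ((Finset.card_union_le _ _).trans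
      (Nat.add_le_add_left Finset.card_biUnion_le _))
  have hw1 : ∀ w ∈ W, 1 ≤ w := by
    intro w hw
    rcases Nat.eq_zero_or_pos w with h | h
    · have := (hW w hw).1
      rw [h] at this
      simp at this
      linarith
    · exact h
  have b1 : (W1.card : ℝ) ≤ Real.exp ((2 * b + 5 * κ) * l + 4 * (β * Real.log l) + 1) := by
    refine fc_S hS na0 nab nb5 nκ0 nκ1 nβ0 nβa l1 g1 g2 g3 hy hD m n hm hn hmn (sgz t) (sgz (t + 1))
      (sgz (t + 2)) (sgz_unit _) (sgz_unit _) (sgz_unit _) W1 (fun w hw => ?_)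
    rw [hW1, Finset.mem_filter] at hw
    exact ⟨hw1 w hw.1, (hW w hw.1).2.1, hw.2⟩
  have b2 : ∀ k ∈ K.filter (fun k => k0 ≤ k), ((Wk k).card : ℝ) ≤
      k * (C ^ (om m + 1) * (k : ℝ) ^ omk k m) * (1 + 2 * l) := by
    intro k hk
    rw [Finset.mem_filter, hK, Finset.mem_filter, Finset.mem_Icc] at hk
    have := hP k m n t (Real.exp l) (Wk k) hk.1.2 (hk.1.2.odd_of_ne_two (by omega)) hk.2 hm hn
      (Real.one_le_exp (by linarith)) (fun w hw => by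
        rw [hWk, Finset.mem_filter] at hw
        refine ⟨(hW w hw.1).1, (hW w hw.1).2.1.trans ?_, hw.2⟩
        rw [div_le_iff₀ (by positivity)]
        have : 1 ≤ (m : ℝ) * n := by nlinarith
        nlinarith [Real.exp_pos l])
    rwa [Real.log_exp] at this
  calc (W.card : ℝ) ≤ W1.card + ∑ k ∈ K.filter (fun k => k0 ≤ k), ((Wk k).card : ℝ) := by
        exact_mod_cast hcard
    _ ≤ Real.exp ((2 * b + 5 * κ) * l + 4 * (β * Real.log l) + 1) +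
        ∑ k ∈ K.filter (fun k => k0 ≤ k), k * (C ^ (om m + 1) * (k : ℝ) ^ omk k m) * (1 + 2 * l) :=
        add_le_add b1 (Finset.sum_le_sum b2)
    _ ≤ _ := by
        gcongr
        exact Finset.filter_subset _ _

end Pool.Agent.H98.ABCR
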