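import Pool.Agent.H98.ABCR.All3

/-! The sharp count of the solutions of `x ^ p + y ^ q = z ^ r` (any exponents) by the product of
the bases, in explicit form. Kept here, not handed in. -/

set_option autoImplicit false

namespace Pool.Agent.H98.ABCR

private theorem fin_of_bound {α : Type*} (T : Set α) (B : ℝ)
    (key : ∀ F : Finset α, (F : Set α) ⊆ T → (F.card : ℝ) ≤ B) :
    T.Finite ∧ ((T.ncard : ℕ) : ℝ) ≤ B := by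
  classical
  have hfin : T.Finite := by
    by_contra hinf
    obtain ⟨F, hF, hFc⟩ := Set.Infinite.exists_subset_card_eq hinf (⌊B⌋₊ + 1)
    have h1 := key F hF
    rw [hFc] at h1
    have h2 := Nat.lt_floor_add_one B
    push_cast at h1
    linarith
  refine ⟨hfin, ?_⟩
  have h1 := key hfin.toFinset (by rw [Set.Finite.coe_toFinset])
  rwa [← Set.ncard_eq_toFinset_card T hfin] at h1

/-- The number of solutions of `x ^ p + y ^ q = z ^ r` with coprime bases (and any exponents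
`p, q, r ≥ 1`) with `x y z ≤ X` is `O (X ^ (2 / 3 + ε))`. -/
theorem fermat_catalan_count :
    (∀ ε : ℝ, 0 < ε → ∃ C : ℝ, ∀ X : ℝ, 1 ≤ X →
      {s : (ℕ × ℕ × ℕ) × (ℕ × ℕ) | 0 < s.1.1 ∧ 0 < s.1.2.1 ∧ 0 < s.1.2.2 ∧
        Nat.Coprime s.1.1 s.1.2.1 ∧ ((s.1.1 * s.1.2.1 * s.1.2.2 : ℕ) : ℝ) ≤ X ∧
        ∃ p q r : ℕ, 0 < p ∧ 0 < q ∧ 0 < r ∧ s.2.1 = s.1.1 ^ p ∧ s.2.2 = s.1.2.1 ^ q ∧
          s.2.1 + s.2.2 = s.1.2.2 ^ r}.Finite ∧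
      (({s : (ℕ × ℕ × ℕ) × (ℕ × ℕ) | 0 < s.1.1 ∧ 0 < s.1.2.1 ∧ 0 < s.1.2.2 ∧
        Nat.Coprime s.1.1 s.1.2.1 ∧ ((s.1.1 * s.1.2.1 * s.1.2.2 : ℕ) : ℝ) ≤ X ∧
        ∃ p q r : ℕ, 0 < p ∧ 0 < q ∧ 0 < r ∧ s.2.1 = s.1.1 ^ p ∧ s.2.2 = s.1.2.1 ^ q ∧
          s.2.1 + s.2.2 = s.1.2.2 ^ r}.ncard : ℕ) : ℝ) ≤ C * X ^ (2 / 3 + ε)) := by
  classical
  intro ε hε
  obtain ⟨C, hC, h⟩ := all_FCV ε hε
  refine ⟨C, fun X hX => fin_of_bound _ _ (fun F hF => ?_)⟩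
  refine h X F hX (fun s hs => ?_)
  have := hF (Finset.mem_coe.mpr hs)
  rw [Set.mem_setOf_eq] at this
  exact this

end Pool.Agent.H98.ABCR
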