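import Pool.Agent.H98.ABCR.Stmts

/-!
# ABCR, second series: sharper exponents and the equation `x^p + y^q = z^r`
-/

set_option autoImplicit false

namespace Pool.Agent.H98.ABCR

open Finset Polynomial

/-- general form of `S_SHI`: divisors `s` of `l - 1` in `(y^a, y^b]` -/
def S_SHG : Prop := ∀ a b κ : ℝ, 0 < a → a < b → b ≤ 1 / 5 → 0 < κ → ∀ k0 : ℕ,
  ∃ y0 : ℝ, ∀ y : ℝ, y0 ≤ y → ∃ e : ℕ,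
  (∀ q : ℕ, q.Prime → q ∣ e → k0 ≤ q) ∧ y ^ (1 - b - κ) ≤ e ∧ (e : ℝ) ≤ y ^ (1 - a + κ) ∧
  ∃ L : Finset ℕ, y ^ (a - κ) ≤ (L.card : ℝ) ∧
    ∀ l ∈ L, l.Prime ∧ e ∣ l - 1 ∧ y ≤ 9 * (l : ℝ) ∧ (l : ℝ) ≤ 8 * y

/-- sharper form of `S_CSP`: the special coordinate is the one with fewer primes -/
def S_CS2 : Prop := ∃ (k0 : ℕ) (C : ℝ), 1 ≤ C ∧ ∀ (k u : ℕ) (F : Finset (ℕ × ℕ)), k.Prime → Odd k →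
  k0 ≤ k → Squarefree u →
  (∀ v ∈ F, IsTri v ∧ C * k ≤ Real.log ((v.1 : ℝ) + v.2) ∧
    ∃ p : ℕ, p.Prime ∧ RR v = u * p ∧ k ∣ (nn v).factorization p) →
  (F.card : ℝ) ≤ (C * k) ^ (3 / 2 * (om u : ℝ) + 3)

/-- sharper form of `S_UENG`: labels only cost something at the primes `q ≡ 1 mod k` -/
def S_UENR : Prop := ∀ δ : ℝ, 0 < δ → δ ≤ 1 → ∃ (k0 : ℕ) (C : ℝ), 1 ≤ C ∧
  ∀ (k : ℕ) (S : Finset ℕ) (α β : ℤ) (F : Finset (ℤ × ℤ)), k.Prime → Odd k → k0 ≤ k →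
  (∀ q ∈ S, q.Prime) → 0 < α → 0 < β →
  (∀ v ∈ F, IsSol v.1 v.2 ∧ (∃ U : ℤ, v.1 = α * U ^ k) ∧ (∃ V : ℤ, v.2 = β * V ^ k) ∧
    Heavy δ S v.1 v.2 ∧ C * k ≤ lh v.1 v.2) →
  (F.card : ℝ) ≤ C ^ (S.card + 1) * (k : ℝ) ^ (S.filter (fun q => q % k = 1)).card

/-- the same for triples, special coordinate `t` (compare `S_TRU`) -/
def S_TRR : Prop := ∃ (k0 : ℕ) (C : ℝ), 1 ≤ C ∧
  ∀ (k : ℕ) (S : Finset ℕ) (F : Finset (ℕ × ℕ)) (t : Fin 3) (α : Fin 3 → ℕ), k.Prime → Odd k →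
  k0 ≤ k → (∀ q ∈ S, q.Prime) → (∀ s, 0 < α s) →
  (∀ v ∈ F, IsTri v ∧ (coord v t).primeFactors ⊆ S ∧
    (∀ s, s ≠ t → ∃ U : ℕ, coord v s = α s * U ^ k) ∧ C * k ≤ Real.log ((v.1 : ℝ) + v.2)) →
  (F.card : ℝ) ≤ C ^ (S.card + 1) * (k : ℝ) ^ (S.filter (fun q => q % k = 1)).card

/-- number of prime factors `q ≡ 1 mod k` -/
def omk (k n : ℕ) : ℕ := (n.primeFactors.filter (fun q => q % k = 1)).card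

/-- average of the cost of the labels; uniform in `k` -/
def S_LAB : Prop := ∀ (K : ℕ) (ε : ℝ), 1 ≤ K → 0 < ε → ∃ C : ℝ, 1 ≤ C ∧ ∀ (k : ℕ) (Y : ℝ), 3 ≤ k →
  1 ≤ Y → ∑ n ∈ Icc 1 ⌊Y⌋₊, (K : ℝ) ^ om n * (k : ℝ) ^ omk k n / n ≤ C * Y ^ ε

end Pool.Agent.H98.ABCR
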