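import Pool.Agent.H98.ABCR.MainC
import Pool.Agent.H98.ABCR.Stmts2

/-! ABCR: general form of the assembly, one large prime `p > Z^θ`, parameters -/

set_option autoImplicit false

namespace Pool.Agent.H98.ABCR

open Finset Filter Topology

/-- the inequalities between parameters; `l = log Z` -/
structure ParG (a b κ θ η β C y0 A B l : ℝ) : Prop where
  l1 : 2 ≤ l
  g1 : 1 ≤ Real.log l
  g2 : Real.log 576 ≤ κ * (β * Real.log l)
  g3 : Real.log 2 ≤ κ * Real.log l
  g4 : η ≤ Real.log l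
  g5 : y0 ≤ Real.exp (β * Real.log l)
  g6 : Real.log 8 + β * Real.log l < θ * l
  g7 : C ≤ θ * l
  g8 : A * (Real.log l + 1) + B * (l / Real.log l) + 4 * Real.log l * Real.exp ((1 - κ) * Real.log l)
    ≤ κ * l

theorem gn_ev (a b κ θ η β C y0 A B : ℝ) (hκ : 0 < κ) (hθ : 0 < θ) (hβ : 0 < β) :
    ∀ᶠ l : ℝ in atTop, ParG a b κ θ η β C y0 A B l := by
  have t1 := eventually_ge_atTop (2 : ℝ)
  have t2 := mn_log_large 1
  have t3 := mn_log_large (Real.log 576 / (κ * β))
  have t4 := mn_log_large (Real.log 2 / κ)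
  have t5 := mn_log_large η
  have t6 : ∀ᶠ l : ℝ in atTop, y0 ≤ Real.exp (β * Real.log l) := by
    have : Tendsto (fun l : ℝ => Real.exp (β * Real.log l)) atTop atTop :=
      Real.tendsto_exp_atTop.comp (Real.tendsto_log_atTop.const_mul_atTop hβ)
    exact this.eventually_ge_atTop y0
  have t7 := mn_log_small β (θ / 2) (by positivity)
  have t8 := eventually_gt_atTop (Real.log 8 * (2 / θ))
  have t9 := eventually_ge_atTop (C / θ)
  -- smallness
  have s1 := mn_log_small A (κ / 8) (by positivity)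
  have s2 := eventually_ge_atTop (8 * A / κ)
  have s3 := mn_log_large (4 * |B| / κ)
  have s4 : ∀ᶠ l : ℝ in atTop, 4 * Real.log l * Real.exp ((1 - κ) * Real.log l) ≤ κ / 2 * l := by
    have h1 := (isLittleO_log_rpow_atTop (r := κ) hκ).def (c := κ / 8) (by positivity)
    filter_upwards [h1, eventually_ge_atTop (1 : ℝ)] with l hl hl1
    have hl0 : 0 < l := by linarith
    rw [Real.norm_eq_abs, Real.norm_eq_abs, abs_of_nonneg (Real.log_nonneg hl1),
      abs_of_nonneg (Real.rpow_nonneg hl0.le _)] at hl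
    have e1 : Real.exp ((1 - κ) * Real.log l) = l ^ (1 - κ) := by
      rw [Real.rpow_def_of_pos hl0]; ring_nf
    have e2 : l ^ κ * l ^ (1 - κ) = l := by
      rw [← Real.rpow_add hl0]; simp
    rw [e1]
    calc 4 * Real.log l * l ^ (1 - κ) ≤ 4 * (κ / 8 * l ^ κ) * l ^ (1 - κ) := by
          apply mul_le_mul_of_nonneg_right _ (Real.rpow_nonneg hl0.le _)
          linarith
      _ = κ / 2 * (l ^ κ * l ^ (1 - κ)) := by ring
      _ = κ / 2 * l := by rw [e2]
  filter_upwards [t1, t2, t3, t4, t5, t6, t7, t8, t9, s1, s2, s3, s4] with l k1 k2 k3 k4 k5 k6 k7 k8 k9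
    u1 u2 u3 u4
  have hl0 : 0 < l := by linarith
  refine ⟨k1, k2, ?_, ?_, k5, k6, ?_, ?_, ?_⟩
  · rw [div_le_iff₀ (by positivity)] at k3; linarith
  · rw [div_le_iff₀ hκ] at k4; linarith
  · have : Real.log 8 < θ / 2 * l := by
      have h1 : Real.log 8 * (2 / θ) * (θ / 2) < l * (θ / 2) :=
        mul_lt_mul_of_pos_right k8 (by positivity)
      have h2 : Real.log 8 * (2 / θ) * (θ / 2) = Real.log 8 := by field_simp
      linarith
    linarith
  · rw [div_le_iff₀ hθ] at k9; linarith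
  · have h1 : A ≤ κ / 8 * l := by
      rw [div_le_iff₀ hκ] at u2; linarith
    have h2 : B * (l / Real.log l) ≤ κ / 4 * l := by
      rw [mul_div_assoc', div_le_iff₀ (by linarith)]
      rw [div_le_iff₀ hκ] at u3
      have : B ≤ |B| := le_abs_self B
      nlinarith
    linarith

/-- rarity of integers with many prime factors, combined with codes -/
theorem gn_rare (hR : S_RAD) {K w Y : ℝ} {T : ℕ} (hT : 1 ≤ T) (hTK : (T : ℝ) ≤ K) (hY : 1 ≤ Y)
    (U : Finset ℕ) (hU : ∀ u ∈ U, 1 ≤ u ∧ (u : ℝ) ≤ Y ∧ (om u : ℝ) ≤ w) :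
    ∑ u ∈ U, K ^ om u / u ≤ (K / T) ^ w * (1 + Real.log Y) ^ T := by
  have hT0 : (0 : ℝ) < T := by exact_mod_cast hT
  have hK0 : 0 < K := by linarith
  have hKT : 1 ≤ K / T := by rw [le_div_iff₀ hT0]; linarith
  calc ∑ u ∈ U, K ^ om u / u ≤ ∑ u ∈ U, (K / T) ^ w * ((T : ℝ) ^ om u / u) := by
        refine Finset.sum_le_sum fun u hu => ?_
        obtain ⟨h1, h2, h3⟩ := hU u hu
        have e : K ^ om u = (K / T) ^ om u * (T : ℝ) ^ om u := by
          rw [← mul_pow]; congr 1; field_simp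
        have h4 : (K / T) ^ om u ≤ (K / T) ^ w := by
          rw [← Real.rpow_natCast]
          exact Real.rpow_le_rpow_of_exponent_le hKT h3
        rw [e, ← mul_div_assoc]
        apply div_le_div_of_nonneg_right _ (Nat.cast_nonneg u)
        exact mul_le_mul_of_nonneg_right h4 (by positivity)
    _ = (K / T) ^ w * ∑ u ∈ U, (T : ℝ) ^ om u / u := by rw [Finset.mul_sum]
    _ ≤ (K / T) ^ w * ∑ u ∈ Icc 1 ⌊Y⌋₊, (T : ℝ) ^ om u / u := by
        apply mul_le_mul_of_nonneg_left _ (Real.rpow_nonneg (by linarith) _)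
        refine Finset.sum_le_sum_of_subset_of_nonneg ?_ (fun i _ _ => by positivity)
        intro u hu
        obtain ⟨h1, h2, h3⟩ := hU u hu
        exact Finset.mem_Icc.mpr ⟨h1, Nat.le_floor h2⟩
    _ ≤ _ := mul_le_mul_of_nonneg_left (hR T Y hT hY).2 (Real.rpow_nonneg (by linarith) _)

/-- the local factor -/
theorem gn_loc {y L β b κ : ℝ} (hy : y = Real.exp L) (hL : L = β) (h576 : Real.log 576 ≤ κ * β)
    {e q : ℕ} (he : y ^ (1 - b - κ) ≤ e) (hq : q.Prime)
    (hd : e ∣ q - 1) (hq9 : y ≤ 9 * (q : ℝ)) (hq8 : (q : ℝ) ≤ 8 * y) :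
    (((q - 1) / e : ℕ) : ℝ) ^ 2 * 1 / q ≤ Real.exp (-(β * (1 - 2 * b - 3 * κ))) := by
  subst hL
  have hy0 : 0 < y := by rw [hy]; exact Real.exp_pos _
  have hlogy : Real.log y = L := by rw [hy, Real.log_exp]
  have he0 : (0 : ℝ) < e := lt_of_lt_of_le (Real.rpow_pos_of_pos hy0 _) he
  have heN : 0 < e := by exact_mod_cast he0
  obtain ⟨s, hs⟩ := hd
  have hq2 := hq.two_le
  have hse : (q - 1) / e = s := by rw [hs]; exact Nat.mul_div_cancel_left _ heN
  rw [hse, mul_one]
  have hs0 : 0 < s := by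
    rcases Nat.eq_zero_or_pos s with h | h
    · rw [h] at hs; omega
    · exact h
  have hs0' : (0 : ℝ) < s := by exact_mod_cast hs0
  have hes : (e : ℝ) * s ≤ q := by
    have : e * s ≤ q := by omega
    exact_mod_cast this
  have hq0 : (0 : ℝ) < q := by exact_mod_cast hq.pos
  have hle : (1 - b - κ) * L ≤ Real.log e := by
    have := Real.log_le_log (Real.rpow_pos_of_pos hy0 _) he
    rwa [Real.log_rpow hy0, hlogy] at this
  have hlq : Real.log q ≤ Real.log 8 + L := by
    have := Real.log_le_log hq0 hq8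
    rwa [Real.log_mul (by norm_num) hy0.ne', hlogy] at this
  have hlq9 : L ≤ Real.log 9 + Real.log q := by
    have := Real.log_le_log hy0 hq9
    rwa [Real.log_mul (by norm_num) hq0.ne', hlogy] at this
  have hls : Real.log e + Real.log s ≤ Real.log q := by
    have := Real.log_le_log (by positivity) hes
    rwa [Real.log_mul he0.ne' hs0'.ne'] at this
  have h576' : Real.log 576 = 2 * Real.log 8 + Real.log 9 := by
    rw [show (576 : ℝ) = 8 * 8 * 9 by norm_num, Real.log_mul (by norm_num) (by norm_num),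
      Real.log_mul (by norm_num) (by norm_num)]
    ring
  have hpos : 0 < (s : ℝ) ^ 2 / q := by positivity
  rw [← Real.log_le_iff_le_exp hpos, Real.log_div (by positivity) hq0.ne', Real.log_pow]
  push_cast
  nlinarith [hle, hls, hlq, hlq9, h576, h576']

/-- number of primes sieved -/
theorem gn_m {c l θ κ γ : ℝ} (hl : 0 < l) (hc : 0 < c) (hθ : 0 < θ) (hθ1 : θ ≤ 1)
    (h8 : Real.log 8 ≤ κ * c) (hc1 : 1 ≤ c) (hγ : 0 ≤ γ) (hγ1 : γ ≤ 1) :
    ∃ m : ℕ, (m : ℝ) ≤ l ∧ (m : ℝ) * (Real.log 8 + c) ≤ θ * l ∧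
      θ * (γ - κ) * l - γ * c ≤ m * (γ * c) := by
  have h80 : 0 < Real.log 8 := Real.log_pos (by norm_num)
  set D : ℝ := Real.log 8 + c with hD
  have hD1 : 1 ≤ D := by rw [hD]; linarith
  have hD0 : 0 < D := by linarith
  refine ⟨⌊θ * l / D⌋₊, ?_, ?_, ?_⟩
  · refine (Nat.floor_le (by positivity)).trans ?_
    rw [div_le_iff₀ (by positivity)]
    nlinarith
  · calc (⌊θ * l / D⌋₊ : ℝ) * D ≤ θ * l / D * D :=
        mul_le_mul_of_nonneg_right (Nat.floor_le (by positivity)) hD0.le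
      _ = θ * l := by field_simp
  · have h1 : θ * l / D - 1 ≤ (⌊θ * l / D⌋₊ : ℝ) := by
      have := Nat.lt_floor_add_one (θ * l / D)
      linarith
    have h2 : (θ * l / D - 1) * (γ * c) ≤ (⌊θ * l / D⌋₊ : ℝ) * (γ * c) :=
      mul_le_mul_of_nonneg_right h1 (by positivity)
    refine le_trans ?_ h2
    have hκ0 : 0 < κ := by
      by_contra hcon
      push Not at hcon
      nlinarith
    have h3 : θ * (γ - κ) * l ≤ θ * l / D * (γ * c) := by
      rw [show θ * l / D * (γ * c) = (θ * l * (γ * c)) / D by ring, le_div_iff₀ hD0]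
      have h4 : (γ - κ) * D ≤ γ * c := by
        rw [hD]
        nlinarith [mul_nonneg hκ0.le hc.le, mul_nonneg hκ0.le h80.le]
      have : 0 ≤ θ * l := by positivity
      nlinarith [mul_le_mul_of_nonneg_left h4 this]
    nlinarith

end Pool.Agent.H98.ABCR
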