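import Pool.Agent.H98.ABCR.Gen

/-! ABCR: general form of the assembly, the two cases -/

set_option autoImplicit false

namespace Pool.Agent.H98.ABCR

open Finset Filter Topology

/-- numerical hypotheses on the parameters -/
structure NumG (a b κ θ η β : ℝ) : Prop where
  a0 : 0 < a
  ab : a < b
  b5 : b ≤ 1 / 5
  κ0 : 0 < κ
  κ1 : 10 * κ ≤ 1
  θ0 : 0 < θ
  θ1 : θ < 1
  η0 : 0 ≤ η
  β0 : 0 < β
  βa : 1 + κ ≤ β * (a - κ)

/-- the data given by `S_SHG` -/
structure DatG (a b κ : ℝ) (y : ℝ) (e : ℕ) (L : Finset ℕ) : Prop where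
  e1 : y ^ (1 - b - κ) ≤ e
  e2 : (e : ℝ) ≤ y ^ (1 - a + κ)
  L1 : y ^ (a - κ) ≤ (L.card : ℝ)
  L2 : ∀ l ∈ L, l.Prime ∧ e ∣ l - 1 ∧ y ≤ 9 * (l : ℝ) ∧ (l : ℝ) ≤ 8 * y

/-- bound for the number of primes `p` for a fixed `u` -/
theorem gn_P (hS : S_SIV) {a b κ θ η β C y0 A B l : ℝ} (hN : NumG a b κ θ η β)
    (hpar : ParG a b κ θ η β C y0 A B l) {y : ℝ} (hy : y = Real.exp (β * Real.log l)) {e : ℕ}
    {L : Finset ℕ} (hD : DatG a b κ y e L)
    (u : ℕ) (P : Finset ℕ) (hu : 0 < u) (huZ : (u : ℝ) ≤ Real.exp ((1 - θ) * l))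
    (hus : Squarefree u) (hom : (om u : ℝ) + 1 ≤ η * l / Real.log l)
    (hP : ∀ p ∈ P, p.Prime ∧ (p : ℝ) ≤ Real.exp l / u ∧ Real.exp (θ * l) < (p : ℝ) ∧
        ¬ p ∣ u ∧ ∃ v : ℕ × ℕ, IsTri v ∧ RR v = u * p ∧ Nat.gcd ((nn v).factorization p) e = 1) :
    (P.card : ℝ) ≤ (3 * e : ℝ) ^ (om u + 1) * (2 * (Real.exp l / u) *
      Real.exp (-(θ * (1 - 2 * b - 4 * κ) * l) + β * Real.log l)) := by
  obtain ⟨na0, nab, nb5, nκ0, nκ1, nθ0, nθ1, nη0, nβ0, nβa⟩ := hN
  obtain ⟨l1, g1, g2, g3, g4, g5, g6, g7, g8⟩ := hpar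
  obtain ⟨he, he2, hLc, hL⟩ := hD
  have hl0 : 0 < l := by linarith
  set lg := Real.log l with hlg
  have hy0 : 0 < y := by rw [hy]; exact Real.exp_pos _
  have hlogy : Real.log y = β * lg := by rw [hy, Real.log_exp]
  have he0 : (0 : ℝ) < e := lt_of_lt_of_le (Real.rpow_pos_of_pos hy0 _) he
  have heN : 0 < e := by exact_mod_cast he0
  have hu0 : (0 : ℝ) < u := by exact_mod_cast hu
  have hlg0 : 0 < lg := by linarith
  have hβlg : 0 < β * lg := by positivity
  have hlog8 : Real.log 8 ≤ Real.log 576 := Real.log_le_log (by norm_num) (by norm_num)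
  have haκ : 0 < a - κ := by
    by_contra hcon
    push Not at hcon
    have := mul_nonneg nβ0.le (sub_nonneg.mpr hcon)
    linarith only [this, nβa, nκ0]
  have hβ5 : 1 ≤ β := by
    have h1 : β * (a - κ) ≤ β * 1 := mul_le_mul_of_nonneg_left (by linarith) nβ0.le
    linarith only [h1, nβa, nκ0]
  have hc1 : 1 ≤ β * lg := by
    calc (1 : ℝ) = 1 * 1 := by ring
      _ ≤ β * lg := mul_le_mul hβ5 g1 zero_le_one nβ0.le
  set γ : ℝ := 1 - 2 * b - 3 * κ with hγ
  have hγ0 : 0 ≤ γ := by rw [hγ]; linarith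
  have hγ1 : γ ≤ 1 := by rw [hγ]; linarith
  obtain ⟨m, hm1, hm2, hm3⟩ := gn_m (c := β * lg) (l := l) (θ := θ) (κ := κ) (γ := γ) hl0 hβlg
    nθ0 nθ1.le (hlog8.trans g2) hc1 hγ0 hγ1
  -- the primes of L not dividing u
  have hcard : m ≤ (L.filter (fun q => ¬ q ∣ u)).card := by
    have h1 : (L.filter (fun q => q ∣ u)).card ≤ om u := by
      unfold om
      refine Finset.card_le_card fun q hq => ?_
      rw [Finset.mem_filter] at hq
      exact Nat.mem_primeFactors.mpr ⟨(hL q hq.1).1, hq.2, hu.ne'⟩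
    have h2 := Finset.card_filter_add_card_filter_not (s := L) (fun q => q ∣ u)
    have h3 : (om u : ℝ) ≤ l := by
      have : η * l / lg ≤ l := by
        rw [div_le_iff₀ hlg0, mul_comm]
        exact mul_le_mul_of_nonneg_left g4 hl0.le
      linarith only [this, hom]
    have h4 : 2 * l ≤ (L.card : ℝ) := by
      refine le_trans ?_ hLc
      have : y ^ (a - κ) = Real.exp (β * (a - κ) * lg) := by
        rw [hy, ← Real.exp_mul]; congr 1; ring
      rw [this]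
      have h5 : (2 : ℝ) * l = Real.exp (Real.log 2 + lg) := by
        rw [Real.exp_add, Real.exp_log (by norm_num), hlg, Real.exp_log hl0]
      rw [h5]
      apply Real.exp_le_exp.mpr
      have h6 : (1 + κ) * lg ≤ β * (a - κ) * lg := mul_le_mul_of_nonneg_right nβa hlg0.le
      linarith only [h6, g3]
    have h6 : (m : ℝ) ≤ ((L.filter (fun q => ¬ q ∣ u)).card : ℝ) := by
      have h7 : ((L.filter (fun q => q ∣ u)).card : ℝ) + ((L.filter (fun q => ¬ q ∣ u)).card : ℝ) = L.card := by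
        exact_mod_cast h2
      have h8' : ((L.filter (fun q => q ∣ u)).card : ℝ) ≤ om u := by exact_mod_cast h1
      linarith only [h7, h8', h3, h4, hm1]
    exact_mod_cast h6
  obtain ⟨Lu, hLu, hLuc⟩ := Finset.exists_subset_card_eq hcard
  have hLu' : ∀ q ∈ Lu, (q.Prime ∧ e ∣ q - 1 ∧ y ≤ 9 * (q : ℝ) ∧ (q : ℝ) ≤ 8 * y) ∧ ¬ q ∣ u := by
    intro q hq
    have := Finset.mem_filter.mp (hLu hq)
    exact ⟨hL q this.1, this.2⟩
  have h8y : Real.log (8 * y) = Real.log 8 + β * lg := by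
    rw [Real.log_mul (by norm_num) hy0.ne', hlogy]
  have hprod : ∏ q ∈ Lu, (q : ℝ) ≤ Real.exp l / u := by
    calc ∏ q ∈ Lu, (q : ℝ) ≤ ∏ _q ∈ Lu, (8 * y) :=
          Finset.prod_le_prod (fun q _ => by positivity) (fun q hq => (hLu' q hq).1.2.2.2)
      _ = (8 * y) ^ m := by rw [Finset.prod_const, hLuc]
      _ = Real.exp (m * (Real.log 8 + β * lg)) := by
          rw [← h8y, Real.exp_nat_mul, Real.exp_log (by positivity)]
      _ ≤ Real.exp (θ * l) := Real.exp_le_exp.mpr hm2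
      _ ≤ Real.exp l / u := by
          rw [le_div_iff₀ hu0]
          calc Real.exp (θ * l) * u ≤ Real.exp (θ * l) * Real.exp ((1 - θ) * l) :=
                mul_le_mul_of_nonneg_left huZ (Real.exp_pos _).le
            _ = Real.exp l := by rw [← Real.exp_add]; congr 1; ring
  have hmain := hS e u 1 (Real.exp l / u) Lu P heN hu hus le_rfl
    (fun q hq => ⟨(hLu' q hq).1.1, (hLu' q hq).1.2.1, (hLu' q hq).2⟩) hprod
    (fun p hp => by
      obtain ⟨h1, h2, h3, h4, v, h5, h6, h7⟩ := hP p hp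
      refine ⟨h1, h2, ?_, h4, v, h5, h6, ?_⟩
      · intro hpL
        have h6 : (p : ℝ) ≤ 8 * y := (hLu' p hpL).1.2.2.2
        have h7 : 8 * y < Real.exp (θ * l) := by
          rw [← Real.exp_log (show 0 < 8 * y by positivity), h8y]
          exact Real.exp_lt_exp.mpr g6
        linarith
      · rw [h7]; simp)
  -- bound for the product
  have hG : ∏ q ∈ Lu, (((q - 1) / e : ℕ) : ℝ) ^ 2 * 1 / q ≤
      Real.exp (-(θ * (1 - 2 * b - 4 * κ) * l) + β * lg) := by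
    calc ∏ q ∈ Lu, (((q - 1) / e : ℕ) : ℝ) ^ 2 * 1 / q
        ≤ ∏ _q ∈ Lu, Real.exp (-(β * lg * (1 - 2 * b - 3 * κ))) :=
          Finset.prod_le_prod (fun q _ => by positivity)
            (fun q hq => gn_loc (L := β * lg) (β := β * lg) hy rfl g2 he (hLu' q hq).1.1
              (hLu' q hq).1.2.1 (hLu' q hq).1.2.2.1 (hLu' q hq).1.2.2.2)
      _ = Real.exp (m * (-(β * lg * (1 - 2 * b - 3 * κ)))) := by
          rw [Finset.prod_const, hLuc, Real.exp_nat_mul]
      _ ≤ _ := by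
          apply Real.exp_le_exp.mpr
          have e1 : θ * (γ - κ) * l = θ * (1 - 2 * b - 4 * κ) * l := by rw [hγ]; ring
          have e2 : (m : ℝ) * (-(β * lg * (1 - 2 * b - 3 * κ))) = -(m * (γ * (β * lg))) := by
            rw [hγ]; ring
          rw [e2]
          have e3 : γ * (β * lg) ≤ β * lg := by
            calc γ * (β * lg) ≤ 1 * (β * lg) := mul_le_mul_of_nonneg_right hγ1 hβlg.le
              _ = β * lg := one_mul _
          linarith only [e1, e3, hm3]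
  refine hmain.trans ?_
  apply mul_le_mul_of_nonneg_left _ (by positivity)
  exact mul_le_mul_of_nonneg_left hG (by positivity)

/-- the union bound over `u` -/
theorem gn_U (Z θ w : ℝ) (hZ : 1 < Z) (Q : ℕ × ℕ → ℕ → Prop) (F : Finset (ℕ × ℕ))
    (hF : ∀ v ∈ F, IsTri v ∧ (RR v : ℝ) ≤ Z ∧ (om (RR v) : ℝ) ≤ w ∧
      ∃ p ∈ (RR v).primeFactors, Z ^ θ < (p : ℝ) ∧ Q v p) (C : ℝ) (hC : 1 ≤ C)
    (hT : ∀ (R : ℕ) (F : Finset (ℕ × ℕ)),
      (∀ v ∈ F, IsTri v ∧ RR v = R) → (F.card : ℝ) ≤ C ^ (om R + 1)) (B : ℕ → ℝ)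
    (hP : ∀ (u : ℕ) (P : Finset ℕ), 0 < u → (u : ℝ) ≤ Z ^ (1 - θ) → Squarefree u →
      (om u : ℝ) + 1 ≤ w → (∀ p ∈ P, p.Prime ∧ (p : ℝ) ≤ Z / u ∧ Z ^ θ < (p : ℝ) ∧
        ¬ p ∣ u ∧ ∃ v : ℕ × ℕ, IsTri v ∧ RR v = u * p ∧ Q v p) → (P.card : ℝ) ≤ B u) :
    (F.card : ℝ) ≤ ∑ u ∈ (Icc 1 ⌊Z ^ (1 - θ)⌋₊).filter
      (fun u => Squarefree u ∧ (om u : ℝ) + 1 ≤ w), C ^ (om u + 2) * B u := by
  classical
  set U : Finset ℕ := (Icc 1 ⌊Z ^ (1 - θ)⌋₊).filter
    (fun u => Squarefree u ∧ (om u : ℝ) + 1 ≤ w) with hU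
  set P : ℕ → Finset ℕ := fun u => (Icc 1 ⌊Z / u⌋₊).filter (fun p => p.Prime ∧
    Z ^ θ < (p : ℝ) ∧ ¬ p ∣ u ∧ ∃ v : ℕ × ℕ, IsTri v ∧ RR v = u * p ∧ Q v p) with hPd
  set G : ℕ → Finset (ℕ × ℕ) := fun u => F.filter (fun v => ∃ p : ℕ, p ∈ P u ∧ RR v = u * p) with hGd
  have hZ0 : 0 < Z := by linarith
  have hcov : F ⊆ U.biUnion G := by
    intro v hv
    obtain ⟨h1, h2, h3, p, hp, hpZ, hg⟩ := hF v hv
    obtain ⟨s1, s2, s3, s4, s5⟩ := mn_split hp
    have hpp := Nat.prime_of_mem_primeFactors hp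
    have hp0 : (0 : ℝ) < p := by exact_mod_cast hpp.pos
    have hu0 : (0 : ℝ) < ((RR v / p : ℕ) : ℝ) := by exact_mod_cast s5
    have hprod : (((RR v / p : ℕ)) : ℝ) * p ≤ Z := by
      have : (((RR v / p * p : ℕ)) : ℝ) ≤ Z := by rw [← s1]; exact h2
      push_cast at this
      exact_mod_cast this
    rw [Finset.mem_biUnion]
    refine ⟨RR v / p, ?_, ?_⟩
    · rw [hU, Finset.mem_filter, Finset.mem_Icc]
      refine ⟨⟨s5, ?_⟩, s2, ?_⟩
      · apply Nat.le_floor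
        have : Z = Z ^ (1 - θ) * Z ^ θ := by
          rw [← Real.rpow_add hZ0]; norm_num
        by_contra hcon
        push Not at hcon
        have : Z < ((RR v / p : ℕ) : ℝ) * p := by
          calc Z = Z ^ (1 - θ) * Z ^ θ := this
            _ < ((RR v / p : ℕ) : ℝ) * p :=
              mul_lt_mul'' hcon hpZ (Real.rpow_nonneg hZ0.le _) (Real.rpow_nonneg hZ0.le _)
        linarith
      · have : (((om (RR v / p) + 1 : ℕ)) : ℝ) ≤ w := by rw [s3]; exact h3
        exact_mod_cast this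
    · rw [hGd, Finset.mem_filter]
      refine ⟨hv, p, ?_, s1⟩
      rw [hPd, Finset.mem_filter, Finset.mem_Icc]
      refine ⟨⟨hpp.one_lt.le, ?_⟩, hpp, hpZ, s4, v, h1, s1, hg⟩
      apply Nat.le_floor
      rw [le_div_iff₀ hu0]
      linarith
  have hterm : ∀ u ∈ U, ((G u).card : ℝ) ≤ C ^ (om u + 2) * B u := by
    intro u hu
    have hu' := hu
    rw [hU, Finset.mem_filter, Finset.mem_Icc] at hu'
    have hsum := mn_count hC hT (G u) ((P u).image (fun p => u * p)) (fun v hv => by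
      rw [hGd, Finset.mem_filter] at hv
      obtain ⟨p, hp, hR⟩ := hv.2
      exact ⟨(hF v hv.1).1, Finset.mem_image.mpr ⟨p, hp, hR.symm⟩⟩)
    have hom : ∀ R ∈ (P u).image (fun p => u * p), C ^ (om R + 1) = C ^ (om u + 2) := by
      intro R hR
      rw [Finset.mem_image] at hR
      obtain ⟨p, hp, rfl⟩ := hR
      rw [hPd, Finset.mem_filter] at hp
      have hu0 : u ≠ 0 := by omega
      have : om (u * p) = om u + 1 := by
        unfold om
        rw [Nat.primeFactors_mul hu0 hp.2.1.ne_zero, hp.2.1.primeFactors, Finset.union_comm]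
        have : ({p} : Finset ℕ) ∪ u.primeFactors = insert p u.primeFactors := rfl
        rw [this, Finset.card_insert_of_notMem]
        intro h
        exact hp.2.2.2.1 (Nat.dvd_of_mem_primeFactors h)
      rw [this]
    rw [Finset.sum_congr rfl hom, Finset.sum_const, nsmul_eq_mul] at hsum
    have hPB : ((P u).card : ℝ) ≤ B u := by
      refine hP u (P u) (by omega) ?_ hu'.2.1 hu'.2.2 ?_
      · exact (Nat.floor_le (Real.rpow_nonneg hZ0.le _)).trans' (by exact_mod_cast hu'.1.2)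
      · intro p hp
        rw [hPd, Finset.mem_filter, Finset.mem_Icc] at hp
        refine ⟨hp.2.1, ?_, hp.2.2.1, hp.2.2.2.1, hp.2.2.2.2⟩
        exact (Nat.floor_le (by positivity)).trans' (by exact_mod_cast hp.1.2)
    have hic : (((P u).image (fun p => u * p)).card : ℝ) ≤ ((P u).card : ℝ) := by
      exact_mod_cast Finset.card_image_le
    calc ((G u).card : ℝ) ≤ _ := hsum
      _ ≤ B u * C ^ (om u + 2) :=
          mul_le_mul_of_nonneg_right (hic.trans hPB) (by positivity)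
      _ = _ := by ring
  have h1 : F.card ≤ ∑ u ∈ U, (G u).card := (Finset.card_le_card hcov).trans Finset.card_biUnion_le
  calc (F.card : ℝ) ≤ ∑ u ∈ U, ((G u).card : ℝ) := by exact_mod_cast h1
    _ ≤ _ := Finset.sum_le_sum hterm

/-- bound for sums over `u` with few prime factors -/
theorem gn_tail (hR : S_RAD) {κ η l k1 k2 Y : ℝ} (hl : 2 ≤ l) (hlg : 1 ≤ Real.log l)
    (hκ0 : 0 < κ) (hκ1 : κ ≤ 1) (h2 : Real.log 2 ≤ κ * Real.log l) (hη : 0 ≤ η)
    (hk1 : 0 ≤ k1) (hk2 : 1 ≤ k2) (hY : 1 ≤ Y) (hYl : Real.log Y ≤ l) (U : Finset ℕ)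
    (hU : ∀ u ∈ U, 1 ≤ u ∧ (u : ℝ) ≤ Y ∧ (om u : ℝ) ≤ η * l / Real.log l) :
    ∑ u ∈ U, Real.exp (k1 + k2 * Real.log l) ^ om u / u ≤
      Real.exp (η * (k2 - 1 + κ) * l + η * k1 * (l / Real.log l) +
        4 * Real.log l * Real.exp ((1 - κ) * Real.log l)) := by
  set lg := Real.log l with hlgd
  have hl0 : 0 < l := by linarith
  have hlg0 : 0 < lg := by linarith
  set E1 : ℝ := Real.exp ((1 - κ) * lg) with hE1
  have hE11 : 1 ≤ E1 := Real.one_le_exp (by nlinarith)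
  set T : ℕ := ⌈E1⌉₊ with hT
  have hTE : E1 ≤ T := Nat.le_ceil _
  have hT1 : 1 ≤ T := by
    have : (1 : ℝ) ≤ T := hE11.trans hTE
    exact_mod_cast this
  have hT2 : (T : ℝ) ≤ 2 * E1 := by
    have := Nat.ceil_lt_add_one (show 0 ≤ E1 by linarith)
    linarith
  have hT0 : (0 : ℝ) < T := by linarith
  have hTl : (T : ℝ) ≤ Real.exp lg := by
    refine hT2.trans ?_
    have : 2 * E1 = Real.exp (Real.log 2 + (1 - κ) * lg) := by
      rw [Real.exp_add, Real.exp_log (by norm_num)]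
    rw [this]
    apply Real.exp_le_exp.mpr
    linarith
  have hTK : (T : ℝ) ≤ Real.exp (k1 + k2 * lg) := by
    refine hTl.trans (Real.exp_le_exp.mpr ?_)
    nlinarith
  have hw0 : 0 ≤ η * l / lg := by positivity
  have h := gn_rare hR (K := Real.exp (k1 + k2 * lg)) (w := η * l / lg) (Y := Y) hT1 hTK hY U hU
  refine h.trans ?_
  have hKT : Real.exp (k1 + k2 * lg) / T ≤ Real.exp (k1 + (k2 - 1 + κ) * lg) := by
    rw [div_le_iff₀ hT0]
    calc Real.exp (k1 + k2 * lg) = Real.exp (k1 + (k2 - 1 + κ) * lg) * E1 := by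
          rw [hE1, ← Real.exp_add]; congr 1; ring
      _ ≤ _ := mul_le_mul_of_nonneg_left hTE (Real.exp_pos _).le
  have h3 : (Real.exp (k1 + k2 * lg) / T) ^ (η * l / lg) ≤
      Real.exp (η * (k2 - 1 + κ) * l + η * k1 * (l / lg)) := by
    calc (Real.exp (k1 + k2 * lg) / T) ^ (η * l / lg) ≤
        Real.exp (k1 + (k2 - 1 + κ) * lg) ^ (η * l / lg) :=
          Real.rpow_le_rpow (by positivity) hKT hw0
      _ = _ := by
          rw [← Real.exp_mul]; congr 1; field_simp; ring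
  have h4 : (1 + Real.log Y) ^ T ≤ Real.exp (4 * lg * E1) := by
    have h5 : 1 + Real.log Y ≤ Real.exp (2 * lg) := by
      have : Real.exp (2 * lg) = l * l := by
        rw [two_mul, Real.exp_add, hlgd, Real.exp_log hl0]
      rw [this]
      nlinarith
    calc (1 + Real.log Y) ^ T ≤ Real.exp (2 * lg) ^ T :=
          pow_le_pow_left₀ (by linarith [Real.log_nonneg hY]) h5 _
      _ = Real.exp (T * (2 * lg)) := by rw [Real.exp_nat_mul]
      _ ≤ _ := by
          apply Real.exp_le_exp.mpr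
          nlinarith
  calc _ ≤ Real.exp (η * (k2 - 1 + κ) * l + η * k1 * (l / lg)) * Real.exp (4 * lg * E1) :=
        mul_le_mul h3 h4 (pow_nonneg (by linarith [Real.log_nonneg hY]) _) (Real.exp_pos _).le
    _ = _ := by rw [← Real.exp_add]

end Pool.Agent.H98.ABCR
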