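import Pool.Agent.H98.ABCR.Gen2

/-! ABCR: general form of the assembly, conclusion of the two cases -/

set_option autoImplicit false

namespace Pool.Agent.H98.ABCR

open Finset Filter Topology

theorem gn_k2 {a b κ θ η β : ℝ} (hN : NumG a b κ θ η β) :
    1 ≤ β * (1 - a + κ) ∧ β * (1 - a + κ) ≤ β := by
  obtain ⟨na0, nab, nb5, nκ0, nκ1, nθ0, nθ1, nη0, nβ0, nβa⟩ := hN
  have haκ : 0 < a - κ := by
    by_contra hcon
    push Not at hcon
    have := mul_nonneg nβ0.le (sub_nonneg.mpr hcon)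
    linarith only [this, nβa, nκ0]
  have h1 : β * (a - κ) ≤ β * (1 - a + κ) := mul_le_mul_of_nonneg_left (by linarith) nβ0.le
  have h2 : β * (1 - a + κ) ≤ β * 1 := mul_le_mul_of_nonneg_left (by linarith) nβ0.le
  exact ⟨by linarith, by linarith⟩

/-- sieve case -/
theorem gn_F3 (hS : S_SIV) (hR : S_RAD) {a b κ θ η β C y0 A B l E : ℝ} (hC : 1 ≤ C)
    (hN : NumG a b κ θ η β) (hpar : ParG a b κ θ η β C y0 A B l)
    (hA : 8 * β + 10 + 5 * Real.log C ≤ A) (hB : η * (2 * Real.log C + 2) ≤ B)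
    (hE : 1 - θ * (1 - 2 * b - 4 * κ) + η * (β * (1 - a + κ) - 1 + κ) + κ ≤ E)
    (hT : ∀ (R : ℕ) (F : Finset (ℕ × ℕ)),
      (∀ v ∈ F, IsTri v ∧ RR v = R) → (F.card : ℝ) ≤ C ^ (om R + 1)) {y : ℝ}
    (hy : y = Real.exp (β * Real.log l)) {e : ℕ}
    {L : Finset ℕ} (hD : DatG a b κ y e L) (F : Finset (ℕ × ℕ))
    (hF : ∀ v ∈ F, IsTri v ∧ (RR v : ℝ) ≤ Real.exp l ∧ (om (RR v) : ℝ) ≤ η * l / Real.log l ∧
      ∃ p ∈ (RR v).primeFactors, Real.exp l ^ θ < (p : ℝ) ∧
        Nat.gcd ((nn v).factorization p) e = 1) :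
    (F.card : ℝ) ≤ Real.exp (E * l) := by
  obtain ⟨hk2a, hk2b⟩ := gn_k2 hN
  have na0 := hN.a0
  have nab := hN.ab
  have nb5 := hN.b5
  have nκ0 := hN.κ0
  have nκ1 := hN.κ1
  have nθ0 := hN.θ0
  have nθ1 := hN.θ1
  have nη0 := hN.η0
  have nβ0 := hN.β0
  have l1 := hpar.l1
  have g1 := hpar.g1
  have g3 := hpar.g3
  have g8 := hpar.g8
  have hl0 : 0 < l := by linarith
  have hC0 : 0 < C := by linarith
  have hlC : 0 ≤ Real.log C := Real.log_nonneg hC
  have hU := gn_U (Real.exp l) θ (η * l / Real.log l) (Real.one_lt_exp_iff.mpr hl0)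
    (fun v p => Nat.gcd ((nn v).factorization p) e = 1) F hF C hC hT
    (fun u => (3 * e : ℝ) ^ (om u + 1) * (2 * (Real.exp l / u) *
      Real.exp (-(θ * (1 - 2 * b - 4 * κ) * l) + β * Real.log l)))
    (fun u P hu huZ hus hom hP => gn_P hS hN hpar hy hD u P hu
      (by rw [← Real.exp_mul] at huZ; rwa [mul_comm] at huZ) hus hom (fun p hp => by
        obtain ⟨h1, h2, h3, h4, h5⟩ := hP p hp
        refine ⟨h1, h2, ?_, h4, h5⟩
        rw [← Real.exp_mul] at h3
        rwa [mul_comm] at h3))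
  set lg := Real.log l with hlg
  have hlg0 : 0 < lg := by linarith
  set k2 : ℝ := β * (1 - a + κ) with hk2
  set U : Finset ℕ := (Icc 1 ⌊Real.exp l ^ (1 - θ)⌋₊).filter
      (fun u => Squarefree u ∧ (om u : ℝ) + 1 ≤ η * l / lg) with hUd
  set K : ℝ := Real.exp (Real.log (3 * C) + k2 * lg) with hK
  have hK0 : 0 < K := Real.exp_pos _
  have heK : 3 * (e : ℝ) * C ≤ K := by
    rw [hK, Real.exp_add, Real.exp_log (by positivity)]
    have : y ^ (1 - a + κ) = Real.exp (k2 * lg) := by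
      rw [hy, ← Real.exp_mul, hk2]; congr 1; ring
    have h2 := hD.e2
    rw [this] at h2
    calc 3 * (e : ℝ) * C = 3 * C * e := by ring
      _ ≤ 3 * C * Real.exp (k2 * lg) := mul_le_mul_of_nonneg_left h2 (by positivity)
  set G : ℝ := Real.exp (-(θ * (1 - 2 * b - 4 * κ) * l) + β * lg) with hG
  have hG0 : 0 < G := Real.exp_pos _
  have hterm : ∀ u ∈ U, C ^ (om u + 2) * ((3 * e : ℝ) ^ (om u + 1) * (2 * (Real.exp l / u) * G)) ≤
      (C * K * 2 * Real.exp l * G) * (K ^ om u / u) := by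
    intro u hu
    have e1 : C ^ (om u + 2) * (3 * e : ℝ) ^ (om u + 1) = C * (3 * e * C) ^ (om u + 1) := by
      rw [mul_pow]; ring
    have e2 : (3 * (e : ℝ) * C) ^ (om u + 1) ≤ K ^ (om u + 1) := pow_le_pow_left₀ (by positivity) heK _
    calc C ^ (om u + 2) * ((3 * e : ℝ) ^ (om u + 1) * (2 * (Real.exp l / u) * G))
        = C * (3 * e * C) ^ (om u + 1) * (2 * (Real.exp l / u) * G) := by
          rw [← mul_assoc, e1]
      _ ≤ C * K ^ (om u + 1) * (2 * (Real.exp l / u) * G) := by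
          apply mul_le_mul_of_nonneg_right _ (by positivity)
          exact mul_le_mul_of_nonneg_left e2 hC0.le
      _ = _ := by rw [pow_succ]; ring
  have hlogY : Real.log (Real.exp l ^ (1 - θ)) ≤ l := by
    rw [Real.log_rpow (Real.exp_pos l), Real.log_exp]
    nlinarith
  have hY1 : 1 ≤ Real.exp l ^ (1 - θ) :=
    Real.one_le_rpow (Real.one_le_exp hl0.le) (by linarith)
  have htail := gn_tail hR (κ := κ) (η := η) (l := l) (k1 := Real.log (3 * C)) (k2 := k2)
    (Y := Real.exp l ^ (1 - θ)) l1 g1 nκ0 (by linarith) g3 nη0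
    (Real.log_nonneg (by linarith)) hk2a hY1 hlogY U (fun u hu => by
      rw [hUd, Finset.mem_filter, Finset.mem_Icc] at hu
      refine ⟨hu.1.1, ?_, by linarith [hu.2.2]⟩
      exact (Nat.floor_le (by positivity)).trans' (by exact_mod_cast hu.1.2))
  rw [← hlg, ← hK] at htail
  calc (F.card : ℝ) ≤ _ := hU
    _ ≤ ∑ u ∈ U, (C * K * 2 * Real.exp l * G) * (K ^ om u / u) := Finset.sum_le_sum hterm
    _ = (C * K * 2 * Real.exp l * G) * ∑ u ∈ U, K ^ om u / u := by rw [Finset.mul_sum]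
    _ ≤ (C * K * 2 * Real.exp l * G) * Real.exp (η * (k2 - 1 + κ) * l +
          η * Real.log (3 * C) * (l / lg) + 4 * lg * Real.exp ((1 - κ) * lg)) :=
        mul_le_mul_of_nonneg_left htail (by positivity)
    _ = Real.exp (Real.log C + (Real.log (3 * C) + k2 * lg) + Real.log 2 + l +
          (-(θ * (1 - 2 * b - 4 * κ) * l) + β * lg) + (η * (k2 - 1 + κ) * l +
          η * Real.log (3 * C) * (l / lg) + 4 * lg * Real.exp ((1 - κ) * lg))) := by
        rw [Real.exp_add _ (η * (k2 - 1 + κ) * l + _ + _), Real.exp_add _ (-(θ * (1 - 2 * b - 4 * κ) * l) + _),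
          Real.exp_add _ l, Real.exp_add _ (Real.log 2), Real.exp_add (Real.log C), Real.exp_log hC0,
          Real.exp_log (show (0:ℝ) < 2 by norm_num)]
    _ ≤ Real.exp (E * l) := by
        apply Real.exp_le_exp.mpr
        have hl3 : Real.log (3 * C) ≤ 2 + Real.log C := by
          rw [Real.log_mul (by norm_num) hC0.ne']
          have : Real.log 3 ≤ 3 - 1 := Real.log_le_sub_one_of_pos (by norm_num)
          linarith
        have hl2 : Real.log 2 ≤ 2 - 1 := Real.log_le_sub_one_of_pos (by norm_num)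
        have i1 : η * Real.log (3 * C) * (l / lg) ≤ B * (l / lg) := by
          apply mul_le_mul_of_nonneg_right _ (by positivity)
          have : η * Real.log (3 * C) ≤ η * (2 * Real.log C + 2) :=
            mul_le_mul_of_nonneg_left (by linarith) nη0
          linarith
        have i2 : k2 * lg ≤ β * lg := mul_le_mul_of_nonneg_right hk2b hlg0.le
        have i3 : (8 * β + 10 + 5 * Real.log C) * (lg + 1) ≤ A * (lg + 1) :=
          mul_le_mul_of_nonneg_right hA (by linarith)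
        have i4 : (8 * β + 10 + 5 * Real.log C) * (lg + 1) =
          8 * (β * lg) + 8 * β + 10 * lg + 10 + 5 * (Real.log C * lg) + 5 * Real.log C := by ring
        have i5 : 0 ≤ Real.log C * lg := by positivity
        have i6 : 0 < β * lg := by positivity
        have i7 : (1 - θ * (1 - 2 * b - 4 * κ) + η * (β * (1 - a + κ) - 1 + κ) + κ) * l ≤ E * l :=
          mul_le_mul_of_nonneg_right hE hl0.le
        have i8 : (1 - θ * (1 - 2 * b - 4 * κ) + η * (β * (1 - a + κ) - 1 + κ) + κ) * l =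
          l - θ * (1 - 2 * b - 4 * κ) * l + η * (k2 - 1 + κ) * l + κ * l := by rw [hk2]; ring
        linarith only [hl3, hl2, i1, i2, i3, i4, i5, i6, i7, i8, g8, nβ0, hlg0, hlC]

/-- power case -/
theorem gn_F4 (hR : S_RAD) {a b κ θ η β C y0 A B l E : ℝ} (hC : 1 ≤ C)
    (hN : NumG a b κ θ η β) (hpar : ParG a b κ θ η β C y0 A B l)
    (hA : 8 * β + 10 + 5 * Real.log C ≤ A) (hB : η * (2 * Real.log C + 2) ≤ B)
    (hE : 1 - θ + η * (3 / 2 * (β * (1 - a + κ)) - 1 + κ) + κ ≤ E)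
    {k0 : ℕ} (hk0 : 3 ≤ k0)
    (hP : ∀ (k u : ℕ) (F : Finset (ℕ × ℕ)), k.Prime → Odd k → k0 ≤ k → Squarefree u →
      (∀ v ∈ F, IsTri v ∧ C * k ≤ Real.log ((v.1 : ℝ) + v.2) ∧
        ∃ p : ℕ, p.Prime ∧ RR v = u * p ∧ k ∣ (nn v).factorization p) →
      (F.card : ℝ) ≤ (C * k) ^ (3 / 2 * (om u : ℝ) + 3)) {y : ℝ}
    (hy : y = Real.exp (β * Real.log l)) {e : ℕ} (hek : ∀ q : ℕ, q.Prime → q ∣ e → k0 ≤ q)
    {L : Finset ℕ} (hD : DatG a b κ y e L) (F : Finset (ℕ × ℕ))
    (hF : ∀ v ∈ F, IsTri v ∧ (RR v : ℝ) ≤ Real.exp l ∧ (om (RR v) : ℝ) ≤ η * l / Real.log l ∧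
      ∃ p ∈ (RR v).primeFactors, Real.exp l ^ θ < (p : ℝ) ∧
        Nat.gcd ((nn v).factorization p) e ≠ 1) :
    (F.card : ℝ) ≤ Real.exp (E * l) := by
  classical
  obtain ⟨hk2a, hk2b⟩ := gn_k2 hN
  have na0 := hN.a0
  have nab := hN.ab
  have nb5 := hN.b5
  have nκ0 := hN.κ0
  have nκ1 := hN.κ1
  have nθ0 := hN.θ0
  have nθ1 := hN.θ1
  have nη0 := hN.η0
  have nβ0 := hN.β0
  have l1 := hpar.l1
  have g1 := hpar.g1
  have g3 := hpar.g3
  have g7 := hpar.g7
  have g8 := hpar.g8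
  have hl0 : 0 < l := by linarith
  have hC0 : 0 < C := by linarith
  have hlC : 0 ≤ Real.log C := Real.log_nonneg hC
  set lg := Real.log l with hlg
  have hlg0 : 0 < lg := by linarith
  set k2 : ℝ := β * (1 - a + κ) with hk2
  have hy0 : 0 < y := by rw [hy]; exact Real.exp_pos _
  have heE : (e : ℝ) ≤ Real.exp (k2 * lg) := by
    have : y ^ (1 - a + κ) = Real.exp (k2 * lg) := by
      rw [hy, ← Real.exp_mul, hk2]; congr 1; ring
    rw [← this]
    exact hD.e2
  have he0 : (0 : ℝ) < e := lt_of_lt_of_le (Real.rpow_pos_of_pos hy0 _) hD.e1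
  have heN : 0 < e := by exact_mod_cast he0
  set Y : ℝ := Real.exp l ^ (1 - θ) with hY
  have hY1 : 1 ≤ Y := Real.one_le_rpow (Real.one_le_exp hl0.le) (by linarith)
  have hYe : Y = Real.exp ((1 - θ) * l) := by
    rw [hY, ← Real.exp_mul]; congr 1; ring
  set K : Finset ℕ := (Icc 1 e).filter (fun k => k.Prime ∧ Odd k ∧ k0 ≤ k) with hK
  set U : Finset ℕ := (Icc 1 ⌊Y⌋₊).filter
    (fun u => Squarefree u ∧ (om u : ℝ) + 1 ≤ η * l / lg) with hU
  set G : ℕ → ℕ → Finset (ℕ × ℕ) := fun k u => F.filter (fun v => C * k ≤ Real.log ((v.1 : ℝ) + v.2) ∧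
        ∃ p : ℕ, p.Prime ∧ RR v = u * p ∧ k ∣ (nn v).factorization p) with hGd
  have hcov : F ⊆ K.biUnion (fun k => U.biUnion (fun u => G k u)) := by
    intro v hv
    obtain ⟨h1, h2, h3, p0, hp0, hp0Z, hg⟩ := hF v hv
    obtain ⟨k, hkp, hkd⟩ := Nat.exists_prime_and_dvd hg
    have hke : k ∣ e := hkd.trans (Nat.gcd_dvd_right _ _)
    have hkv : k ∣ (nn v).factorization p0 := hkd.trans (Nat.gcd_dvd_left _ _)
    have hk0' := hek k hkp hke
    have hkodd : Odd k := hkp.odd_of_ne_two (by omega)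
    have hvp := mn_vp_pos h1 hp0
    have hpp := Nat.prime_of_mem_primeFactors hp0
    obtain ⟨s1, s2, s3, s4, s5⟩ := mn_split hp0
    have hp00 : (0 : ℝ) < p0 := by exact_mod_cast hpp.pos
    have hlogp : θ * l ≤ Real.log p0 := by
      have := Real.log_le_log (Real.rpow_pos_of_pos (Real.exp_pos l) _) hp0Z.le
      rwa [Real.log_rpow (Real.exp_pos l), Real.log_exp] at this
    rw [Finset.mem_biUnion]
    refine ⟨k, ?_, ?_⟩
    · rw [hK, Finset.mem_filter, Finset.mem_Icc]
      exact ⟨⟨hkp.one_lt.le, Nat.le_of_dvd heN hke⟩, hkp, hkodd, hk0'⟩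
    · rw [Finset.mem_biUnion]
      refine ⟨RR v / p0, ?_, ?_⟩
      · rw [hU, Finset.mem_filter, Finset.mem_Icc]
        refine ⟨⟨s5, ?_⟩, s2, ?_⟩
        · apply Nat.le_floor
          have hZ : Real.exp l = Y * Real.exp l ^ θ := by
            rw [hY, ← Real.rpow_add (Real.exp_pos l)]; norm_num
          by_contra hcon
          push Not at hcon
          have hprod : (((RR v / p0 : ℕ)) : ℝ) * p0 ≤ Real.exp l := by
            have : (((RR v / p0 * p0 : ℕ)) : ℝ) ≤ Real.exp l := by rw [← s1]; exact h2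
            push_cast at this
            exact_mod_cast this
          have : Real.exp l < ((RR v / p0 : ℕ) : ℝ) * p0 := by
            calc Real.exp l = Y * Real.exp l ^ θ := hZ
              _ < ((RR v / p0 : ℕ) : ℝ) * p0 :=
                mul_lt_mul'' hcon hp0Z (by linarith) (Real.rpow_nonneg (Real.exp_pos l).le _)
          linarith only [hprod, this]
        · have : (((om (RR v / p0) + 1 : ℕ)) : ℝ) ≤ η * l / lg := by rw [s3]; exact h3
          exact_mod_cast this
      · rw [hGd, Finset.mem_filter]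
        refine ⟨hv, ?_, p0, hpp, s1, hkv⟩
        have hle : ((p0 : ℝ)) ^ (nn v).factorization p0 ≤ (v.1 : ℝ) + v.2 := by
          exact_mod_cast mn_pow_le h1 hpp
        have h7 : ((nn v).factorization p0 : ℝ) * Real.log p0 ≤ Real.log ((v.1 : ℝ) + v.2) := by
          rw [← Real.log_pow]
          exact Real.log_le_log (by positivity) hle
        have h8' : (k : ℝ) ≤ (nn v).factorization p0 := by
          exact_mod_cast Nat.le_of_dvd hvp hkv
        have hCp : C ≤ Real.log p0 := g7.trans hlogp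
        have h9 : C * k ≤ ((nn v).factorization p0 : ℝ) * Real.log p0 := by
          calc C * k ≤ Real.log p0 * k := mul_le_mul_of_nonneg_right hCp (by positivity)
            _ ≤ Real.log p0 * (nn v).factorization p0 :=
              mul_le_mul_of_nonneg_left h8' (by linarith only [hCp, hC])
            _ = _ := by ring
        exact h9.trans h7
  have hcard : (F.card : ℝ) ≤ ∑ k ∈ K, ∑ u ∈ U, ((G k u).card : ℝ) := by
    have h1 : F.card ≤ ∑ k ∈ K, ∑ u ∈ U, (G k u).card := by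
      refine (Finset.card_le_card hcov).trans (Finset.card_biUnion_le.trans ?_)
      exact Finset.sum_le_sum fun k _ => Finset.card_biUnion_le
    exact_mod_cast h1
  set g : ℝ := Real.log C + k2 * lg with hg
  have hg0 : 0 ≤ g := by
    have : 0 ≤ k2 * lg := by
      apply mul_nonneg _ hlg0.le
      linarith only [hk2a]
    linarith only [this, hlC, hg]
  have hterm : ∀ k ∈ K, ∀ u ∈ U, ((G k u).card : ℝ) ≤
      Real.exp (3 * g) * (Real.exp (3 / 2 * Real.log C + 3 / 2 * k2 * lg) ^ om u) := by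
    intro k hk u hu
    rw [hK, Finset.mem_filter, Finset.mem_Icc] at hk
    rw [hU, Finset.mem_filter, Finset.mem_Icc] at hu
    have h1 := hP k u (G k u) hk.2.1 hk.2.2.1 hk.2.2.2 hu.2.1 (fun v hv => by
      rw [hGd, Finset.mem_filter] at hv
      exact ⟨(hF v hv.1).1, hv.2.1, hv.2.2⟩)
    refine h1.trans ?_
    have hk8 : (k : ℝ) ≤ e := by exact_mod_cast hk.1.2
    have hCk : C * k ≤ Real.exp g := by
      rw [hg, Real.exp_add, Real.exp_log hC0]
      exact mul_le_mul_of_nonneg_left (hk8.trans heE) hC0.le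
    have hk0' : (0 : ℝ) < k := by exact_mod_cast hk.2.1.pos
    calc (C * k) ^ (3 / 2 * (om u : ℝ) + 3) ≤ Real.exp g ^ (3 / 2 * (om u : ℝ) + 3) :=
          Real.rpow_le_rpow (by positivity) hCk (by positivity)
      _ = _ := by
          rw [← Real.exp_mul, ← Real.exp_nat_mul, ← Real.exp_add]
          congr 1
          rw [hg]; ring
  have hKc : (K.card : ℝ) ≤ Real.exp (k2 * lg) := by
    have h1 : K.card ≤ e := by
      have := Finset.card_filter_le (Icc 1 e) (fun k => k.Prime ∧ Odd k ∧ k0 ≤ k)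
      rwa [Nat.card_Icc, Nat.add_sub_cancel] at this
    exact le_trans (by exact_mod_cast h1) heE
  have hUY : ∀ u ∈ U, 1 ≤ u ∧ (u : ℝ) ≤ Y ∧ (om u : ℝ) ≤ η * l / lg := by
    intro u hu
    rw [hU, Finset.mem_filter, Finset.mem_Icc] at hu
    refine ⟨hu.1.1, ?_, by linarith [hu.2.2]⟩
    exact (Nat.floor_le (by positivity)).trans' (by exact_mod_cast hu.1.2)
  have hlogY : Real.log Y ≤ l := by
    rw [hYe, Real.log_exp]
    nlinarith
  have htail := gn_tail hR (κ := κ) (η := η) (l := l) (k1 := 3 / 2 * Real.log C) (k2 := 3 / 2 * k2)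
    (Y := Y) l1 g1 nκ0 (by linarith) g3 nη0 (by positivity) (by linarith) hY1 hlogY U hUY
  rw [← hlg] at htail
  set K2 : ℝ := Real.exp (3 / 2 * Real.log C + 3 / 2 * k2 * lg) with hK2
  have hsumU : ∑ u ∈ U, K2 ^ om u ≤ Y * ∑ u ∈ U, K2 ^ om u / u := by
    rw [Finset.mul_sum]
    refine Finset.sum_le_sum fun u hu => ?_
    obtain ⟨a1, a2, a3⟩ := hUY u hu
    have hu0 : (0 : ℝ) < u := by exact_mod_cast a1
    rw [mul_div_assoc', le_div_iff₀ hu0, mul_comm]
    exact mul_le_mul_of_nonneg_right a2 (by positivity)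
  calc (F.card : ℝ) ≤ ∑ k ∈ K, ∑ u ∈ U, ((G k u).card : ℝ) := hcard
    _ ≤ ∑ _k ∈ K, ∑ u ∈ U, Real.exp (3 * g) * K2 ^ om u :=
        Finset.sum_le_sum fun k hk => Finset.sum_le_sum fun u hu => hterm k hk u hu
    _ = K.card * (Real.exp (3 * g) * ∑ u ∈ U, K2 ^ om u) := by
        rw [Finset.sum_const, nsmul_eq_mul, ← Finset.mul_sum]
    _ ≤ Real.exp (k2 * lg) * (Real.exp (3 * g) * (Y * Real.exp (η * (3 / 2 * k2 - 1 + κ) * l +
          η * (3 / 2 * Real.log C) * (l / lg) + 4 * lg * Real.exp ((1 - κ) * lg)))) := by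
        apply mul_le_mul hKc _ (by positivity) (Real.exp_pos _).le
        apply mul_le_mul_of_nonneg_left _ (Real.exp_pos _).le
        exact hsumU.trans (mul_le_mul_of_nonneg_left htail (by linarith))
    _ = Real.exp (k2 * lg + (3 * g + ((1 - θ) * l + (η * (3 / 2 * k2 - 1 + κ) * l +
          η * (3 / 2 * Real.log C) * (l / lg) + 4 * lg * Real.exp ((1 - κ) * lg))))) := by
        rw [Real.exp_add (k2 * lg), Real.exp_add (3 * g), Real.exp_add ((1 - θ) * l), hYe]
    _ ≤ Real.exp (E * l) := by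
        apply Real.exp_le_exp.mpr
        have i1 : η * (3 / 2 * Real.log C) * (l / lg) ≤ B * (l / lg) := by
          apply mul_le_mul_of_nonneg_right _ (by positivity)
          have : η * (3 / 2 * Real.log C) ≤ η * (2 * Real.log C + 2) :=
            mul_le_mul_of_nonneg_left (by linarith only [hlC]) nη0
          linarith only [this, hB]
        have i2 : k2 * lg ≤ β * lg := mul_le_mul_of_nonneg_right hk2b hlg0.le
        have i3 : (8 * β + 10 + 5 * Real.log C) * (lg + 1) ≤ A * (lg + 1) :=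
          mul_le_mul_of_nonneg_right hA (by linarith only [hlg0])
        have i4 : (8 * β + 10 + 5 * Real.log C) * (lg + 1) =
          8 * (β * lg) + 8 * β + 10 * lg + 10 + 5 * (Real.log C * lg) + 5 * Real.log C := by ring
        have i5 : 0 ≤ Real.log C * lg := by positivity
        have i6 : 0 < β * lg := by positivity
        have i7 : (1 - θ + η * (3 / 2 * (β * (1 - a + κ)) - 1 + κ) + κ) * l ≤ E * l :=
          mul_le_mul_of_nonneg_right hE hl0.le
        have i8 : (1 - θ + η * (3 / 2 * (β * (1 - a + κ)) - 1 + κ) + κ) * l =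
          (1 - θ) * l + η * (3 / 2 * k2 - 1 + κ) * l + κ * l := by rw [hk2]; ring
        rw [hg]
        linarith only [i1, i2, i3, i4, i5, i6, i7, i8, g8, nβ0, hlg0, hlC]

end Pool.Agent.H98.ABCR
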