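import Pool.Agent.H98.ABCR.MainE

/-! ABCR, assembly: the main theorem from the modules -/

set_option autoImplicit false

namespace Pool.Agent.H98.ABCR

open Finset Filter Topology

theorem main_thm (h1 : S_TOT) (h2 : S_RNK) (h3 : S_RAD) (h4 : S_SMO) (h5 : S_SHI) (h6 : S_SIV)
    (h7 : S_CSP) (h8 : S_GCL) : S_MAIN := by
  classical
  obtain ⟨C1, hC1, hT1⟩ := h1
  obtain ⟨k0, C2, hC2, hP2⟩ := h7
  set C : ℝ := max C1 C2 with hC
  have hCC : 1 ≤ C := hC1.trans (le_max_left _ _)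
  have hT : ∀ (R : ℕ) (F : Finset (ℕ × ℕ)),
      (∀ v ∈ F, IsTri v ∧ RR v = R) → (F.card : ℝ) ≤ C ^ (om R + 1) := by
    intro R F hF
    exact (hT1 R F hF).trans (pow_le_pow_left₀ (by linarith) (le_max_left _ _) _)
  set k1 : ℕ := max k0 3 with hk1
  have hP : ∀ (k u : ℕ) (F : Finset (ℕ × ℕ)), k.Prime → Odd k → k1 ≤ k → Squarefree u →
      (∀ v ∈ F, IsTri v ∧ C * k ≤ Real.log ((v.1 : ℝ) + v.2) ∧
        ∃ p : ℕ, p.Prime ∧ RR v = u * p ∧ k ∣ (nn v).factorization p) →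
      (F.card : ℝ) ≤ (C * k) ^ (2 * (om u + 1)) := by
    intro k u F hk hko hkk hu hF
    have hk0 : (0 : ℝ) ≤ k := Nat.cast_nonneg k
    have := hP2 k u F hk hko (le_trans (le_max_left _ _) hkk) hu (fun v hv => by
      obtain ⟨a, b, c⟩ := hF v hv
      exact ⟨a, le_trans (mul_le_mul_of_nonneg_right (le_max_right _ _) hk0) b, c⟩)
    refine this.trans (pow_le_pow_left₀ (by positivity) ?_ _)
    exact mul_le_mul_of_nonneg_right (le_max_right _ _) hk0
  obtain ⟨y0, hy0⟩ := h5 k1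
  obtain ⟨K, hK⟩ : ∃ K : ℕ, C ≤ K := exists_nat_ge C
  have hK1 : 1 ≤ K := by
    have : (1 : ℝ) ≤ K := hCC.trans hK
    exact_mod_cast this
  obtain ⟨C3, hC3, hR3⟩ := h2 K (1 / 400) (1 / 10) hK1 (by norm_num) (by norm_num) (by norm_num)
  obtain ⟨C4, hC4, hS4⟩ := h4 (1 / 100) (by norm_num)
  obtain ⟨l0, hl0⟩ := (par_eventually C y0).exists_forall_of_atTop
  -- threshold
  set l1 : ℝ := max l0 (Real.log 16) with hl1
  have hl1pos : 0 < l1 := lt_of_lt_of_le (Real.log_pos (by norm_num)) (le_max_right _ _)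
  set Cs : ℝ := ∑ R ∈ Icc 1 ⌊Real.exp l1⌋₊, C ^ (om R + 1) with hCs
  have hCs0 : 0 ≤ Cs := Finset.sum_nonneg fun R _ => by positivity
  have hCpos : 0 < C := by linarith
  have hKpos : (0 : ℝ) < K := by linarith
  refine ⟨Cs + K * C3 + C4 + 2, by positivity, ?_⟩
  intro Z F hZ hF
  have hZ0 : 0 < Z := by linarith
  have hZe1 : 1 ≤ Z ^ (1 - 1 / 500 : ℝ) := Real.one_le_rpow hZ (by norm_num)
  rcases le_or_gt Z (Real.exp l1) with hsmall | hlarge
  · -- small Z
    have hb := mn_count hCC hT F (Icc 1 ⌊Real.exp l1⌋₊) (fun v hv => by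
      refine ⟨(hF v hv).1, Finset.mem_Icc.mpr ⟨mn_RR_pos v, Nat.le_floor ((hF v hv).2.trans hsmall)⟩⟩)
    calc (F.card : ℝ) ≤ Cs := hb
      _ ≤ (Cs + K * C3 + C4 + 2) * 1 := by
          have : 0 ≤ K * C3 := by positivity
          linarith
      _ ≤ _ := mul_le_mul_of_nonneg_left hZe1 (by positivity)
  · -- large Z
    set l : ℝ := Real.log Z with hl
    have hZl : Real.exp l = Z := Real.exp_log hZ0
    have hll1 : l1 < l := by
      rw [hl, Real.lt_log_iff_exp_lt hZ0]; exact hlarge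
    have hpar : Par C y0 l := hl0 l ((le_max_left _ _).trans hll1.le)
    have hl16 : Real.log 16 < l := lt_of_le_of_lt (le_max_right _ _) hll1
    have hZ16 : 16 ≤ Z := by
      rw [← hZl, ← Real.exp_log (show (0 : ℝ) < 16 by norm_num)]
      exact Real.exp_le_exp.mpr hl16.le
    obtain ⟨e, hek, he, L, hLc, hL⟩ := hy0 (l ^ (10 : ℕ)) hpar.ly0
    have hlpos : 0 < l := by linarith [hpar.l1]
    have hy0' : (0 : ℝ) < l ^ (10 : ℕ) := by positivity
    have he8 : (e : ℝ) ≤ 8 * l ^ (10 : ℕ) := by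
      have hLne : 0 < L.card := by
        have : (0 : ℝ) < L.card := lt_of_lt_of_le (Real.rpow_pos_of_pos hy0' _) hLc
        exact_mod_cast this
      obtain ⟨q, hq⟩ := Finset.card_pos.mp hLne
      obtain ⟨g1, g2, g3, g4⟩ := hL q hq
      have g5 : e ≤ q - 1 := Nat.le_of_dvd (by have := g1.two_le; omega) g2
      have g6 : e ≤ q := by omega
      have g7 : (e : ℝ) ≤ q := by exact_mod_cast g6
      linarith
    set w : ℝ := l / (400 * Real.log l) with hw
    have hw' : 1 / 400 * l / Real.log l = w := by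
      rw [hw]; field_simp
    -- the four parts
    set F1 := F.filter (fun v => w < (om (RR v) : ℝ)) with hF1
    set F2 := F.filter (fun v => ∀ p ∈ (RR v).primeFactors, (p : ℝ) ≤ Z ^ (1 / 4 : ℝ)) with hF2
    set F3 := F.filter (fun v => (om (RR v) : ℝ) ≤ w ∧ ∃ p ∈ (RR v).primeFactors,
      Real.exp l ^ (1 / 4 : ℝ) < (p : ℝ) ∧
        (Nat.gcd ((nn v).factorization p) e : ℝ) ≤ (e : ℝ) ^ (2 / 3 : ℝ)) with hF3
    set F4 := F.filter (fun v => (om (RR v) : ℝ) ≤ w ∧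
      (∃ p ∈ (RR v).primeFactors, Real.exp l ^ (1 / 4 : ℝ) < (p : ℝ)) ∧
      ∀ p ∈ (RR v).primeFactors, Real.exp l ^ (1 / 4 : ℝ) < (p : ℝ) →
        (e : ℝ) ^ (2 / 3 : ℝ) < (Nat.gcd ((nn v).factorization p) e : ℝ)) with hF4
    have hcov : F ⊆ F1 ∪ F2 ∪ F3 ∪ F4 := by
      intro v hv
      simp only [Finset.mem_union]
      by_cases c1 : w < (om (RR v) : ℝ)
      · exact Or.inl (Or.inl (Or.inl (Finset.mem_filter.mpr ⟨hv, c1⟩)))
      push Not at c1
      by_cases c2 : ∀ p ∈ (RR v).primeFactors, (p : ℝ) ≤ Z ^ (1 / 4 : ℝ)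
      · exact Or.inl (Or.inl (Or.inr (Finset.mem_filter.mpr ⟨hv, c2⟩)))
      push Not at c2
      by_cases c3 : ∃ p ∈ (RR v).primeFactors, Real.exp l ^ (1 / 4 : ℝ) < (p : ℝ) ∧
        (Nat.gcd ((nn v).factorization p) e : ℝ) ≤ (e : ℝ) ^ (2 / 3 : ℝ)
      · exact Or.inl (Or.inr (Finset.mem_filter.mpr ⟨hv, c1, c3⟩))
      push Not at c3
      exact Or.inr (Finset.mem_filter.mpr ⟨hv, c1, by rw [hZl]; exact c2, c3⟩)
    have hcard : (F.card : ℝ) ≤ F1.card + F2.card + F3.card + F4.card := by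
      have g1 := Finset.card_le_card hcov
      have g2 := Finset.card_union_le (F1 ∪ F2 ∪ F3) F4
      have g3 := Finset.card_union_le (F1 ∪ F2) F3
      have g4 := Finset.card_union_le F1 F2
      have : F.card ≤ F1.card + F2.card + F3.card + F4.card := by omega
      exact_mod_cast this
    -- bound for F1
    have b1 : (F1.card : ℝ) ≤ K * C3 * Z ^ (1 - 1 / 500 : ℝ) := by
      have g1 := mn_count hCC hT F1 ((Icc 1 ⌊Z⌋₊).filter
        (fun n => 1 / 400 * Real.log Z / Real.log (Real.log Z) < (om n : ℝ))) (fun v hv => by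
          rw [hF1, Finset.mem_filter] at hv
          refine ⟨(hF v hv.1).1, Finset.mem_filter.mpr ⟨Finset.mem_Icc.mpr
            ⟨mn_RR_pos v, Nat.le_floor (hF v hv.1).2⟩, ?_⟩⟩
          rw [← hl, hw']
          exact hv.2)
      have g2 := hR3 Z hZ16
      calc (F1.card : ℝ) ≤ _ := g1
        _ ≤ K * ∑ n ∈ (Icc 1 ⌊Z⌋₊).filter
            (fun n => 1 / 400 * Real.log Z / Real.log (Real.log Z) < (om n : ℝ)), (K : ℝ) ^ om n := by
            rw [Finset.mul_sum]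
            refine Finset.sum_le_sum fun R _ => ?_
            calc C ^ (om R + 1) ≤ (K : ℝ) ^ (om R + 1) := pow_le_pow_left₀ (by linarith) hK _
              _ = K * (K : ℝ) ^ om R := by ring
        _ ≤ K * (C3 * Z ^ (1 - (1 - 1 / 10) * (1 / 400) : ℝ)) :=
            mul_le_mul_of_nonneg_left g2 hKpos.le
        _ ≤ K * (C3 * Z ^ (1 - 1 / 500 : ℝ)) := by
            apply mul_le_mul_of_nonneg_left _ hKpos.le
            apply mul_le_mul_of_nonneg_left _ (by linarith)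
            exact Real.rpow_le_rpow_of_exponent_le hZ (by norm_num)
        _ = _ := by ring
    have b2 : (F2.card : ℝ) ≤ C4 * Z ^ (1 - 1 / 500 : ℝ) := by
      have g1 := hS4 Z (Z ^ (1 / 4 : ℝ)) F2 hZ (Real.one_le_rpow hZ (by norm_num)) (fun v hv => by
        rw [hF2, Finset.mem_filter] at hv
        exact ⟨(hF v hv.1).1, (hF v hv.1).2, hv.2⟩)
      calc (F2.card : ℝ) ≤ _ := g1
        _ = C4 * Z ^ ((2 / 3 + 1 / 100) + 1 / 4 : ℝ) := by
            rw [mul_assoc, ← Real.rpow_add hZ0]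
        _ ≤ _ := by
            apply mul_le_mul_of_nonneg_left _ (by linarith)
            exact Real.rpow_le_rpow_of_exponent_le hZ (by norm_num)
    have hexp : Real.exp (499 / 500 * l) = Z ^ (1 - 1 / 500 : ℝ) := by
      rw [Real.rpow_def_of_pos hZ0, ← hl]; congr 1; ring
    have b3 : (F3.card : ℝ) ≤ Z ^ (1 - 1 / 500 : ℝ) := by
      rw [← hexp]
      refine mn_F3 h6 h3 hCC hpar hT rfl he hLc hL F3 (fun v hv => ?_)
      rw [hF3, Finset.mem_filter] at hv
      exact ⟨(hF v hv.1).1, by rw [hZl]; exact (hF v hv.1).2, hv.2.1, hv.2.2⟩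
    have b4 : (F4.card : ℝ) ≤ Z ^ (1 - 1 / 500 : ℝ) := by
      rw [← hexp]
      refine mn_F4 h8 hCC hpar (le_max_right _ _) hP rfl hek he he8 F4 (fun v hv => ?_)
      rw [hF4, Finset.mem_filter] at hv
      exact ⟨(hF v hv.1).1, by rw [hZl]; exact (hF v hv.1).2, hv.2.1, hv.2.2.1, hv.2.2.2⟩
    have : 0 ≤ Cs * Z ^ (1 - 1 / 500 : ℝ) := by positivity
    calc (F.card : ℝ) ≤ F1.card + F2.card + F3.card + F4.card := hcard
      _ ≤ (Cs + K * C3 + C4 + 2) * Z ^ (1 - 1 / 500 : ℝ) := by linarith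

end Pool.Agent.H98.ABCR
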