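import Pool.Agent.H98.ABCR.MainB

/-! ABCR, assembly part C: one large prime with small `gcd` (sieve case) -/

set_option autoImplicit false

namespace Pool.Agent.H98.ABCR

open Finset Filter Topology

/-- the local factor -/
theorem mn_loc {y lg : ℝ} (hy : y = Real.exp (10 * lg)) (hlg : 1 ≤ lg)
    (h8 : Real.log 8 ≤ 1 / 20 * lg) {e q : ℕ} (he : y ^ (86 / 100 : ℝ) ≤ e) (hq : q.Prime)
    (hd : e ∣ q - 1) (hq8 : (q : ℝ) ≤ 8 * y) :
    (((q - 1) / e : ℕ) : ℝ) ^ 2 * (e : ℝ) ^ (2 / 3 : ℝ) / q ≤ Real.exp (-(7 / 5 * lg)) := by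
  have hy0 : 0 < y := by rw [hy]; exact Real.exp_pos _
  have hlogy : Real.log y = 10 * lg := by rw [hy, Real.log_exp]
  have he0 : (0 : ℝ) < e := lt_of_lt_of_le (Real.rpow_pos_of_pos hy0 _) he
  have heN : 0 < e := by exact_mod_cast he0
  obtain ⟨s, hs⟩ := hd
  have hq2 := hq.two_le
  have hse : (q - 1) / e = s := by rw [hs]; exact Nat.mul_div_cancel_left _ heN
  rw [hse]
  have hs0 : 0 < s := by
    rcases Nat.eq_zero_or_pos s with h | h
    · rw [h] at hs; omega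
    · exact h
  have hs0' : (0 : ℝ) < s := by exact_mod_cast hs0
  have hes : (e : ℝ) * s ≤ q := by
    have : e * s ≤ q := by omega
    exact_mod_cast this
  have hq0 : (0 : ℝ) < q := by exact_mod_cast hq.pos
  -- logarithms
  have hle : 86 / 10 * lg ≤ Real.log e := by
    have := Real.log_le_log (Real.rpow_pos_of_pos hy0 _) he
    rw [Real.log_rpow hy0, hlogy] at this
    linarith
  have hlq : Real.log q ≤ Real.log 8 + 10 * lg := by
    have := Real.log_le_log hq0 hq8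
    rwa [Real.log_mul (by norm_num) hy0.ne', hlogy] at this
  have hls : Real.log e + Real.log s ≤ Real.log q := by
    have := Real.log_le_log (by positivity) hes
    rwa [Real.log_mul he0.ne' hs0'.ne'] at this
  have hpos : 0 < (s : ℝ) ^ 2 * (e : ℝ) ^ (2 / 3 : ℝ) / q := by positivity
  rw [← Real.log_le_iff_le_exp hpos, Real.log_div (by positivity) hq0.ne',
    Real.log_mul (by positivity) (by positivity), Real.log_pow, Real.log_rpow he0]
  push_cast
  nlinarith [hle, hls, hlq, h8]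

/-- the union bound over `u` -/
theorem mn_F3_T (Z w : ℝ) (hZ : 1 < Z) (e : ℕ) (g : ℝ) (F : Finset (ℕ × ℕ))
    (hF : ∀ v ∈ F, IsTri v ∧ (RR v : ℝ) ≤ Z ∧ (om (RR v) : ℝ) ≤ w ∧
      ∃ p ∈ (RR v).primeFactors, Z ^ (1 / 4 : ℝ) < (p : ℝ) ∧
        (Nat.gcd ((nn v).factorization p) e : ℝ) ≤ g) (C B : ℝ) (hC : 1 ≤ C)
    (hT : ∀ (R : ℕ) (F : Finset (ℕ × ℕ)),
      (∀ v ∈ F, IsTri v ∧ RR v = R) → (F.card : ℝ) ≤ C ^ (om R + 1))
    (hB : 0 ≤ B)
    (hP : ∀ (u : ℕ) (P : Finset ℕ), 0 < u → (u : ℝ) ≤ Z ^ (3 / 4 : ℝ) → Squarefree u →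
      (om u : ℝ) + 1 ≤ w → (∀ p ∈ P, p.Prime ∧ (p : ℝ) ≤ Z / u ∧ Z ^ (1 / 4 : ℝ) < (p : ℝ) ∧
        ¬ p ∣ u ∧ ∃ v : ℕ × ℕ, IsTri v ∧ RR v = u * p ∧
          (Nat.gcd ((nn v).factorization p) e : ℝ) ≤ g) → (P.card : ℝ) ≤ B / u)
    (hR : S_RAD) :
    (F.card : ℝ) ≤ C ^ (w + 1) * (B * (1 + Real.log Z)) := by
  classical
  set U : Finset ℕ := (Icc 1 ⌊Z ^ (3 / 4 : ℝ)⌋₊).filter
    (fun u => Squarefree u ∧ (om u : ℝ) + 1 ≤ w) with hU
  set P : ℕ → Finset ℕ := fun u => (Icc 1 ⌊Z / u⌋₊).filter (fun p => p.Prime ∧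
    Z ^ (1 / 4 : ℝ) < (p : ℝ) ∧ ¬ p ∣ u ∧ ∃ v : ℕ × ℕ, IsTri v ∧ RR v = u * p ∧
      (Nat.gcd ((nn v).factorization p) e : ℝ) ≤ g) with hPd
  set T : Finset ℕ := U.biUnion (fun u => (P u).image (fun p => u * p)) with hTd
  have hZ0 : 0 < Z := by linarith
  have h14 : 0 < Z ^ (1 / 4 : ℝ) := Real.rpow_pos_of_pos hZ0 _
  have hFT : ∀ v ∈ F, IsTri v ∧ RR v ∈ T := by
    intro v hv
    obtain ⟨h1, h2, h3, p, hp, hpZ, hg⟩ := hF v hv
    refine ⟨h1, ?_⟩
    obtain ⟨s1, s2, s3, s4, s5⟩ := mn_split hp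
    have hpp := Nat.prime_of_mem_primeFactors hp
    have hp0 : (0 : ℝ) < p := by exact_mod_cast hpp.pos
    have hu0 : (0 : ℝ) < ((RR v / p : ℕ) : ℝ) := by exact_mod_cast s5
    have hprod : (((RR v / p : ℕ)) : ℝ) * p ≤ Z := by
      have : (((RR v / p * p : ℕ)) : ℝ) ≤ Z := by rw [← s1]; exact h2
      push_cast at this
      exact_mod_cast this
    rw [hTd, Finset.mem_biUnion]
    refine ⟨RR v / p, ?_, ?_⟩
    · rw [hU, Finset.mem_filter, Finset.mem_Icc]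
      refine ⟨⟨s5, ?_⟩, s2, ?_⟩
      · apply Nat.le_floor
        have : Z = Z ^ (3 / 4 : ℝ) * Z ^ (1 / 4 : ℝ) := by
          rw [← Real.rpow_add hZ0]; norm_num
        by_contra hcon
        push Not at hcon
        have : Z < ((RR v / p : ℕ) : ℝ) * p := by
          calc Z = Z ^ (3 / 4 : ℝ) * Z ^ (1 / 4 : ℝ) := this
            _ < ((RR v / p : ℕ) : ℝ) * p :=
              mul_lt_mul'' hcon hpZ (Real.rpow_nonneg hZ0.le _) h14.le
        linarith
      · have : (((om (RR v / p) + 1 : ℕ)) : ℝ) ≤ w := by rw [s3]; exact h3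
        exact_mod_cast this
    · rw [Finset.mem_image]
      refine ⟨p, ?_, s1.symm⟩
      rw [hPd, Finset.mem_filter, Finset.mem_Icc]
      refine ⟨⟨hpp.one_lt.le, ?_⟩, hpp, hpZ, s4, v, h1, s1, hg⟩
      apply Nat.le_floor
      rw [le_div_iff₀ hu0]
      linarith
  have hsum := mn_count hC hT F T hFT
  have hom : ∀ R ∈ T, C ^ (om R + 1) ≤ C ^ (w + 1) := by
    intro R hR
    rw [hTd, Finset.mem_biUnion] at hR
    obtain ⟨u, hu, hR⟩ := hR
    rw [Finset.mem_image] at hR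
    obtain ⟨p, hp, rfl⟩ := hR
    rw [hU, Finset.mem_filter, Finset.mem_Icc] at hu
    rw [hPd, Finset.mem_filter] at hp
    have hu0 : u ≠ 0 := by omega
    have : om (u * p) = om u + 1 := by
      unfold om
      rw [Nat.primeFactors_mul hu0 hp.2.1.ne_zero, hp.2.1.primeFactors, Finset.union_comm]
      have : ({p} : Finset ℕ) ∪ u.primeFactors = insert p u.primeFactors := rfl
      rw [this, Finset.card_insert_of_notMem]
      intro h
      exact hp.2.2.2.1 (Nat.dvd_of_mem_primeFactors h)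
    rw [this, ← Real.rpow_natCast]
    apply Real.rpow_le_rpow_of_exponent_le hC
    push_cast
    linarith [hu.2.2]
  have hTc : (T.card : ℝ) ≤ B * (1 + Real.log Z) := by
    have h1 : T.card ≤ ∑ u ∈ U, (P u).card := by
      rw [hTd]
      refine Finset.card_biUnion_le.trans (Finset.sum_le_sum fun u _ => Finset.card_image_le)
    have h2 : (T.card : ℝ) ≤ ∑ u ∈ U, B / u := by
      calc (T.card : ℝ) ≤ ∑ u ∈ U, ((P u).card : ℝ) := by exact_mod_cast h1
        _ ≤ ∑ u ∈ U, B / u := by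
          refine Finset.sum_le_sum fun u hu => ?_
          rw [hU, Finset.mem_filter, Finset.mem_Icc] at hu
          refine hP u (P u) (by omega) ?_ hu.2.1 hu.2.2 ?_
          · exact (Nat.floor_le (Real.rpow_nonneg hZ0.le _)).trans' (by exact_mod_cast hu.1.2)
          · intro p hp
            rw [hPd, Finset.mem_filter, Finset.mem_Icc] at hp
            refine ⟨hp.2.1, ?_, hp.2.2.1, hp.2.2.2.1, hp.2.2.2.2⟩
            exact (Nat.floor_le (by positivity)).trans' (by exact_mod_cast hp.1.2)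
    have hZ34 : 1 ≤ Z ^ (3 / 4 : ℝ) := Real.one_le_rpow hZ.le (by norm_num)
    have h3 := (hR 1 (Z ^ (3 / 4 : ℝ)) le_rfl hZ34).2
    simp only [Nat.cast_one, one_pow, pow_one] at h3
    have h4 : ∑ u ∈ U, B / (u : ℝ) ≤ B * ∑ n ∈ Icc 1 ⌊Z ^ (3 / 4 : ℝ)⌋₊, (1 : ℝ) / n := by
      rw [Finset.mul_sum]
      calc ∑ u ∈ U, B / (u : ℝ) ≤ ∑ u ∈ Icc 1 ⌊Z ^ (3 / 4 : ℝ)⌋₊, B / (u : ℝ) := by
            refine Finset.sum_le_sum_of_subset_of_nonneg (Finset.filter_subset _ _) ?_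
            intro i _ _
            positivity
        _ = _ := by
          refine Finset.sum_congr rfl fun u _ => ?_
          rw [mul_one_div]
    have hlog : Real.log (Z ^ (3 / 4 : ℝ)) ≤ Real.log Z := by
      rw [Real.log_rpow hZ0]
      have := Real.log_pos hZ
      linarith
    calc (T.card : ℝ) ≤ _ := h2
      _ ≤ _ := h4
      _ ≤ B * (1 + Real.log Z) := mul_le_mul_of_nonneg_left (h3.trans (by linarith)) hB
  calc (F.card : ℝ) ≤ ∑ R ∈ T, C ^ (om R + 1) := hsum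
    _ ≤ ∑ _R ∈ T, C ^ (w + 1) := Finset.sum_le_sum hom
    _ = T.card * C ^ (w + 1) := by rw [Finset.sum_const, nsmul_eq_mul]
    _ ≤ (B * (1 + Real.log Z)) * C ^ (w + 1) :=
        mul_le_mul_of_nonneg_right hTc (Real.rpow_nonneg (by linarith) _)
    _ = _ := by ring

end Pool.Agent.H98.ABCR
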