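import Pool.Agent.H98.ABCR.MainC

/-! ABCR, assembly part D: the sieve case -/

set_option autoImplicit false

namespace Pool.Agent.H98.ABCR

open Finset Filter Topology

/-- the number of primes sieved -/
theorem mn_m {lg l : ℝ} (hl : 0 < l) (hlg : 1 ≤ lg) (h8 : Real.log 8 ≤ 1 / 20 * lg) :
    ∃ m : ℕ, (m : ℝ) ≤ l ∧ (m : ℝ) * (Real.log 8 + 10 * lg) ≤ l / 4 ∧
      34 / 1000 * l - 7 / 5 * lg ≤ m * (7 / 5 * lg) := by
  have h80 : 0 < Real.log 8 := Real.log_pos (by norm_num)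
  set D : ℝ := Real.log 8 + 10 * lg with hD
  have hD1 : 10 ≤ D := by rw [hD]; linarith
  have hD0 : 0 < D := by linarith
  refine ⟨⌊l / (4 * D)⌋₊, ?_, ?_, ?_⟩
  · refine (Nat.floor_le (by positivity)).trans ?_
    rw [div_le_iff₀ (by positivity)]
    nlinarith
  · calc (⌊l / (4 * D)⌋₊ : ℝ) * D ≤ l / (4 * D) * D :=
        mul_le_mul_of_nonneg_right (Nat.floor_le (by positivity)) hD0.le
      _ = l / 4 := by field_simp
  · have h1 : l / (4 * D) - 1 ≤ (⌊l / (4 * D)⌋₊ : ℝ) := by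
      have := Nat.lt_floor_add_one (l / (4 * D))
      linarith
    have h2 : (l / (4 * D) - 1) * (7 / 5 * lg) ≤ (⌊l / (4 * D)⌋₊ : ℝ) * (7 / 5 * lg) :=
      mul_le_mul_of_nonneg_right h1 (by linarith)
    refine le_trans ?_ h2
    have h3 : 34 / 1000 * l ≤ l / (4 * D) * (7 / 5 * lg) := by
      rw [show l / (4 * D) * (7 / 5 * lg) = (l * (7 / 5 * lg)) / (4 * D) by ring,
        le_div_iff₀ (by positivity)]
      have : D ≤ 10 * lg + 1 / 20 * lg := by rw [hD]; linarith
      nlinarith [mul_le_mul_of_nonneg_left this hl.le]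
    linarith

/-- bound for the number of primes `p` for a fixed `u` -/
theorem mn_P (hS : S_SIV) {C y0 l : ℝ} (hC : 1 ≤ C) (hpar : Par C y0 l) {y : ℝ}
    (hy : y = l ^ (10 : ℕ)) {e : ℕ} (he : y ^ (86 / 100 : ℝ) ≤ e) {L : Finset ℕ}
    (hLc : y ^ (11 / 100 : ℝ) ≤ (L.card : ℝ))
    (hL : ∀ q ∈ L, q.Prime ∧ e ∣ q - 1 ∧ y ≤ 9 * (q : ℝ) ∧ (q : ℝ) ≤ 8 * y)
    (u : ℕ) (P : Finset ℕ) (hu : 0 < u) (huZ : (u : ℝ) ≤ Real.exp l ^ (3 / 4 : ℝ))
    (hus : Squarefree u) (hom : (om u : ℝ) + 1 ≤ l / (400 * Real.log l))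
    (hP : ∀ p ∈ P, p.Prime ∧ (p : ℝ) ≤ Real.exp l / u ∧ Real.exp l ^ (1 / 4 : ℝ) < (p : ℝ) ∧
        ¬ p ∣ u ∧ ∃ v : ℕ × ℕ, IsTri v ∧ RR v = u * p ∧
          (Nat.gcd ((nn v).factorization p) e : ℝ) ≤ (e : ℝ) ^ (2 / 3 : ℝ)) :
    (P.card : ℝ) ≤ Real.exp (l * (1 + 1 / 40 + 1 / 40000 - 34 / 1000) + 7 / 5 * Real.log l + Real.log 2) / u := by
  have hl2 := hpar.l1
  have hl0 : 0 < l := by linarith
  set lg := Real.log l with hlg
  have hlg1 : 1 ≤ lg := hpar.b1
  have h8 : Real.log 8 ≤ 1 / 20 * lg := hpar.b2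
  have h24 : Real.log (24 * C) ≤ 1 / 100 * lg := hpar.b3
  have hyexp : y = Real.exp (10 * lg) := by
    rw [hy, hlg, mul_comm, ← Real.rpow_natCast l 10, Real.rpow_def_of_pos hl0]; norm_num
  have hy0 : 0 < y := by rw [hyexp]; exact Real.exp_pos _
  have hlogy : Real.log y = 10 * lg := by rw [hyexp, Real.log_exp]
  have he0 : (0 : ℝ) < e := lt_of_lt_of_le (Real.rpow_pos_of_pos hy0 _) he
  have heN : 0 < e := by exact_mod_cast he0
  have he1 : (1 : ℝ) ≤ e := by exact_mod_cast heN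
  have hu0 : (0 : ℝ) < u := by exact_mod_cast hu
  obtain ⟨m, hm1, hm2, hm3⟩ := mn_m hl0 hlg1 h8
  -- the primes of L not dividing u
  have hcard : m ≤ (L.filter (fun q => ¬ q ∣ u)).card := by
    have h1 : (L.filter (fun q => q ∣ u)).card ≤ om u := by
      unfold om
      refine Finset.card_le_card fun q hq => ?_
      rw [Finset.mem_filter] at hq
      exact Nat.mem_primeFactors.mpr ⟨(hL q hq.1).1, hq.2, hu.ne'⟩
    have h2 := Finset.card_filter_add_card_filter_not (s := L) (fun q => q ∣ u)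
    have h3 : (om u : ℝ) ≤ l := by
      have : l / (400 * lg) ≤ l := by
        rw [div_le_iff₀ (by positivity)]
        nlinarith
      linarith
    have h4 : 2 * l ≤ (L.card : ℝ) := by
      refine le_trans ?_ hLc
      have : y ^ (11 / 100 : ℝ) = Real.exp (11 / 10 * lg) := by
        rw [hyexp, ← Real.exp_mul]; congr 1; ring
      rw [this]
      have h5 : (2 : ℝ) * l = Real.exp (Real.log 2 + lg) := by
        rw [Real.exp_add, Real.exp_log (by norm_num), hlg, Real.exp_log hl0]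
      rw [h5]
      apply Real.exp_le_exp.mpr
      have := hpar.b4
      rw [← hlg] at this
      linarith
    have h6 : (m : ℝ) ≤ ((L.filter (fun q => ¬ q ∣ u)).card : ℝ) := by
      have h7 : ((L.filter (fun q => q ∣ u)).card : ℝ) + ((L.filter (fun q => ¬ q ∣ u)).card : ℝ) = L.card := by
        exact_mod_cast h2
      have h8' : ((L.filter (fun q => q ∣ u)).card : ℝ) ≤ om u := by exact_mod_cast h1
      linarith
    exact_mod_cast h6
  obtain ⟨Lu, hLu, hLuc⟩ := Finset.exists_subset_card_eq hcard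
  have hLu' : ∀ q ∈ Lu, (q.Prime ∧ e ∣ q - 1 ∧ y ≤ 9 * (q : ℝ) ∧ (q : ℝ) ≤ 8 * y) ∧ ¬ q ∣ u := by
    intro q hq
    have := Finset.mem_filter.mp (hLu hq)
    exact ⟨hL q this.1, this.2⟩
  have h8y : Real.log (8 * y) = Real.log 8 + 10 * lg := by
    rw [Real.log_mul (by norm_num) hy0.ne', hlogy]
  have hprod : ∏ q ∈ Lu, (q : ℝ) ≤ Real.exp l / u := by
    calc ∏ q ∈ Lu, (q : ℝ) ≤ ∏ _q ∈ Lu, (8 * y) :=
          Finset.prod_le_prod (fun q _ => by positivity) (fun q hq => (hLu' q hq).1.2.2.2)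
      _ = (8 * y) ^ m := by rw [Finset.prod_const, hLuc]
      _ = Real.exp (m * (Real.log 8 + 10 * lg)) := by
          rw [← h8y, Real.exp_nat_mul, Real.exp_log (by positivity)]
      _ ≤ Real.exp (l / 4) := Real.exp_le_exp.mpr hm2
      _ ≤ Real.exp l / u := by
          rw [le_div_iff₀ hu0]
          calc Real.exp (l / 4) * u ≤ Real.exp (l / 4) * Real.exp l ^ (3 / 4 : ℝ) :=
                mul_le_mul_of_nonneg_left huZ (Real.exp_pos _).le
            _ = Real.exp l := by rw [← Real.exp_mul, ← Real.exp_add]; congr 1; ring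
  have hg1 : 1 ≤ (e : ℝ) ^ (2 / 3 : ℝ) := Real.one_le_rpow he1 (by norm_num)
  have hmain := hS e u ((e : ℝ) ^ (2 / 3 : ℝ)) (Real.exp l / u) Lu P heN hu hus hg1
    (fun q hq => ⟨(hLu' q hq).1.1, (hLu' q hq).1.2.1, (hLu' q hq).2⟩) hprod
    (fun p hp => by
      obtain ⟨h1, h2, h3, h4, h5⟩ := hP p hp
      refine ⟨h1, h2, ?_, h4, h5⟩
      intro hpL
      have h6 : (p : ℝ) ≤ 8 * y := (hLu' p hpL).1.2.2.2
      have h7 : 8 * y ≤ Real.exp l ^ (1 / 4 : ℝ) := by
        rw [← Real.exp_mul]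
        rw [← Real.exp_log (show 0 < 8 * y by positivity), h8y]
        apply Real.exp_le_exp.mpr
        have := hpar.c1
        rw [← hlg] at this
        have h24' : 0 ≤ Real.log (24 * C) := Real.log_nonneg (by linarith)
        linarith
      linarith)
  -- bound for the product
  have hG : ∏ q ∈ Lu, (((q - 1) / e : ℕ) : ℝ) ^ 2 * (e : ℝ) ^ (2 / 3 : ℝ) / q ≤
      Real.exp (-(34 / 1000 * l) + 7 / 5 * lg) := by
    calc ∏ q ∈ Lu, (((q - 1) / e : ℕ) : ℝ) ^ 2 * (e : ℝ) ^ (2 / 3 : ℝ) / q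
        ≤ ∏ _q ∈ Lu, Real.exp (-(7 / 5 * lg)) :=
          Finset.prod_le_prod (fun q _ => by positivity)
            (fun q hq => mn_loc hyexp hlg1 h8 he (hLu' q hq).1.1 (hLu' q hq).1.2.1
              (hLu' q hq).1.2.2.2)
      _ = Real.exp (m * (-(7 / 5 * lg))) := by
          rw [Finset.prod_const, hLuc, Real.exp_nat_mul]
      _ ≤ _ := by
          apply Real.exp_le_exp.mpr
          linarith
  -- bound for the number of codes
  have he8 : (e : ℝ) ≤ 8 * y := by
    have hLne : 0 < L.card := by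
      have : (0 : ℝ) < L.card := lt_of_lt_of_le (Real.rpow_pos_of_pos hy0 _) hLc
      exact_mod_cast this
    obtain ⟨q, hq⟩ := Finset.card_pos.mp hLne
    obtain ⟨h1, h2, h3, h4⟩ := hL q hq
    have h5 : e ≤ q - 1 := Nat.le_of_dvd (by have := h1.two_le; omega) h2
    have h6 : e ≤ q := by omega
    have h7 : (e : ℝ) ≤ q := by exact_mod_cast h6
    linarith
  have hcode : (3 * e : ℝ) ^ (om u + 1) ≤ Real.exp (l * (1 / 40 + 1 / 40000)) := by
    have h1 : (3 * e : ℝ) ≤ Real.exp (Real.log 24 + 10 * lg) := by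
      rw [Real.exp_add, Real.exp_log (by norm_num), ← hyexp]
      linarith
    have h2 : (om u : ℝ) + 1 ≤ l / (400 * lg) := hom
    have h3 : Real.log 24 ≤ 1 / 100 * lg :=
      le_trans (Real.log_le_log (by norm_num) (by linarith)) h24
    have hlog24 : 0 ≤ Real.log 24 := Real.log_nonneg (by norm_num)
    calc (3 * e : ℝ) ^ (om u + 1) ≤ Real.exp (Real.log 24 + 10 * lg) ^ (om u + 1) :=
          pow_le_pow_left₀ (by positivity) h1 _
      _ = Real.exp (((om u + 1 : ℕ) : ℝ) * (Real.log 24 + 10 * lg)) := by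
          rw [Real.exp_nat_mul]
      _ ≤ _ := by
          apply Real.exp_le_exp.mpr
          push_cast
          have h5 : ((om u : ℝ) + 1) * (Real.log 24 + 10 * lg) ≤
              l / (400 * lg) * (Real.log 24 + 10 * lg) :=
            mul_le_mul_of_nonneg_right h2 (by positivity)
          refine h5.trans ?_
          rw [div_mul_eq_mul_div, div_le_iff₀ (by positivity)]
          nlinarith [mul_le_mul_of_nonneg_left h3 hl0.le]
  calc (P.card : ℝ) ≤ _ := hmain
    _ ≤ Real.exp (l * (1 / 40 + 1 / 40000)) * (2 * (Real.exp l / u) *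
        Real.exp (-(34 / 1000 * l) + 7 / 5 * lg)) := by
        apply mul_le_mul hcode _ (by positivity) (Real.exp_pos _).le
        exact mul_le_mul_of_nonneg_left hG (by positivity)
    _ = _ := by
        have : Real.exp (l * (1 + 1 / 40 + 1 / 40000 - 34 / 1000) + 7 / 5 * lg + Real.log 2) =
            Real.exp (l * (1 / 40 + 1 / 40000)) * (2 * Real.exp l *
              Real.exp (-(34 / 1000 * l) + 7 / 5 * lg)) := by
          rw [show l * (1 + 1 / 40 + 1 / 40000 - 34 / 1000) + 7 / 5 * lg + Real.log 2 =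
            l * (1 / 40 + 1 / 40000) + (Real.log 2 + l + (-(34 / 1000 * l) + 7 / 5 * lg)) by ring,
            Real.exp_add, Real.exp_add (Real.log 2 + l), Real.exp_add (Real.log 2),
            Real.exp_log (by norm_num)]
        rw [this]
        ring

end Pool.Agent.H98.ABCR
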