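import Pool.Agent.H98.ABCR.MainD

/-! ABCR, assembly part E: the two main cases -/

set_option autoImplicit false

namespace Pool.Agent.H98.ABCR

open Finset Filter Topology

theorem mn_Cw {C y0 l : ℝ} (hC : 1 ≤ C) (hpar : Par C y0 l) :
    C ^ (l / (400 * Real.log l) + 1) ≤ Real.exp (l / 40000 + Real.log (24 * C)) := by
  have hlg1 := hpar.b1
  have h24 := hpar.b3
  have hC0 : 0 < C := by linarith
  have h1 : Real.log C ≤ Real.log (24 * C) := Real.log_le_log hC0 (by linarith)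
  have h2 : 0 ≤ Real.log C := Real.log_nonneg hC
  have hl := hpar.l1
  rw [Real.rpow_def_of_pos hC0]
  apply Real.exp_le_exp.mpr
  have h3 : Real.log C * (l / (400 * Real.log l)) ≤ l / 40000 := by
    rw [mul_div_assoc', div_le_div_iff₀ (by positivity) (by norm_num)]
    nlinarith [mul_le_mul_of_nonneg_right (h1.trans h24) (show (0:ℝ) ≤ l by linarith)]
  nlinarith

/-- the sieve case -/
theorem mn_F3 (hS : S_SIV) (hR : S_RAD) {C y0 l : ℝ} (hC : 1 ≤ C) (hpar : Par C y0 l)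
    (hT : ∀ (R : ℕ) (F : Finset (ℕ × ℕ)),
      (∀ v ∈ F, IsTri v ∧ RR v = R) → (F.card : ℝ) ≤ C ^ (om R + 1)) {y : ℝ}
    (hy : y = l ^ (10 : ℕ)) {e : ℕ} (he : y ^ (86 / 100 : ℝ) ≤ e) {L : Finset ℕ}
    (hLc : y ^ (11 / 100 : ℝ) ≤ (L.card : ℝ))
    (hL : ∀ q ∈ L, q.Prime ∧ e ∣ q - 1 ∧ y ≤ 9 * (q : ℝ) ∧ (q : ℝ) ≤ 8 * y)
    (F : Finset (ℕ × ℕ))
    (hF : ∀ v ∈ F, IsTri v ∧ (RR v : ℝ) ≤ Real.exp l ∧ (om (RR v) : ℝ) ≤ l / (400 * Real.log l) ∧
      ∃ p ∈ (RR v).primeFactors, Real.exp l ^ (1 / 4 : ℝ) < (p : ℝ) ∧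
        (Nat.gcd ((nn v).factorization p) e : ℝ) ≤ (e : ℝ) ^ (2 / 3 : ℝ)) :
    (F.card : ℝ) ≤ Real.exp (499 / 500 * l) := by
  have hl := hpar.l1
  have hl0 : 0 < l := by linarith
  have h1 := mn_F3_T (Real.exp l) (l / (400 * Real.log l)) (Real.one_lt_exp_iff.mpr hl0) e
    ((e : ℝ) ^ (2 / 3 : ℝ)) F hF C
    (Real.exp (l * (1 + 1 / 40 + 1 / 40000 - 34 / 1000) + 7 / 5 * Real.log l + Real.log 2)) hC hT
    (Real.exp_pos _).le
    (fun u P hu huZ hus hom hP => mn_P hS hC hpar hy he hLc hL u P hu huZ hus hom hP) hR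
  refine h1.trans ?_
  rw [Real.log_exp]
  have h2 := mn_Cw hC hpar
  have h3 : 1 + l ≤ Real.exp (Real.log 2 + Real.log l) := by
    rw [Real.exp_add, Real.exp_log (by norm_num), Real.exp_log hl0]; linarith
  calc C ^ (l / (400 * Real.log l) + 1) *
      (Real.exp (l * (1 + 1 / 40 + 1 / 40000 - 34 / 1000) + 7 / 5 * Real.log l + Real.log 2) * (1 + l))
      ≤ Real.exp (l / 40000 + Real.log (24 * C)) *
        (Real.exp (l * (1 + 1 / 40 + 1 / 40000 - 34 / 1000) + 7 / 5 * Real.log l + Real.log 2) *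
          Real.exp (Real.log 2 + Real.log l)) := by
        apply mul_le_mul h2 _ (by positivity) (Real.exp_pos _).le
        exact mul_le_mul_of_nonneg_left h3 (Real.exp_pos _).le
    _ ≤ Real.exp (499 / 500 * l) := by
        rw [← Real.exp_add, ← Real.exp_add]
        apply Real.exp_le_exp.mpr
        have := hpar.c1
        have hb := hpar.b1
        have h24' : 0 ≤ Real.log (24 * C) := Real.log_nonneg (by linarith)
        have h2' : Real.log 2 ≤ 1 := by linarith [Real.log_two_lt_d9]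
        linarith

/-- the power case -/
theorem mn_F4 (hG : S_GCL) {C y0 l : ℝ} (hC : 1 ≤ C) (hpar : Par C y0 l) {k0 : ℕ} (hk0 : 3 ≤ k0)
    (hP : ∀ (k u : ℕ) (F : Finset (ℕ × ℕ)), k.Prime → Odd k → k0 ≤ k → Squarefree u →
      (∀ v ∈ F, IsTri v ∧ C * k ≤ Real.log ((v.1 : ℝ) + v.2) ∧
        ∃ p : ℕ, p.Prime ∧ RR v = u * p ∧ k ∣ (nn v).factorization p) →
      (F.card : ℝ) ≤ (C * k) ^ (2 * (om u + 1))) {y : ℝ}
    (hy : y = l ^ (10 : ℕ)) {e : ℕ} (hek : ∀ q : ℕ, q.Prime → q ∣ e → k0 ≤ q)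
    (he : y ^ (86 / 100 : ℝ) ≤ e) (he8 : (e : ℝ) ≤ 8 * y)
    (F : Finset (ℕ × ℕ))
    (hF : ∀ v ∈ F, IsTri v ∧ (RR v : ℝ) ≤ Real.exp l ∧ (om (RR v) : ℝ) ≤ l / (400 * Real.log l) ∧
      (∃ p ∈ (RR v).primeFactors, Real.exp l ^ (1 / 4 : ℝ) < (p : ℝ)) ∧
      ∀ p ∈ (RR v).primeFactors, Real.exp l ^ (1 / 4 : ℝ) < (p : ℝ) →
        (e : ℝ) ^ (2 / 3 : ℝ) < (Nat.gcd ((nn v).factorization p) e : ℝ)) :
    (F.card : ℝ) ≤ Real.exp (499 / 500 * l) := by
  classical
  have hl := hpar.l1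
  have hl0 : 0 < l := by linarith
  set lg := Real.log l with hlg
  have hlg1 : 1 ≤ lg := hpar.b1
  have h8 : Real.log 8 ≤ 1 / 20 * lg := hpar.b2
  have h24 : Real.log (24 * C) ≤ 1 / 100 * lg := hpar.b3
  have hyexp : y = Real.exp (10 * lg) := by
    rw [hy, hlg, mul_comm, ← Real.rpow_natCast l 10, Real.rpow_def_of_pos hl0]; norm_num
  have hy0 : 0 < y := by rw [hyexp]; exact Real.exp_pos _
  have hy1 : 1 < y := by rw [hyexp]; exact Real.one_lt_exp_iff.mpr (by linarith)
  have he1 : 1 < e := by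
    have : (1 : ℝ) < e := lt_of_lt_of_le (Real.one_lt_rpow hy1 (by norm_num)) he
    exact_mod_cast this
  set Z34 : ℝ := Real.exp l ^ (3 / 4 : ℝ) with hZ34
  set K : Finset ℕ := (Icc 1 ⌊8 * y⌋₊).filter (fun k => k.Prime ∧ Odd k ∧ k0 ≤ k) with hK
  set U : Finset ℕ := (Icc 1 ⌊Z34⌋₊).filter
    (fun u => Squarefree u ∧ (om u : ℝ) + 1 ≤ l / (400 * lg)) with hU
  set G : ℕ → ℕ → Finset (ℕ × ℕ) := fun k u => F.filter (fun v => C * k ≤ Real.log ((v.1 : ℝ) + v.2) ∧
        ∃ p : ℕ, p.Prime ∧ RR v = u * p ∧ k ∣ (nn v).factorization p) with hGd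
  have hcov : F ⊆ K.biUnion (fun k => U.biUnion (fun u => G k u)) := by
    intro v hv
    obtain ⟨h1, h2, h3, ⟨p0, hp0, hp0Z⟩, h5⟩ := hF v hv
    -- common prime of the gcds
    set J := (RR v).primeFactors.filter (fun p : ℕ => Real.exp l ^ (1 / 4 : ℝ) < (p : ℝ)) with hJ
    have hJne : J.Nonempty := ⟨p0, by rw [hJ, Finset.mem_filter]; exact ⟨hp0, hp0Z⟩⟩
    have hJ3 : J.card ≤ 3 := mn_few (Real.one_lt_exp_iff.mpr hl0) (mn_RR_pos v) h2
    obtain ⟨k, hkp, hke, hkJ⟩ := hG e J (fun p => Nat.gcd ((nn v).factorization p) e) he1 hJne hJ3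
      (fun p hp => by
        rw [hJ, Finset.mem_filter] at hp
        exact ⟨Nat.gcd_dvd_right _ _, h5 p hp.1 hp.2⟩)
    have hk0' := hek k hkp hke
    have hkodd : Odd k := hkp.odd_of_ne_two (by omega)
    have hkv : k ∣ (nn v).factorization p0 :=
      (hkJ p0 (by rw [hJ, Finset.mem_filter]; exact ⟨hp0, hp0Z⟩)).trans (Nat.gcd_dvd_left _ _)
    have hvp := mn_vp_pos h1 hp0
    have hpp := Nat.prime_of_mem_primeFactors hp0
    obtain ⟨s1, s2, s3, s4, s5⟩ := mn_split hp0
    have hp00 : (0 : ℝ) < p0 := by exact_mod_cast hpp.pos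
    have hlogp : l / 4 ≤ Real.log p0 := by
      have := Real.log_le_log (Real.rpow_pos_of_pos (Real.exp_pos l) _) hp0Z.le
      rw [Real.log_rpow (Real.exp_pos l), Real.log_exp] at this
      linarith
    rw [Finset.mem_biUnion]
    refine ⟨k, ?_, ?_⟩
    · rw [hK, Finset.mem_filter, Finset.mem_Icc]
      refine ⟨⟨hkp.one_lt.le, ?_⟩, hkp, hkodd, hk0'⟩
      apply Nat.le_floor
      have : (k : ℝ) ≤ e := by exact_mod_cast Nat.le_of_dvd (by omega) hke
      linarith
    · rw [Finset.mem_biUnion]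
      refine ⟨RR v / p0, ?_, ?_⟩
      · rw [hU, Finset.mem_filter, Finset.mem_Icc]
        refine ⟨⟨s5, ?_⟩, s2, ?_⟩
        · apply Nat.le_floor
          have hZ : Real.exp l = Z34 * Real.exp l ^ (1 / 4 : ℝ) := by
            rw [hZ34, ← Real.rpow_add (Real.exp_pos l)]; norm_num
          by_contra hcon
          push Not at hcon
          have hprod : (((RR v / p0 : ℕ)) : ℝ) * p0 ≤ Real.exp l := by
            have : (((RR v / p0 * p0 : ℕ)) : ℝ) ≤ Real.exp l := by rw [← s1]; exact h2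
            push_cast at this
            exact_mod_cast this
          have : Real.exp l < ((RR v / p0 : ℕ) : ℝ) * p0 := by
            calc Real.exp l = Z34 * Real.exp l ^ (1 / 4 : ℝ) := hZ
              _ < ((RR v / p0 : ℕ) : ℝ) * p0 :=
                mul_lt_mul'' hcon hp0Z (Real.rpow_nonneg (Real.exp_pos l).le _)
                  (Real.rpow_nonneg (Real.exp_pos l).le _)
          linarith
        · have : (((om (RR v / p0) + 1 : ℕ)) : ℝ) ≤ l / (400 * lg) := by rw [s3]; exact h3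
          exact_mod_cast this
      · rw [hGd, Finset.mem_filter]
        refine ⟨hv, ?_, p0, hpp, s1, hkv⟩
        have hle : ((p0 : ℝ)) ^ (nn v).factorization p0 ≤ (v.1 : ℝ) + v.2 := by
          exact_mod_cast mn_pow_le h1 hpp
        have h7 : ((nn v).factorization p0 : ℝ) * Real.log p0 ≤ Real.log ((v.1 : ℝ) + v.2) := by
          rw [← Real.log_pow]
          exact Real.log_le_log (by positivity) hle
        have h8' : (k : ℝ) ≤ (nn v).factorization p0 := by
          exact_mod_cast Nat.le_of_dvd hvp hkv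
        have h9 : C * k ≤ ((nn v).factorization p0 : ℝ) * Real.log p0 := by
          have : C ≤ Real.log p0 := by linarith [hpar.a1]
          calc C * k ≤ Real.log p0 * k := mul_le_mul_of_nonneg_right this (by positivity)
            _ ≤ Real.log p0 * (nn v).factorization p0 :=
              mul_le_mul_of_nonneg_left h8' (by linarith)
            _ = _ := by ring
        linarith
  have hcard : (F.card : ℝ) ≤ ∑ k ∈ K, ∑ u ∈ U, ((G k u).card : ℝ) := by
    have h1 : F.card ≤ ∑ k ∈ K, ∑ u ∈ U, (G k u).card := by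
      refine (Finset.card_le_card hcov).trans (Finset.card_biUnion_le.trans ?_)
      exact Finset.sum_le_sum fun k _ => Finset.card_biUnion_le
    exact_mod_cast h1
  have hterm : ∀ k ∈ K, ∀ u ∈ U, ((G k u).card : ℝ) ≤ Real.exp (l / 20 + l / 20000) := by
    intro k hk u hu
    rw [hK, Finset.mem_filter, Finset.mem_Icc] at hk
    rw [hU, Finset.mem_filter, Finset.mem_Icc] at hu
    have h1 := hP k u (G k u) hk.2.1 hk.2.2.1 hk.2.2.2 hu.2.1 (fun v hv => by
      rw [hGd, Finset.mem_filter] at hv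
      exact ⟨(hF v hv.1).1, hv.2.1, hv.2.2⟩)
    refine h1.trans ?_
    have hk8 : (k : ℝ) ≤ 8 * y := by
      have : (k : ℝ) ≤ ⌊8 * y⌋₊ := by exact_mod_cast hk.1.2
      exact this.trans (Nat.floor_le (by positivity))
    have h2 : C * k ≤ Real.exp (Real.log (24 * C) + 10 * lg) := by
      rw [Real.exp_add, Real.exp_log (by linarith), ← hyexp]
      nlinarith
    have h24' : 0 ≤ Real.log (24 * C) := Real.log_nonneg (by linarith)
    calc (C * k) ^ (2 * (om u + 1)) ≤ Real.exp (Real.log (24 * C) + 10 * lg) ^ (2 * (om u + 1)) :=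
          pow_le_pow_left₀ (by positivity) h2 _
      _ = Real.exp (((2 * (om u + 1) : ℕ) : ℝ) * (Real.log (24 * C) + 10 * lg)) := by
          rw [Real.exp_nat_mul]
      _ ≤ _ := by
          apply Real.exp_le_exp.mpr
          push_cast
          have h5 : 2 * ((om u : ℝ) + 1) * (Real.log (24 * C) + 10 * lg) ≤
              2 * (l / (400 * lg)) * (Real.log (24 * C) + 10 * lg) :=
            mul_le_mul_of_nonneg_right (by linarith [hu.2.2]) (by positivity)
          refine h5.trans ?_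
          rw [show 2 * (l / (400 * lg)) * (Real.log (24 * C) + 10 * lg) =
            (2 * l * (Real.log (24 * C) + 10 * lg)) / (400 * lg) by ring, div_le_iff₀ (by positivity)]
          nlinarith [mul_le_mul_of_nonneg_left h24 hl0.le]
  have hKc : (K.card : ℝ) ≤ 8 * y := by
    have h1 : K.card ≤ ⌊8 * y⌋₊ := by
      have := Finset.card_filter_le (Icc 1 ⌊8 * y⌋₊) (fun k => k.Prime ∧ Odd k ∧ k0 ≤ k)
      rwa [Nat.card_Icc, Nat.add_sub_cancel] at this
    exact le_trans (by exact_mod_cast h1) (Nat.floor_le (by positivity))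
  have hUc : (U.card : ℝ) ≤ Z34 := by
    have h1 : U.card ≤ ⌊Z34⌋₊ := by
      have := Finset.card_filter_le (Icc 1 ⌊Z34⌋₊)
        (fun u => Squarefree u ∧ (om u : ℝ) + 1 ≤ l / (400 * lg))
      rwa [Nat.card_Icc, Nat.add_sub_cancel] at this
    exact le_trans (by exact_mod_cast h1) (Nat.floor_le (Real.rpow_nonneg (Real.exp_pos l).le _))
  have h34 : Z34 = Real.exp (3 / 4 * l) := by
    rw [hZ34, ← Real.exp_mul]; congr 1; ring
  calc (F.card : ℝ) ≤ ∑ k ∈ K, ∑ u ∈ U, ((G k u).card : ℝ) := hcard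
    _ ≤ ∑ _k ∈ K, ∑ _u ∈ U, Real.exp (l / 20 + l / 20000) :=
        Finset.sum_le_sum fun k hk => Finset.sum_le_sum fun u hu => hterm k hk u hu
    _ = K.card * (U.card * Real.exp (l / 20 + l / 20000)) := by
        rw [Finset.sum_const, Finset.sum_const, nsmul_eq_mul, nsmul_eq_mul]
    _ ≤ (8 * y) * (Real.exp (3 / 4 * l) * Real.exp (l / 20 + l / 20000)) := by
        rw [← h34]
        have : 0 < Z34 := by rw [h34]; exact Real.exp_pos _
        gcongr
    _ = Real.exp (Real.log 8 + 10 * lg + (3 / 4 * l + (l / 20 + l / 20000))) := by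
        have e1 : Real.exp (Real.log 8 + 10 * lg + (3 / 4 * l + (l / 20 + l / 20000))) =
            Real.exp (Real.log 8) * Real.exp (10 * lg) *
              (Real.exp (3 / 4 * l) * Real.exp (l / 20 + l / 20000)) := by
          rw [Real.exp_add, Real.exp_add (Real.log 8) (10 * lg), Real.exp_add (3 / 4 * l)]
        rw [e1, Real.exp_log (by norm_num), ← hyexp]
    _ ≤ Real.exp (499 / 500 * l) := by
        apply Real.exp_le_exp.mpr
        have := hpar.c1
        rw [← hlg] at this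
        have h24' : 0 ≤ Real.log (24 * C) := Real.log_nonneg (by linarith)
        linarith

end Pool.Agent.H98.ABCR
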