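import Mathlib

/-!
# ABCR: counting abc triples by radical (all heights)

Definitions and the statements of the modules.  Proofs in words: `/team-store/ABCR2_PLAN.md`.
Every module is a theorem `xxx_thm (h1 : S_AAA) ... : S_XXX` in the file
`Pool/Agent/H<k>/ABCR/XXX.lean` (import this file, namespace `Pool.Agent.H98.ABCR`).
-/

set_option autoImplicit false

namespace Pool.Agent.H98.ABCR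

open Finset Polynomial

/-! ## Definitions -/

/-- the radical of a natural number -/
def rad (n : ℕ) : ℕ := ∏ p ∈ n.primeFactors, p

/-- number of distinct prime factors -/
def om (n : ℕ) : ℕ := n.primeFactors.card

/-- height of `(x, y, x + y)` -/
def ht (x y : ℤ) : ℕ := max (max x.natAbs y.natAbs) (x + y).natAbs

/-- logarithmic height -/
noncomputable def lh (x y : ℤ) : ℝ := Real.log (ht x y)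

/-- exponent of `q` in the integer `z` -/
def vv (q : ℕ) (z : ℤ) : ℕ := z.natAbs.factorization q

/-- logarithm of the `S`-part of `z` -/
noncomputable def slog (S : Finset ℕ) (z : ℤ) : ℝ := ∑ q ∈ S, (vv q z : ℝ) * Real.log q

/-- `R(T) = ∑_{j ≤ r} ∑_{l ≤ n} p j l T^(k l + j)` -/
noncomputable def Rpoly (k r n : ℕ) (p : ℕ → ℕ → ℤ) : ℤ[X] :=
  ∑ j ∈ range (r + 1), ∑ l ∈ range (n + 1), C (p j l) * X ^ (k * l + j)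

/-- the auxiliary integer: `∑ p j l binom(kl+j, i) (-x)^l y^(n-l) N^j D^(r-j)` -/
def Fval (k r n i : ℕ) (p : ℕ → ℕ → ℤ) (x y N D : ℤ) : ℤ :=
  ∑ j ∈ range (r + 1), ∑ l ∈ range (n + 1),
    p j l * ((k * l + j).choose i : ℤ) * (-x) ^ l * y ^ (n - l) * N ^ j * D ^ (r - j)

/-- coefficients bounded by `A` -/
def CoeffLe (r n : ℕ) (p : ℕ → ℕ → ℤ) (A : ℝ) : Prop :=
  ∀ j ∈ range (r + 1), ∀ l ∈ range (n + 1), |((p j l : ℤ) : ℝ)| ≤ A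

/-- Wronskian with Hasse derivatives -/
noncomputable def wr {q : ℕ} (f : Fin q → ℝ[X]) : ℝ[X] :=
  (Matrix.of fun i a : Fin q => hasseDeriv (i : ℕ) (f a)).det

/-- `f_a = P_a(T^k) T^(c a)` -/
noncomputable def ff {q : ℕ} (k : ℕ) (c : Fin q → ℕ) (P : Fin q → ℝ[X]) : Fin q → ℝ[X] :=
  fun a => expand ℝ k (P a) * X ^ (c a)

/-- coprime pair `(x, y)`, `x ≠ 0 < y`, `x + y ≠ 0` -/
structure IsSol (x y : ℤ) : Prop where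
  x0 : x ≠ 0
  y0 : 0 < y
  z0 : x + y ≠ 0
  cop : IsCoprime x y

/-- two solutions with common local weights `θ q`, `q ∈ S`, and archimedean weight `θi`;
`N / D` plays the role of a `k`-th root of `(x₁/y₁)/(x₂/y₂)` -/
structure Linked (k : ℕ) (S : Finset ℕ) (θ : ℕ → ℝ) (θi : ℝ) (x1 y1 x2 y2 N D : ℤ) : Prop where
  s1 : IsSol x1 y1
  s2 : IsSol x2 y2
  N0 : N ≠ 0
  D0 : D ≠ 0
  rel : N ^ k * (x2 * y1) = D ^ k * (x1 * y2)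
  Nle : |(N : ℝ)| ^ k ≤ (ht x1 y1 : ℝ) * ht x2 y2
  Dle : |(D : ℝ)| ^ k ≤ (ht x1 y1 : ℝ) * ht x2 y2
  Sp : ∀ q ∈ S, q.Prime
  th0 : ∀ q ∈ S, 0 ≤ θ q
  thi0 : 0 ≤ θi
  loc : ∀ q ∈ S, 0 < θ q → ¬ (q : ℤ) ∣ N ∧ ¬ (q : ℤ) ∣ D ∧ (q : ℤ) ∣ N - D
  w1 : ∀ q ∈ S, θ q * lh x1 y1 ≤ (vv q (x1 + y1) : ℝ) * Real.log q
  w2 : ∀ q ∈ S, θ q * lh x2 y2 ≤ (vv q (x2 + y2) : ℝ) * Real.log q
  wi1 : θi * lh x1 y1 ≤ lh x1 y1 - Real.log |((x1 + y1 : ℤ) : ℝ)|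
  wi2 : θi * lh x2 y2 ≤ lh x2 y2 - Real.log |((x2 + y2 : ℤ) : ℝ)|

/-- the prime-to-`S` part of `x + y` is at most `height ^ (1 - δ)` -/
def Heavy (δ : ℝ) (S : Finset ℕ) (x y : ℤ) : Prop :=
  Real.log |((x + y : ℤ) : ℝ)| - slog S (x + y) ≤ (1 - δ) * lh x y

/-- the three members `a, b, a + b` of a triple -/
def coord (v : ℕ × ℕ) : Fin 3 → ℕ := ![v.1, v.2, v.1 + v.2]

/-- an abc triple `(a, b, a + b)` -/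
def IsTri (v : ℕ × ℕ) : Prop := 0 < v.1 ∧ 0 < v.2 ∧ v.1.Coprime v.2

/-- the product `a b (a + b)` -/
def nn (v : ℕ × ℕ) : ℕ := v.1 * v.2 * (v.1 + v.2)

/-- the radical of `a b (a + b)` -/
def RR (v : ℕ × ℕ) : ℕ := rad (nn v)

/-! ## Part A: auxiliary polynomials -/

/-- Siegel's lemma for `(T - 1)^M ∣ R` -/
def S_SIEG : Prop := ∀ (r : ℕ) (ε : ℝ), 0 < ε → ε < 1 → ∃ c : ℝ, 0 ≤ c ∧ ∀ k n : ℕ, r < k → 1 ≤ n →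
  ∃ p : ℕ → ℕ → ℤ, (∃ j ∈ range (r + 1), ∃ l ∈ range (n + 1), p j l ≠ 0) ∧
    CoeffLe r n p (Real.exp (c * k * n)) ∧
    (X - 1 : ℤ[X]) ^ ⌊(1 - ε) * ((r : ℝ) + 1) * (n + 1)⌋₊ ∣ Rpoly k r n p

/-- Wronskians of polynomials of distinct degrees do not vanish -/
def S_WNZ : Prop := ∀ (q : ℕ) (f : Fin q → ℝ[X]), (∀ a, f a ≠ 0) →
  Function.Injective (fun a => (f a).natDegree) → wr f ≠ 0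

/-- the Wronskian of the `f_a` comes from a polynomial in `T^k` -/
def S_WSP : Prop := ∀ (q k n : ℕ) (c : Fin q → ℕ) (P : Fin q → ℝ[X]), 0 < k →
  (∀ a, (P a).natDegree ≤ n) → ∃ w : ℝ[X], w.natDegree ≤ q * n ∧
    X ^ (∑ i : Fin q, (i : ℕ)) * wr (ff k c P) = X ^ (∑ a, c a) * expand ℝ k w

/-- multiplicities of `w(T^k)` at nonzero points -/
def S_MUL : Prop := ∀ (k m : ℕ) (w : ℝ[X]) (t : ℝ), 0 < k → t ≠ 0 → w ≠ 0 →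
  (X - C t) ^ m ∣ expand ℝ k w → (X - C (t ^ k)) ^ m ∣ w

/-- the zero estimate -/
def S_NV : Prop := ∀ (q k n M : ℕ) (c : Fin q → ℕ) (P : Fin q → ℝ[X]), 0 < q → 0 < k →
  Function.Injective c → (∀ a, c a < k) → (∀ a, P a ≠ 0) → (∀ a, (P a).natDegree ≤ n) →
  (X - 1 : ℝ[X]) ^ M ∣ ∑ a, ff k c P a →
  M + 1 ≤ q * (n + 1) ∧ ∀ (t : ℝ) (v : Fin q → ℝ), t ≠ 0 → t ^ k ≠ 1 → v ≠ 0 →
    ∃ i : ℕ, i + M + 2 ≤ q * n + 2 * q ∧ ∑ a, v a * (hasseDeriv i (ff k c P a)).eval t ≠ 0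

/-- auxiliary polynomials with non-vanishing values -/
def S_AUX : Prop := ∀ (r : ℕ) (ε : ℝ), 1 ≤ r → 0 < ε → ε * (r + 1) < 1 → ∃ c : ℝ, 0 ≤ c ∧
  ∀ k n : ℕ, r < k → Odd k → 1 ≤ n → ∃ (p : ℕ → ℕ → ℤ) (M : ℕ),
    M = ⌊(1 - ε) * ((r : ℝ) + 1) * (n + 1)⌋₊ ∧ CoeffLe r n p (Real.exp (c * k * n)) ∧
    (X - 1 : ℤ[X]) ^ M ∣ Rpoly k r n p ∧
    ∀ x y N D : ℤ, x ≠ 0 → y ≠ 0 → x + y ≠ 0 → N ≠ 0 → D ≠ 0 →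
      ∃ i : ℕ, i + M ≤ (r + 1) * n + 2 * r ∧ Fval k r n i p x y N D ≠ 0

/-! ## Part B: local estimates -/

/-- `p`-adic estimate (places `q ≠ k` and `q = k`) -/
def S_PAD : Prop := ∀ (k r n M i q e1 e2 : ℕ) (p : ℕ → ℕ → ℤ) (x1 y1 x2 y2 N D : ℤ),
  q.Prime → k.Prime → Odd k →
  ¬ (q : ℤ) ∣ x1 → ¬ (q : ℤ) ∣ y1 → ¬ (q : ℤ) ∣ x2 → ¬ (q : ℤ) ∣ y2 → ¬ (q : ℤ) ∣ N → ¬ (q : ℤ) ∣ D →
  (q : ℤ) ^ e1 ∣ x1 + y1 → (q : ℤ) ^ e2 ∣ x2 + y2 → 1 ≤ e1 → 1 ≤ e2 →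
  N ^ k * (x2 * y1) = D ^ k * (x1 * y2) → (q : ℤ) ∣ N - D →
  (X - 1 : ℤ[X]) ^ M ∣ Rpoly k r n p → i < M →
  (q : ℤ) ^ (min ((M - i) * e1) e2 - (if q = k then M - i else 0)) ∣ Fval k r n i p x1 y1 N D

/-- trivial bound -/
def S_TRV : Prop := ∀ (k r n i : ℕ) (p : ℕ → ℕ → ℤ) (x y N D : ℤ) (A H Q : ℝ),
  CoeffLe r n p A → |(x : ℝ)| ≤ H → |(y : ℝ)| ≤ H → |(N : ℝ)| ≤ Q → |(D : ℝ)| ≤ Q →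
  |(Fval k r n i p x y N D : ℝ)| ≤ A * (r + 1) * (n + 1) * 2 ^ (k * n + r) * H ^ n * Q ^ r

/-- archimedean estimate when both `x_i + y_i` are small -/
def S_ARB : Prop := ∀ (k r n M i : ℕ) (p : ℕ → ℕ → ℤ) (x1 y1 x2 y2 N D : ℤ) (A Q : ℝ),
  Odd k → i < M → CoeffLe r n p A → 0 < y1 → 0 < y2 → N ≠ 0 → D ≠ 0 →
  N ^ k * (x2 * y1) = D ^ k * (x1 * y2) → |(N : ℝ)| ≤ Q → |(D : ℝ)| ≤ Q →
  (X - 1 : ℤ[X]) ^ M ∣ Rpoly k r n p →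
  4 * |((x1 + y1 : ℤ) : ℝ)| ≤ ht x1 y1 → 4 * |((x2 + y2 : ℤ) : ℝ)| ≤ ht x2 y2 →
  |(Fval k r n i p x1 y1 N D : ℝ)| ≤ A * 64 ^ (k * n + r + M + 1) * (ht x1 y1 : ℝ) ^ n * Q ^ r *
    ((|((x1 + y1 : ℤ) : ℝ)| / ht x1 y1) ^ (M - i) + |((x2 + y2 : ℤ) : ℝ)| / ht x2 y2)

/-- archimedean estimate, general form -/
def S_ARC : Prop := ∀ (k r n M i : ℕ) (p : ℕ → ℕ → ℤ) (x1 y1 x2 y2 N D : ℤ) (A Q θ : ℝ),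
  Odd k → i < M → CoeffLe r n p A → IsSol x1 y1 → IsSol x2 y2 → N ≠ 0 → D ≠ 0 →
  N ^ k * (x2 * y1) = D ^ k * (x1 * y2) → |(N : ℝ)| ≤ Q → |(D : ℝ)| ≤ Q →
  (X - 1 : ℤ[X]) ^ M ∣ Rpoly k r n p → 0 ≤ θ →
  θ * lh x1 y1 ≤ lh x1 y1 - Real.log |((x1 + y1 : ℤ) : ℝ)| →
  θ * lh x2 y2 ≤ lh x2 y2 - Real.log |((x2 + y2 : ℤ) : ℝ)| →
  |(Fval k r n i p x1 y1 N D : ℝ)| ≤ A * 256 ^ (k * n + r + M + 1) * (ht x1 y1 : ℝ) ^ n * Q ^ r *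
    Real.exp (-(θ * min (((M - i : ℕ) : ℝ) * lh x1 y1) (lh x2 y2)))

/-- the Thue–Siegel inequality -/
def S_TSI : Prop := ∀ (k r n M i : ℕ) (p : ℕ → ℕ → ℤ) (S : Finset ℕ) (θ : ℕ → ℝ) (θi A : ℝ)
  (x1 y1 x2 y2 N D : ℤ), k.Prime → Odd k → Linked k S θ θi x1 y1 x2 y2 N D → i < M →
  CoeffLe r n p (Real.exp A) → (X - 1 : ℤ[X]) ^ M ∣ Rpoly k r n p →
  Fval k r n i p x1 y1 N D ≠ 0 →
  (∑ q ∈ S, θ q + θi) * min (((M - i : ℕ) : ℝ) * lh x1 y1) (lh x2 y2) ≤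
    A + (k * n + r + M + 1) * Real.log 256 + M * Real.log k + n * lh x1 y1 +
      r * ((lh x1 y1 + lh x2 y2) / k)

/-- gap principle -/
def S_GAP : Prop := ∀ δ : ℝ, 0 < δ → δ ≤ 1 → ∃ (k0 : ℕ) (C0 : ℝ), 1 ≤ C0 ∧
  ∀ (k : ℕ) (S : Finset ℕ) (θ : ℕ → ℝ) (θi : ℝ) (x1 y1 x2 y2 N D : ℤ), k.Prime → Odd k → k0 ≤ k →
  Linked k S θ θi x1 y1 x2 y2 N D → δ ≤ ∑ q ∈ S, θ q + θi → C0 * k ≤ lh x1 y1 →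
  lh x1 y1 ≤ lh x2 y2 → (x1, y1) ≠ (x2, y2) → 2 * lh x1 y1 ≤ lh x2 y2

/-- upper bound for the larger of two linked solutions -/
def S_UPR : Prop := ∀ δ : ℝ, 0 < δ → δ ≤ 1 → ∃ (k0 : ℕ) (C0 : ℝ), 1 ≤ C0 ∧
  ∀ (k : ℕ) (S : Finset ℕ) (θ : ℕ → ℝ) (θi : ℝ) (x1 y1 x2 y2 N D : ℤ), k.Prime → Odd k → k0 ≤ k →
  Linked k S θ θi x1 y1 x2 y2 N D → δ ≤ ∑ q ∈ S, θ q + θi → C0 * k ≤ lh x1 y1 →
  lh x1 y1 ≤ lh x2 y2 → lh x2 y2 ≤ 4 / δ * lh x1 y1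

/-! ## Part C: cells -/

/-- number of vectors of natural numbers with bounded sum -/
def S_GCO : Prop := ∀ (ι : Type) [Fintype ι] [DecidableEq ι] (q : ℕ) (G : Finset (ι → ℕ)),
  (∀ g ∈ G, ∑ i, g i ≤ q) → G.card ≤ 2 ^ (q + Fintype.card ι)

/-- sets of reals with gaps -/
def S_GEO : Prop := ∀ (α : Type) (F : Finset α) (h : α → ℝ) (J : ℕ), (∀ a ∈ F, 0 < h a) →
  (∀ a ∈ F, ∀ b ∈ F, a ≠ b → h a ≤ h b → 2 * h a ≤ h b ∧ h b ≤ 2 ^ J * h a) → F.card ≤ J + 1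

/-- the uniform engine -/
def S_UENG : Prop := ∀ δ : ℝ, 0 < δ → δ ≤ 1 → ∃ (k0 : ℕ) (C : ℝ), 1 ≤ C ∧
  ∀ (k : ℕ) (S : Finset ℕ) (α β : ℤ) (F : Finset (ℤ × ℤ)), k.Prime → Odd k → k0 ≤ k →
  (∀ q ∈ S, q.Prime) → 0 < α → 0 < β →
  (∀ v ∈ F, IsSol v.1 v.2 ∧ (∃ U : ℤ, v.1 = α * U ^ k) ∧ (∃ V : ℤ, v.2 = β * V ^ k) ∧
    Heavy δ S v.1 v.2 ∧ C * k ≤ lh v.1 v.2) →
  (F.card : ℝ) ≤ (C * k) ^ (S.card + 1)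

/-- the engine for `S`-units -/
def S_ENG : Prop := ∀ δ : ℝ, 0 < δ → δ ≤ 1 → ∃ C : ℝ, 1 ≤ C ∧
  ∀ (S : Finset ℕ) (F : Finset (ℤ × ℤ)), (∀ q ∈ S, q.Prime) →
  (∀ v ∈ F, IsSol v.1 v.2 ∧ v.1.natAbs.primeFactors ⊆ S ∧ v.2.natAbs.primeFactors ⊆ S ∧
    Heavy δ S v.1 v.2) →
  (F.card : ℝ) ≤ C ^ (S.card + 1)

/-- the engine for triples, special coordinate `t` -/
def S_TRE : Prop := ∀ δ : ℝ, 0 < δ → δ ≤ 1 → ∃ C : ℝ, 1 ≤ C ∧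
  ∀ (S : Finset ℕ) (F : Finset (ℕ × ℕ)) (t : Fin 3), (∀ q ∈ S, q.Prime) →
  (∀ v ∈ F, IsTri v ∧ (∀ s, s ≠ t → (coord v s).primeFactors ⊆ S) ∧
    Real.log (coord v t) - ∑ q ∈ S, ((coord v t).factorization q : ℝ) * Real.log q ≤
      (1 - δ) * Real.log ((v.1 : ℝ) + v.2)) →
  (F.card : ℝ) ≤ C ^ (S.card + 1)

/-- the uniform engine for triples: the special coordinate `t` is an `S`-unit, the two others are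
`k`-th powers up to a fixed factor -/
def S_TRU : Prop := ∃ (k0 : ℕ) (C : ℝ), 1 ≤ C ∧
  ∀ (k : ℕ) (S : Finset ℕ) (F : Finset (ℕ × ℕ)) (t : Fin 3) (α : Fin 3 → ℕ), k.Prime → Odd k →
  k0 ≤ k → (∀ q ∈ S, q.Prime) → (∀ s, 0 < α s) →
  (∀ v ∈ F, IsTri v ∧ (coord v t).primeFactors ⊆ S ∧
    (∀ s, s ≠ t → ∃ U : ℕ, coord v s = α s * U ^ k) ∧ C * k ≤ Real.log ((v.1 : ℝ) + v.2)) →
  (F.card : ℝ) ≤ (C * k) ^ (S.card + 1)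

/-! ## Part D: radicals -/

/-- sums of `K^ω(n)` -/
def S_RAD : Prop := ∀ (K : ℕ) (Y : ℝ), 1 ≤ K → 1 ≤ Y →
  ∑ n ∈ Icc 1 ⌊Y⌋₊, (K : ℝ) ^ om n ≤ Y * (1 + Real.log Y) ^ K ∧
  ∑ n ∈ Icc 1 ⌊Y⌋₊, (K : ℝ) ^ om n / n ≤ (1 + Real.log Y) ^ K

/-- greedy knapsack -/
def S_KNA : Prop := ∀ (s : Finset ℕ) (μ g : ℕ → ℝ) (δ G : ℝ), (∀ i ∈ s, 0 ≤ μ i) → (∀ i ∈ s, 0 < g i) →
  0 ≤ δ → δ ≤ 1 → 0 ≤ G → (∀ i ∈ s, g i ≤ G) →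
  ∃ K ⊆ s, δ * ∑ i ∈ s, μ i ≤ ∑ i ∈ K, μ i ∧ ∑ i ∈ K, g i ≤ δ * ∑ i ∈ s, g i + G

/-- counting triples with a heavy set `K` of primes of one coordinate -/
def S_CNT : Prop := ∀ δ : ℝ, 0 < δ → δ ≤ 1 → ∃ C : ℝ, 1 ≤ C ∧
  ∀ (B : ℝ) (F : Finset (ℕ × ℕ)), 1 ≤ B →
  (∀ v ∈ F, IsTri v ∧ ∃ t : Fin 3, ∃ K ⊆ (coord v t).primeFactors,
    Real.log (coord v t) - ∑ q ∈ K, ((coord v t).factorization q : ℝ) * Real.log q ≤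
      (1 - δ) * Real.log ((v.1 : ℝ) + v.2) ∧
    (((∏ s ∈ univ.erase t, rad (coord v s)) * ∏ q ∈ K, q : ℕ) : ℝ) ≤ B) →
  (F.card : ℝ) ≤ C * B * (1 + Real.log B) ^ C

/-- THEOREM (smooth radicals) -/
def S_SMO : Prop := ∀ ε : ℝ, 0 < ε → ∃ C : ℝ, 1 ≤ C ∧
  ∀ (Z Y : ℝ) (F : Finset (ℕ × ℕ)), 1 ≤ Z → 1 ≤ Y →
  (∀ v ∈ F, IsTri v ∧ (RR v : ℝ) ≤ Z ∧ ∀ p ∈ (RR v).primeFactors, (p : ℝ) ≤ Y) →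
  (F.card : ℝ) ≤ C * Z ^ (2 / 3 + ε) * Y

/-- number of triples with given radical -/
def S_TOT : Prop := ∃ C : ℝ, 1 ≤ C ∧ ∀ (R : ℕ) (F : Finset (ℕ × ℕ)),
  (∀ v ∈ F, IsTri v ∧ RR v = R) → (F.card : ℝ) ≤ C ^ (om R + 1)

/-- integers with many prime factors (Rankin) -/
def S_RNK : Prop := ∀ (K : ℕ) (η κ : ℝ), 1 ≤ K → 0 < η → 0 < κ → κ < 1 → ∃ C : ℝ, 1 ≤ C ∧
  ∀ Z : ℝ, 16 ≤ Z →
  ∑ n ∈ (Icc 1 ⌊Z⌋₊).filter (fun n => η * Real.log Z / Real.log (Real.log Z) < (om n : ℝ)),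
    (K : ℝ) ^ om n ≤ C * Z ^ (1 - (1 - κ) * η)

/-- a modulus `e` with many primes `l ≡ 1 mod e` just above it -/
def S_SHI : Prop := ∀ k0 : ℕ, ∃ y0 : ℝ, ∀ y : ℝ, y0 ≤ y → ∃ e : ℕ,
  (∀ q : ℕ, q.Prime → q ∣ e → k0 ≤ q) ∧ y ^ (86 / 100 : ℝ) ≤ e ∧
  ∃ L : Finset ℕ, y ^ (11 / 100 : ℝ) ≤ (L.card : ℝ) ∧
    ∀ l ∈ L, l.Prime ∧ e ∣ l - 1 ∧ y ≤ 9 * (l : ℝ) ∧ (l : ℝ) ≤ 8 * y

open Classical in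
/-- local count in `F_l` -/
def S_LOC : Prop := ∀ (l e s ξ : ℕ) [Fact l.Prime] (A B C : ZMod l), l - 1 = e * s →
  A ≠ 0 → B ≠ 0 → C ≠ 0 →
  ((univ : Finset (ZMod l)).filter (fun m => m ≠ 0 ∧ ∃ z1 z2 z3 : ZMod l, z1 ^ s = 1 ∧ z2 ^ s = 1 ∧
    z3 ^ s = 1 ∧ A * z1 * m ^ ξ + B * z2 + C * z3 = 0)).card ≤ s ^ 2 * Nat.gcd ξ e

open Classical in
/-- integers in an interval with prescribed residues -/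
def S_CRT : Prop := ∀ (L : Finset ℕ) (Ω : ℕ → ℕ → Prop) (w : ℕ → ℝ) (Y : ℝ), (∀ l ∈ L, l.Prime) →
  (∀ l ∈ L, (((range l).filter (Ω l)).card : ℝ) ≤ w l) → (∏ l ∈ L, (l : ℝ)) ≤ Y →
  (((Icc 1 ⌊Y⌋₊).filter (fun m => ∀ l ∈ L, Ω l (m % l))).card : ℝ) ≤ 2 * Y * ∏ l ∈ L, w l / l

/-- sieving one large prime of the radical -/
def S_SIV : Prop := ∀ (e u : ℕ) (g Y : ℝ) (L P : Finset ℕ), 0 < e → 0 < u → Squarefree u → 1 ≤ g →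
  (∀ l ∈ L, l.Prime ∧ e ∣ l - 1 ∧ ¬ l ∣ u) → (∏ l ∈ L, (l : ℝ)) ≤ Y →
  (∀ p ∈ P, p.Prime ∧ (p : ℝ) ≤ Y ∧ p ∉ L ∧ ¬ p ∣ u ∧
    ∃ v : ℕ × ℕ, IsTri v ∧ RR v = u * p ∧ (Nat.gcd ((nn v).factorization p) e : ℝ) ≤ g) →
  (P.card : ℝ) ≤ (3 * e : ℝ) ^ (om u + 1) * (2 * Y * ∏ l ∈ L, (((l - 1) / e : ℕ) : ℝ) ^ 2 * g / l)

/-- all large exponents divisible by `k` -/
def S_CSP : Prop := ∃ (k0 : ℕ) (C : ℝ), 1 ≤ C ∧ ∀ (k u : ℕ) (F : Finset (ℕ × ℕ)), k.Prime → Odd k →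
  k0 ≤ k → Squarefree u →
  (∀ v ∈ F, IsTri v ∧ C * k ≤ Real.log ((v.1 : ℝ) + v.2) ∧
    ∃ p : ℕ, p.Prime ∧ RR v = u * p ∧ k ∣ (nn v).factorization p) →
  (F.card : ℝ) ≤ (C * k) ^ (2 * (om u + 1))

/-- divisors -/
def S_GCL : Prop := ∀ (e : ℕ) (J : Finset ℕ) (g : ℕ → ℕ), 1 < e → J.Nonempty → J.card ≤ 3 →
  (∀ j ∈ J, g j ∣ e ∧ (e : ℝ) ^ (2 / 3 : ℝ) < g j) → ∃ k : ℕ, k.Prime ∧ k ∣ e ∧ ∀ j ∈ J, k ∣ g j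

/-- MAIN THEOREM: power saving -/
def S_MAIN : Prop := ∃ C : ℝ, 0 < C ∧ ∀ (Z : ℝ) (F : Finset (ℕ × ℕ)), 1 ≤ Z →
  (∀ v ∈ F, IsTri v ∧ (RR v : ℝ) ≤ Z) → (F.card : ℝ) ≤ C * Z ^ (1 - 1 / 500 : ℝ)

end Pool.Agent.H98.ABCR
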